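import Mathlib

/-!
Two polynomial identities which have no solutions.
-/

set_option autoImplicit false

open Polynomial

namespace Pool.Agent.Q79.QD

lemma deg_one (β : ℂ) :
    (C β + C (-1) * X ^ 2 + C 0 * X ^ 3 : ℂ[X]).natDegree = 2 := by
  have h : (C β + C (-1) * X ^ 2 + C 0 * X ^ 3 : ℂ[X]) = C β + C (-1) * X ^ 2 := by simp
  rw [h]
  compute_degree!

lemma deg_cub {α : ℂ} (hα : α ≠ 0) (p : ℂ[X]) (h3 : 0 < p.natDegree) :
    (p ^ 3 + C α * p).natDegree = 3 * p.natDegree := by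
  rw [natDegree_add_eq_left_of_natDegree_lt]
  · rw [natDegree_pow]
  · rw [natDegree_pow, natDegree_C_mul hα]
    omega

lemma root_one {α β : ℂ} (hα : α ≠ 0) (p : ℂ[X]) :
    p ^ 3 + C α * p + (C β + C (-1) * X ^ 2 + C 0 * X ^ 3) ≠ 0 := by
  intro h
  have h1 : p ^ 3 + C α * p = - (C β + C (-1) * X ^ 2 + C 0 * X ^ 3) := by linear_combination h
  have h2 := congrArg natDegree h1
  rw [natDegree_neg, deg_one] at h2
  rcases Nat.eq_zero_or_pos p.natDegree with h3 | h3
  · rw [eq_C_of_natDegree_eq_zero h3, ← C_pow, ← C_mul, ← C_add, natDegree_C] at h2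
    omega
  · rw [deg_cub hα p h3] at h2
    omega

lemma root_two {α : ℂ} (hα : α ≠ 0) (p : ℂ[X]) :
    p ^ 3 + C α * p + X ^ 3 ≠ 0 := by
  intro h
  have h1 : p ^ 3 + C α * p = - X ^ 3 := by linear_combination h
  have h2 := congrArg natDegree h1
  rw [natDegree_neg, natDegree_X_pow] at h2
  rcases Nat.eq_zero_or_pos p.natDegree with h3 | h3
  · rw [eq_C_of_natDegree_eq_zero h3, ← C_pow, ← C_mul, ← C_add, natDegree_C] at h2
    omega
  · rw [deg_cub hα p h3] at h2
    have h5 : p.natDegree = 1 := by omega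
    obtain ⟨a, ha, b, hab⟩ := natDegree_eq_one.1 h5
    rw [← hab] at h1
    have e : ((C a * X + C b) ^ 3 + C α * (C a * X + C b) : ℂ[X]) =
      C (a ^ 3) * X ^ 3 + C (3 * a ^ 2 * b) * X ^ 2 + C (3 * a * b ^ 2 + α * a) * X +
        C (b ^ 3 + α * b) := by
      have n3 : (C (3 : ℂ) : ℂ[X]) = 3 := map_ofNat C 3
      simp only [C_add, C_mul, C_pow, n3]
      ring
    rw [e] at h1
    have k2 := congrArg (fun q => coeff q 2) h1
    have k1 := congrArg (fun q => coeff q 1) h1
    simp only [coeff_add, coeff_C_mul, coeff_X_pow, coeff_neg, coeff_X, coeff_C] at k2 k1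
    norm_num at k2 k1
    rcases k2 with k2 | k2
    · exact ha k2
    · rw [k2] at k1
      simp [ha, hα] at k1

end Pool.Agent.Q79.QD
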