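import Pool.Agent.Q79.QD.Model
import Pool.Agent.Helper198.SchO
import Pool.Agent.Q79.QD.Pol

/-!
Integrality and dimension of the two curves.
-/

set_option autoImplicit false

open AlgebraicGeometry CategoryTheory Limits MvPolynomial

namespace Pool.Agent.Q79.QD

open Pool.Agent.Helper304.Ses Pool.Agent.H666R3.NG Pool.Agent.Helper198.Sch

attribute [local instance] MvPolynomial.gradedAlgebra

section ring

variable {K : Type} [Field K]

lemma alg_injective {R : Type} [CommRing R] [Nontrivial R] [Algebra (Polynomial K) R]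
    [Module.Free (Polynomial K) R] : Function.Injective (algebraMap (Polynomial K) R) :=
  FaithfulSMul.algebraMap_injective _ _

lemma ringKrullDim_one {R : Type} [CommRing R] [IsDomain R] [Algebra (Polynomial K) R]
    [Module.Finite (Polynomial K) R] (hinj : Function.Injective (algebraMap (Polynomial K) R)) :
    ringKrullDim R = 1 := by
  have hint : Algebra.IsIntegral (Polynomial K) R := inferInstance
  have hle : Ring.KrullDimLE 1 R := by
    apply Ring.KrullDimLE.mk₁'
    intro I hI hI2
    have h1 : I.comap (algebraMap (Polynomial K) R) ≠ ⊥ := by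
      intro h
      exact hI (Ideal.eq_bot_of_comap_eq_bot h)
    have h2 : (I.comap (algebraMap (Polynomial K) R)).IsPrime := inferInstance
    have h3 := Ring.DimensionLEOne.maximalOfPrime h1 h2
    exact Ideal.isMaximal_of_isIntegral_of_isMaximal_comap I h3
  apply eq_of_le_of_not_lt ?_ fun h' ↦ ?_
  · rw [← Nat.cast_one, ← Ring.krullDimLE_iff]
    infer_instance
  · have h'' : ringKrullDim R ≤ 0 := Order.le_of_lt_succ h'
    rw [← Nat.cast_zero, ← Ring.krullDimLE_iff] at h''
    have hf : IsField R := Ring.KrullDimLE.isField_of_isDomain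
    exact Polynomial.not_isField K (isField_of_isIntegral_of_isField hinj hf)

end ring

section two

variable {σ : Type} {J : HI σ ℂ} {c c' : σ}

lemma integral_two (hcov : ∀ x : V J, x ∈ V.D J c ∨ x ∈ V.D J c') [IsDomain (Ch J c)]
    [IsDomain (Ch J c')] (h0 : frac J c c' ≠ 0) : IsIntegral (V J) := by
  let x0 : V J := V.chart J c (⟨⊥, Ideal.isPrime_bot⟩ : PrimeSpectrum (Ch J c))
  apply V.isIntegral_of_charts J (fun b : Bool => if b then c else c') ?_ ?_ x0
  · intro b
    cases b
    · exact (V.chart_mem_D J c c' _).2 h0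
    · refine (V.chart_mem_D J c c _).2 ?_
      rw [frac_self]
      exact fun h => one_ne_zero (α := Ch J c) h
  · intro x
    rcases hcov x with h | h
    · exact ⟨true, h⟩
    · exact ⟨false, h⟩
  · intro b
    cases b
    · change IsDomain (Ch J c')
      infer_instance
    · change IsDomain (Ch J c)
      infer_instance

lemma dim_two (hcov : ∀ x : V J, x ∈ V.D J c ∨ x ∈ V.D J c')
    (h1 : ringKrullDim (Ch J c) = 1) (h2 : ringKrullDim (Ch J c') = 1) :
    topologicalKrullDim (V J) = 1 := by
  apply le_antisymm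
  · apply V.krullDim_le_of_charts J (fun b : Bool => if b then c else c')
    · intro x
      rcases hcov x with h | h
      · exact ⟨true, h⟩
      · exact ⟨false, h⟩
    · intro b
      cases b
      · exact h2.le
      · exact h1.le
  · rw [← h1]
    exact V.le_krullDim_of_chart J c

end two

section curve

variable (α β γ δ : ℂ)

instance free_RE (A B : Polynomial ℂ) : Module.Free (Polynomial ℂ) (RE A B) :=
  Module.Free.of_basis (bE A B)

instance free_RS (A B : Polynomial ℂ) : Module.Free (Polynomial ℂ) (RS A B) :=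
  Module.Free.of_basis (bS A B)

instance finite_RE (A B : Polynomial ℂ) : Module.Finite (Polynomial ℂ) (RE A B) :=
  Module.Finite.of_basis (bE A B)

instance finite_RS (A B : Polynomial ℂ) : Module.Finite (Polynomial ℂ) (RS A B) :=
  Module.Finite.of_basis (bS A B)

instance nontrivial_RS (A B : Polynomial ℂ) : Nontrivial (RS A B) :=
  ⟨⟨_, _, (bS A B).ne_zero (0, 0)⟩⟩

/-- The conditions which make the curves integral. -/
structure Good : Prop where
  α_ne : α ≠ 0
  root : ∀ p : Polynomial ℂ, p ^ 3 + AZ α * p + BZ β γ δ ≠ 0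
  deg : 0 < (BZ β γ δ).natDegree

variable {α β γ δ}

lemma Good.domZ (h : Good α β γ δ) :
    IsDomain (RE (AZ α) (BZ β γ δ)) ∧ IsDomain (RS (AZ α) (BZ β γ δ)) :=
  isDomain_aux _ _ two_ne_zero h.root (disc_not_sq three_ne_zero two_ne_zero α h.α_ne _ h.deg)

lemma frac_ne_E : frac (JE α β γ δ) 2 1 ≠ 0 := by
  intro h
  have h1 := cEZ_frac α β γ δ 1
  rw [h, map_zero] at h1
  have h2 : algebraMap (Polynomial ℂ) (RE (AZ α) (BZ β γ δ)) Polynomial.X = 0 := by
    rw [h1]
    simp [uE]
  exact Polynomial.X_ne_zero (alg_injective (h2.trans (map_zero _).symm))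

lemma frac_ne_S : frac (JS α β γ δ) 3 2 ≠ 0 := by
  intro h
  have h1 := cSZ_frac α β γ δ 2
  rw [h, map_zero] at h1
  have h2 : algebraMap (Polynomial ℂ) (RS (AZ α) (BZ β γ δ)) Polynomial.X = 0 := by
    rw [h1]
    simp [uS]
  exact Polynomial.X_ne_zero (alg_injective (h2.trans (map_zero _).symm))

lemma Good.domE2 (h : Good α β γ δ) : IsDomain (Ch (JE α β γ δ) 2) := by
  have := h.domZ.1
  exact (cEZ α β γ δ).toMulEquiv.isDomain _

lemma Good.domS3 (h : Good α β γ δ) : IsDomain (Ch (JS α β γ δ) 3) := by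
  have := h.domZ.2
  exact (cSZ α β γ δ).toMulEquiv.isDomain _

lemma Good.domE1 (h : Good α β γ δ) : IsDomain (Ch (JE α β γ δ) 1) := by
  have := h.domE2
  exact isDomain_second (TE α β γ δ) frac_ne_E

lemma Good.domS2 (h : Good α β γ δ) : IsDomain (Ch (JS α β γ δ) 2) := by
  have := h.domS3
  exact isDomain_second (TS α β γ δ) frac_ne_S

lemma Good.integralE (h : Good α β γ δ) : IsIntegral (V (JE α β γ δ)) := by
  have := h.domE2
  have := h.domE1
  exact integral_two (covE α β γ δ) frac_ne_E

lemma Good.integralS (h : Good α β γ δ) : IsIntegral (V (JS α β γ δ)) := by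
  have := h.domS3
  have := h.domS2
  exact integral_two (covS α β γ δ) frac_ne_S

lemma Good.dimS (h : Good α β γ δ) : topologicalKrullDim (V (JS α β γ δ)) = 1 := by
  have h3 := h.domS3
  have h2 := h.domS2
  apply dim_two (covS α β γ δ)
  · have := h.domZ.2
    rw [ringKrullDim_eq_of_ringEquiv (cSZ α β γ δ).toRingEquiv]
    exact ringKrullDim_one (K := ℂ) alg_injective
  · have : IsDomain (RS (AY α) (BY β γ δ)) := (cSY α β γ δ).symm.toMulEquiv.isDomain _
    rw [ringKrullDim_eq_of_ringEquiv (cSY α β γ δ).toRingEquiv]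
    exact ringKrullDim_one (K := ℂ) alg_injective

lemma isProjective_V {n : ℕ} (J : HI (Fin (n + 1)) ℂ) : IsProjective (V.str J) :=
  ⟨n, emb J (Equiv.refl _), inferInstance, emb_str J (Equiv.refl _)⟩

end curve

/-- the Weierstrass curves with `α ≠ 0` -/
theorem good_one {α β : ℂ} (hα : α ≠ 0) : Good α β (-1) 0 where
  α_ne := hα
  root p := root_one hα p
  deg := by
    unfold BZ
    rw [deg_one]
    norm_num

/-- the curve `X³ + α X Z² + Y³ = 0`, `α ≠ 0` -/
theorem good_two {α : ℂ} (hα : α ≠ 0) : Good α 0 0 1 := by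
  have hB : BZ 0 0 1 = Polynomial.X ^ 3 := by simp [BZ]
  refine ⟨hα, fun p => ?_, ?_⟩
  · rw [hB]
    exact root_two hα p
  · rw [hB, Polynomial.natDegree_X_pow]
    norm_num

end Pool.Agent.Q79.QD
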