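import Pool.Agent.Q79.QD.Tors
import Pool.Agent.Q79.QD.Integral

/-!
The projections of the curve `S` to the curve `E`.
-/

set_option autoImplicit false

open AlgebraicGeometry CategoryTheory Limits MvPolynomial

namespace Pool.Agent.Q79.QD

open Pool.Agent.Helper304.Ses Pool.Agent.H666R3.NG Pool.Agent.Helper198.Sch

attribute [local instance] MvPolynomial.gradedAlgebra

section general

variable {σ τ I : Type} [Fintype σ] [DecidableEq σ]

variable (J : HI σ ℂ) (P : Set (MvPolynomial τ ℂ)) (hP : ∀ f ∈ P, ∃ n, f.IsHomogeneous n)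
  (e : I → σ) (e' : I → τ) (l : τ → σ → ℂ) (u : I → ℂ)

/-- the coordinates -/
noncomputable def wL (i : I) : τ → Ch J (e i) := fun a =>
  algebraMap ℂ _ (u i) * ∑ b, algebraMap ℂ _ (l a b) * frac J (e i) b

variable {J P e e' l u} (hu : ∀ i, u i * u i = 1) (hl : ∀ j b, l (e' j) b = if b = e j then u j else 0)
  (hr : ∀ f ∈ P, aeval (fun a => ∑ b, C (l a b) * X b : τ → MvPolynomial σ ℂ) f ∈ J.toIdeal)

include hu hl in
lemma wL_one (i : I) : wL J e l u i (e' i) = 1 := by
  unfold wL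
  rw [Finset.sum_eq_single (e i)]
  · rw [hl, if_pos rfl, frac_self, mul_one, ← map_mul, hu, map_one]
  · intro b _ hb
    rw [hl, if_neg hb, map_zero, zero_mul]
  · intro h
    exact absurd (Finset.mem_univ _) h

include hP hr in
lemma wL_rel (i : I) : ∀ f ∈ (HI.ofSet P hP).toIdeal, aeval (wL J e l u i) f = 0 := by
  apply aeval_ofSet
  intro f hf
  obtain ⟨n, hn⟩ := hP f hf
  unfold wL
  rw [aeval_scale hn]
  have h1 : aeval (fun a => ∑ b, algebraMap ℂ (Ch J (e i)) (l a b) * frac J (e i) b) f =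
      aeval (frac J (e i)) (aeval (fun a => ∑ b, C (l a b) * X b : τ → MvPolynomial σ ℂ) f) := by
    rw [← AlgHom.comp_apply, comp_aeval]
    congr 2
    funext a
    rw [map_sum]
    refine Finset.sum_congr rfl fun b _ => ?_
    rw [map_mul, aeval_C, aeval_X]
  rw [h1, aeval_frac_eq_zero J (e i) _ (hr f hf), mul_zero]

/-- the data of a morphism given by a matrix -/
noncomputable def linMk : LinData J (HI.ofSet P hP) e e' where
  χ i := chLift (HI.ofSet P hP) (e' i) (wL J e l u i) (wL_one hu hl i) (wL_rel hP hr i)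
  l := l
  u := u
  hu := hu
  hl := hl
  hχ i a := chLift_frac _ _ _ _ _ _

end general

section SE

variable (α β γ δ : ℂ)

/-- the charts of `S` -/
def eS : Fin 2 → Fin 4 := ![3, 2]

/-- the charts of `E` -/
def eE : Fin 2 → Fin 3 := ![2, 1]

/-- the matrix of the map `(a X₁ + b X₂ : ε Y : Z)` -/
def mat (a b ε : ℂ) : Fin 3 → Fin 4 → ℂ := ![![a, b, 0, 0], ![0, 0, ε, 0], ![0, 0, 0, 1]]

/-- the condition that the map `(a X₁ + b X₂ : ε Y : Z)` maps `S` to `E` -/
def IsRel (a b ε : ℂ) : Prop :=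
  (C a * X 0 + C b * X 1) ^ 3 + C α * (C a * X 0 + C b * X 1) * X 3 ^ 2 + C β * X 3 ^ 3 +
    C γ * (C ε * X 2) ^ 2 * X 3 + C δ * (C ε * X 2) ^ 3 ∈ (JS α β γ δ).toIdeal

variable {α β γ δ}

/-- the data of the map `(a X₁ + b X₂ : ε Y : Z)` -/
noncomputable def linSE {a b ε : ℂ} (hε : ε * ε = 1) (h : IsRel α β γ δ a b ε) :
    LinData (JS α β γ δ) (JE α β γ δ) eS eE :=
  linMk (J := JS α β γ δ) (P := {cubE α β γ δ}) (cubE_set α β γ δ) (e := eS) (e' := eE)
    (l := mat a b ε) (u := ![1, ε]) (by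
      intro i
      fin_cases i
      · simp
      · simpa using hε) (by
      intro j b
      fin_cases j <;> fin_cases b <;> simp [mat, eE, eS]) (by
      rintro f rfl
      unfold cubE
      simp only [map_add, map_mul, map_pow, aeval_X, aeval_C, Fin.sum_univ_four, mat]
      unfold IsRel at h
      simpa [MvPolynomial.algebraMap_eq] using h)

lemma linSE_frac {a b ε : ℂ} (hε : ε * ε = 1) (h : IsRel α β γ δ a b ε) (i : Fin 2) (c : Fin 3) :
    (linSE hε h).χ i (frac _ (eE i) c) = algebraMap ℂ _ ((![1, ε] : Fin 2 → ℂ) i) *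
      ∑ d, algebraMap ℂ _ (mat a b ε c d) * frac _ (eS i) d :=
  (linSE hε h).hχ i c

lemma he_S (x : V (JS α β γ δ)) : ∃ i, x ∈ V.D (JS α β γ δ) (eS i) := by
  rcases covS α β γ δ x with h | h
  · exact ⟨0, h⟩
  · exact ⟨1, h⟩

lemma he_E (x : V (JE α β γ δ)) : ∃ i, x ∈ V.D (JE α β γ δ) (eE i) := by
  rcases covE α β γ δ x with h | h
  · exact ⟨0, h⟩
  · exact ⟨1, h⟩

lemma rel1 : IsRel α β γ δ 1 0 1 := by
  unfold IsRel
  have h : cubS α β γ δ ∈ (JS α β γ δ).toIdeal := mem_ofSet (Or.inl rfl)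
  convert h using 1
  unfold cubS
  simp only [map_one, map_zero]
  ring

lemma rel2 : IsRel α β γ δ 0 1 1 := by
  unfold IsRel
  have h : cubS α β γ δ ∈ (JS α β γ δ).toIdeal := mem_ofSet (Or.inl rfl)
  have h' : quadS α ∈ (JS α β γ δ).toIdeal := mem_ofSet (Or.inr rfl)
  convert Ideal.add_mem _ h (Ideal.mul_mem_left _ (X 1 - X 0) h') using 1
  unfold cubS quadS
  simp only [map_one, map_zero]
  ring

lemma rel3 : IsRel α β γ δ (-1) (-1) 1 := by
  unfold IsRel
  have h : cubS α β γ δ ∈ (JS α β γ δ).toIdeal := mem_ofSet (Or.inl rfl)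
  have h' : quadS α ∈ (JS α β γ δ).toIdeal := mem_ofSet (Or.inr rfl)
  convert Ideal.add_mem _ h (Ideal.mul_mem_left _ (-(2 * X 0 + X 1)) h') using 1
  unfold cubS quadS
  simp only [map_one, map_neg]
  ring

lemma rel4 : IsRel α β γ 0 1 0 (-1) := by
  unfold IsRel
  have h : cubS α β γ 0 ∈ (JS α β γ 0).toIdeal := mem_ofSet (Or.inl rfl)
  convert h using 1
  unfold cubS
  simp only [map_one, map_zero, map_neg]
  ring

end SE

end Pool.Agent.Q79.QD
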