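import Pool.Agent.Helper304.Ses.Mc1
import Pool.Agent.Q79.QD.Proj

/-!
The morphism of the curve `S` to the product is a closed immersion.
-/

set_option autoImplicit false

open AlgebraicGeometry CategoryTheory Limits MvPolynomial TopologicalSpace

namespace Pool.Agent.Q79.QD

open Pool.Agent.Helper304.Ses Pool.Agent.H666R3.NG Pool.Agent.Helper198.Sch

attribute [local instance] MvPolynomial.gradedAlgebra

section tup

variable {E S : Scheme.{0}} (sE : E ⟶ SpecC) (sS : S ⟶ SpecC)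

/-- The morphism `S → E ^ n` over `ℂ` with components `f 0, ..., f (n - 1)`. -/
noncomputable def tup {E S : Scheme.{0}} (sE : E ⟶ SpecC) (sS : S ⟶ SpecC) :
    ∀ (n : ℕ) (f : Fin n → (S ⟶ E)), (∀ i, f i ≫ sE = sS) →
      { g : S ⟶ (pwr sE n).left // g ≫ (pwr sE n).hom = sS }
  | 0, _, _ => ⟨sS, Category.comp_id sS⟩
  | n + 1, f, hf =>
    let g := tup sE sS n (fun i => f i.succ) (fun i => hf i.succ)
    ⟨pullback.lift (f 0) g.1 ((hf 0).trans g.2.symm), by
      change pullback.lift (f 0) g.1 _ ≫ pullback.fst sE (pwr sE n).hom ≫ sE = sS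
      rw [pullback.lift_fst_assoc, hf 0]⟩

lemma tup_pr : ∀ (n : ℕ) (f : Fin n → (S ⟶ E)) (hf : ∀ i, f i ≫ sE = sS) (i : Fin n),
    (tup sE sS n f hf).1 ≫ pr sE n i = f i
  | 0, _, _, i => i.elim0
  | n + 1, f, hf, i => by
    refine Fin.cases ?_ (fun i => ?_) i
    · exact pullback.lift_fst _ _ _
    · have e2 : (tup sE sS (n + 1) f hf).1 ≫ pullback.snd sE (pwr sE n).hom =
        (tup sE sS n (fun i => f i.succ) (fun i => hf i.succ)).1 := pullback.lift_snd _ _ _
      change (tup sE sS (n + 1) f hf).1 ≫ pullback.snd sE (pwr sE n).hom ≫ pr sE n i = _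
      rw [reassoc_of% e2]
      exact tup_pr n (fun i => f i.succ) (fun i => hf i.succ) i

lemma pwr_separated [IsSeparated sE] : ∀ n, IsSeparated (pwr sE n).hom
  | 0 => by
    change IsSeparated (𝟙 SpecC)
    infer_instance
  | n + 1 => by
    have h := pwr_separated n
    change IsSeparated (pullback.fst sE (pwr sE n).hom ≫ sE)
    infer_instance

lemma tup_cancel {T : Scheme.{0}} (g h : T ⟶ S) : ∀ (n : ℕ) (f : Fin n → (S ⟶ E))
    (hf : ∀ i, f i ≫ sE = sS), g ≫ (tup sE sS n f hf).1 = h ≫ (tup sE sS n f hf).1 →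
    ∀ i, g ≫ f i = h ≫ f i
  | 0, _, _, _, i => i.elim0
  | n + 1, f, hf, hgh, i => by
    have e1 : (tup sE sS (n + 1) f hf).1 ≫ pullback.fst sE (pwr sE n).hom = f 0 :=
      pullback.lift_fst _ _ _
    have e2 : (tup sE sS (n + 1) f hf).1 ≫ pullback.snd sE (pwr sE n).hom =
        (tup sE sS n (fun i => f i.succ) (fun i => hf i.succ)).1 := pullback.lift_snd _ _ _
    refine Fin.cases ?_ (fun i => ?_) i
    · rw [← e1]
      exact congrArg (fun t => t ≫ pullback.fst sE (pwr sE n).hom) hgh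
    · refine tup_cancel g h n (fun i => f i.succ) (fun i => hf i.succ) ?_ i
      rw [← e2]
      exact congrArg (fun t => t ≫ pullback.snd sE (pwr sE n).hom) hgh

theorem tup_closed [IsProper sE] [IsProper sS] (n : ℕ) (f : Fin n → (S ⟶ E))
    (hf : ∀ i, f i ≫ sE = sS)
    (hmono : ∀ (T : Scheme.{0}) (g h : T ⟶ S), (∀ i, g ≫ f i = h ≫ f i) → g = h) :
    IsClosedImmersion (tup sE sS n f hf).1 := by
  rw [IsClosedImmersion.iff_isProper_and_mono]
  constructor
  · have h1 := pwr_separated sE n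
    have h2 : IsProper ((tup sE sS n f hf).1 ≫ (pwr sE n).hom) := by
      rw [(tup sE sS n f hf).2]
      infer_instance
    exact IsProper.of_comp _ (pwr sE n).hom
  · exact ⟨fun g h hgh => hmono _ g h (tup_cancel sE sS g h n f hf hgh)⟩

end tup

section joint

variable {σ τ I K : Type} [Fintype σ] [DecidableEq σ]
variable {J : HI σ ℂ} {J' : HI τ ℂ} {e : I → σ} {e' : I → τ}

theorem joint_mono (he : ∀ x : V J, ∃ i, x ∈ V.D J (e i)) (L : K → LinData J J' e e')
    (f : K → (V J ⟶ V J')) (hf : ∀ k, (L k).IsMap (f k)) (k0 : K)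
    (hgen : ∀ (i : I) (R : Type) [CommRing R] (φ ψ : Ch J (e i) →+* R),
      (∀ k x, φ ((L k).χ i x) = ψ ((L k).χ i x)) → φ = ψ)
    (T : Scheme.{0}) (g h : T ⟶ V J) (hgh : ∀ k, g ≫ f k = h ≫ f k) : g = h := by
  have hD : ∀ i, g ⁻¹ᵁ V.D J (e i) = h ⁻¹ᵁ V.D J (e i) := by
    intro i
    rw [← (hf k0).preimage he i]
    change (g ≫ f k0) ⁻¹ᵁ V.D J' (e' i) = (h ≫ f k0) ⁻¹ᵁ V.D J' (e' i)
    rw [hgh]
  have hcov : IsOpenCover (fun i => g ⁻¹ᵁ V.D J (e i)) := by
    apply TopologicalSpace.Opens.ext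
    ext x
    simp only [TopologicalSpace.Opens.coe_iSup, Set.mem_iUnion, TopologicalSpace.Opens.coe_top,
      Set.mem_univ, iff_true]
    exact he (g x)
  apply (T.openCoverOfIsOpenCover _ hcov).hom_ext
  intro (i : I)
  change (g ⁻¹ᵁ V.D J (e i)).ι ≫ g = (g ⁻¹ᵁ V.D J (e i)).ι ≫ h
  set W : T.Opens := g ⁻¹ᵁ V.D J (e i) with hW
  have h1 : W ≤ g ⁻¹ᵁ V.D J (e i) := le_rfl
  have h2 : W ≤ h ⁻¹ᵁ V.D J (e i) := (hD i).le
  have k1 := fx_key (V.chart J (e i)) (V.D J (e i)) (CommRingCat.ofHom (R := Ch J (e i))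
    (S := Γ(V J, V.D J (e i))) (secD J (e i))) (ι_D J (e i)) W g h1
  have k2 := fx_key (V.chart J (e i)) (V.D J (e i)) (CommRingCat.ofHom (R := Ch J (e i))
    (S := Γ(V J, V.D J (e i))) (secD J (e i))) (ι_D J (e i)) W h h2
  rw [← k1, ← k2]
  congr 3
  generalize CommRingCat.ofHom (R := Ch J (e i))
    (S := Γ(V J, V.D J (e i))) (secD J (e i)) ≫ g.appLE _ W h1 = φ at k1 ⊢
  generalize CommRingCat.ofHom (R := Ch J (e i))
    (S := Γ(V J, V.D J (e i))) (secD J (e i)) ≫ h.appLE _ W h2 = ψ at k2 ⊢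
  have key : ∀ k, CommRingCat.ofHom ((L k).χ i).toRingHom ≫ φ =
      CommRingCat.ofHom ((L k).χ i).toRingHom ≫ ψ := by
    intro k
    apply fx_faithful
    rw [← cancel_mono (V.chart J' (e' i)), Spec.map_comp, Spec.map_comp]
    simp only [Category.assoc]
    rw [← (hf k).chart i]
    have e1 := congrArg (fun t => t ≫ f k) k1
    have e2 := congrArg (fun t => t ≫ f k) k2
    simp only [Category.assoc] at e1 e2
    rw [e1, e2, hgh]
  have h5 : φ.hom = ψ.hom := hgen i _ φ.hom ψ.hom (fun k x => congrArg (fun t => t.hom x) (key k))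
  exact CommRingCat.hom_ext h5

end joint

section SE

variable {α β γ δ : ℂ}

lemma frac_mat {i : Fin 2} {R : Type} [CommRing R] (φ : Ch (JS α β γ δ) (eS i) →+* R) {a b ε : ℂ}
    (hε : ε * ε = 1) (h : IsRel α β γ δ a b ε) (c : Fin 3) :
    φ ((linSE hε h).χ i (frac _ (eE i) c)) = φ (algebraMap ℂ _ ((![1, ε] : Fin 2 → ℂ) i)) *
      ∑ d, φ (algebraMap ℂ _ (mat a b ε c d)) * φ (frac _ (eS i) d) := by
  rw [linSE_frac, map_mul, map_sum]
  congr 1
  exact Finset.sum_congr rfl fun d _ => map_mul _ _ _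

/-- the first two projections determine a point -/
lemma hgen12 (i : Fin 2) (R : Type) [CommRing R] (φ ψ : Ch (JS α β γ δ) (eS i) →+* R)
    (h1 : ∀ x, φ ((linSE (one_mul 1) (rel1 (α := α) (β := β) (γ := γ) (δ := δ))).χ i x) =
      ψ ((linSE (one_mul 1) (rel1 (α := α) (β := β) (γ := γ) (δ := δ))).χ i x))
    (h2 : ∀ x, φ ((linSE (one_mul 1) (rel2 (α := α) (β := β) (γ := γ) (δ := δ))).χ i x) =
      ψ ((linSE (one_mul 1) (rel2 (α := α) (β := β) (γ := γ) (δ := δ))).χ i x)) : φ = ψ := by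
  have e1 : (![1, 1] : Fin 2 → ℂ) i = 1 := by fin_cases i <;> rfl
  apply ch_ringHom_ext
  · intro r
    have := h1 (algebraMap ℂ _ r)
    rwa [AlgHom.commutes] at this
  · have g1 : ∀ c, ∑ d, φ (algebraMap ℂ _ (mat 1 0 1 c d)) * φ (frac _ (eS i) d) =
        ∑ d, ψ (algebraMap ℂ _ (mat 1 0 1 c d)) * ψ (frac _ (eS i) d) := by
      intro c
      have := h1 (frac _ (eE i) c)
      rw [frac_mat, frac_mat, e1, map_one, map_one, map_one, one_mul, one_mul] at this
      exact this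
    have g2 : ∀ c, ∑ d, φ (algebraMap ℂ _ (mat 0 1 1 c d)) * φ (frac _ (eS i) d) =
        ∑ d, ψ (algebraMap ℂ _ (mat 0 1 1 c d)) * ψ (frac _ (eS i) d) := by
      intro c
      have := h2 (frac _ (eE i) c)
      rw [frac_mat, frac_mat, e1, map_one, map_one, map_one, one_mul, one_mul] at this
      exact this
    intro a
    have m0 := g1 0
    have m1 := g1 1
    have m2 := g1 2
    have m3 := g2 0
    simp only [Fin.sum_univ_four, mat, Matrix.cons_val_zero, Matrix.cons_val_one, Matrix.cons_val,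
      map_zero, map_one, zero_mul, one_mul, zero_add, add_zero] at m0 m1 m2 m3
    fin_cases a
    · exact m0
    · exact m3
    · exact m1
    · exact m2

end SE

end Pool.Agent.Q79.QD
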