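import Mathlib

/-!
# Line bundles given by cocycles

A line bundle on a scheme `S` is given by an open covering `U i` and transition functions
`g i j` on `U i ⊓ U j`.
-/

set_option autoImplicit false

open AlgebraicGeometry CategoryTheory

namespace Pool.Agent.Q79.QD

/-- The ring of functions on the open subset `U` of the scheme `S`. -/
noncomputable def Fn {S : Scheme.{0}} (U : S.Opens) : CommRingCat.{0} := Γ(S, U)

/-- Restriction of functions from an open set `U` to a smaller open set `V`. -/
noncomputable def rs {S : Scheme.{0}} {U V : S.Opens} (h : V ≤ U) : Fn U →+* Fn V :=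
  (S.presheaf.map (homOfLE h).op).hom

/-- The inverse image of an open set. -/
noncomputable def pre {T S : Scheme.{0}} (f : T ⟶ S) (U : S.Opens) : T.Opens := f ⁻¹ᵁ U

/-- Pull back of functions along a morphism of schemes. -/
noncomputable def pbk {T S : Scheme.{0}} (f : T ⟶ S) (U : S.Opens) : Fn U →+* Fn (pre f U) :=
  (f.app U).hom

/-- The product on `U ⊓ V` of a function on `U` and a function on `V`. -/
noncomputable def mulF {S : Scheme.{0}} {U V : S.Opens} (a : Fn U) (b : Fn V) : Fn (U ⊓ V) :=
  rs inf_le_left a * rs inf_le_right b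

/-- The function `a` on `U` and the function `b` on `V` agree on `U ⊓ V`. -/
def Agree {S : Scheme.{0}} {U V : S.Opens} (a : Fn U) (b : Fn V) : Prop :=
  (rs inf_le_left a : Fn (U ⊓ V)) = rs inf_le_right b

/-- A line bundle on the scheme `S`, given by an open covering `U i` and transition functions
`g i j` on `U i ⊓ U j` with `g i i = 1` and `g i j * g j k = g i k` on `U i ⊓ U j ⊓ U k`. -/
structure LBd (S : Scheme.{0}) where
  /-- index set of the covering -/
  ι : Type
  /-- the open sets of the covering -/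
  U : ι → S.Opens
  cov : ∀ x : S, ∃ i, x ∈ U i
  /-- the transition functions -/
  g : ∀ i j, Fn (U i ⊓ U j)
  g_self : ∀ i, g i i = 1
  g_mul : ∀ i j k, Agree (mulF (g i j) (g j k)) (g i k)

/-- A global section of the line bundle `L`: functions `s i` on the sets `U i` with
`g i j * s j = s i` on `U i ⊓ U j`. -/
structure LBd.Sec {S : Scheme.{0}} (L : LBd S) where
  /-- the local functions -/
  s : ∀ i, Fn (L.U i)
  compat : ∀ i j, Agree (mulF (L.g i j) (s j)) (s i)

/-- The open subset of `U` on which the function `a` does not vanish. -/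
noncomputable def ne0 {S : Scheme.{0}} {U : S.Opens} (a : Fn U) : S.Opens := S.basicOpen (U := U) a

/-- The open set on which the section `t` does not vanish. -/
noncomputable def LBd.Sec.nonvan {S : Scheme.{0}} {L : LBd S} (t : L.Sec) : S.Opens :=
  ⨆ i, ne0 (t.s i)

lemma rs_rs {S : Scheme.{0}} {U V W : S.Opens} (h : V ≤ U) (h' : W ≤ V) (x : Fn U) :
    rs h' (rs h x) = rs (h'.trans h) x := by
  have key : ∀ y : Γ(S, U), (S.presheaf.map (homOfLE h').op).hom
      ((S.presheaf.map (homOfLE h).op).hom y) =
      (S.presheaf.map (homOfLE (h'.trans h)).op).hom y := by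
    intro y
    rw [← CommRingCat.comp_apply, ← S.presheaf.map_comp]
    rfl
  exact key x

lemma pbk_rs {T S : Scheme.{0}} (f : T ⟶ S) {U V : S.Opens} (h : V ≤ U) (x : Fn U) :
    pbk f V (rs h x) = rs (f.preimage_mono h : pre f V ≤ pre f U) (pbk f U x) := by
  have key : ∀ y : Γ(S, U), (f.app V).hom ((S.presheaf.map (homOfLE h).op).hom y) =
      (T.presheaf.map (homOfLE (f.preimage_mono h)).op).hom ((f.app U).hom y) := by
    intro y
    rw [← CommRingCat.comp_apply, ← CommRingCat.comp_apply, f.naturality]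
    rfl
  exact key x

theorem LBd.pow_self {S : Scheme.{0}} (L : LBd S) (n : ℕ) (i : L.ι) : (L.g i i) ^ n = 1 := by
  rw [L.g_self, one_pow]

theorem LBd.pow_mul {S : Scheme.{0}} (L : LBd S) (n : ℕ) (i j k : L.ι) :
    Agree (mulF (L.g i j ^ n) (L.g j k ^ n)) (L.g i k ^ n) := by
  have h := L.g_mul i j k
  unfold Agree mulF at h ⊢
  rw [map_mul] at h
  rw [map_mul, map_pow, map_pow, map_pow, map_pow, map_pow, ← mul_pow, h]

/-- The `n`-th tensor power of a line bundle, `n ≥ 0`. -/
noncomputable def LBd.pow {S : Scheme.{0}} (L : LBd S) (n : ℕ) : LBd S where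
  ι := L.ι
  U := L.U
  cov := L.cov
  g i j := (L.g i j) ^ n
  g_self := L.pow_self n
  g_mul := L.pow_mul n

/-- the transition functions of the pull back -/
noncomputable def LBd.pullG {T S : Scheme.{0}} (L : LBd S) (f : T ⟶ S) (i j : L.ι) :
    Fn (pre f (L.U i) ⊓ pre f (L.U j)) := pbk f (L.U i ⊓ L.U j) (L.g i j)

theorem LBd.pull_mul {T S : Scheme.{0}} (f : T ⟶ S) (L : LBd S) (i j k : L.ι) :
    Agree (mulF (L.pullG f i j) (L.pullG f j k)) (L.pullG f i k) := by
  unfold LBd.pullG
  have h1 := congrArg (pbk f _) (L.g_mul i j k)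
  unfold mulF at h1
  rw [map_mul, map_mul, pbk_rs, pbk_rs, pbk_rs, pbk_rs, pbk_rs] at h1
  unfold Agree mulF
  rw [map_mul]
  exact h1

theorem LBd.pull_self {T S : Scheme.{0}} (f : T ⟶ S) (L : LBd S) (i : L.ι) :
    L.pullG f i i = 1 := by
  unfold LBd.pullG
  rw [L.g_self]
  exact map_one (pbk f (L.U i ⊓ L.U i))

/-- The pull back of a line bundle along a morphism. -/
noncomputable def LBd.pull {T S : Scheme.{0}} (f : T ⟶ S) (L : LBd S) : LBd T where
  ι := L.ι
  U i := pre f (L.U i)
  cov x := L.cov (f x)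
  g i j := L.pullG f i j
  g_self := LBd.pull_self f L
  g_mul := LBd.pull_mul f L

/-- The line bundles `L` and `M` are isomorphic: there are invertible functions `t i j` on
`L.U i ⊓ M.U j` which are compatible with the transition functions. -/
def LBd.Iso {S : Scheme.{0}} (L M : LBd S) : Prop :=
  ∃ t : ∀ (i : L.ι) (j : M.ι), Fn (L.U i ⊓ M.U j), (∀ i j, IsUnit (t i j)) ∧
    ∀ i j i' j', Agree (mulF (t i j) (M.g j j')) (mulF (L.g i i') (t i' j'))

/-- The line bundle `L` on the (quasi-compact) scheme `S` is ample: every point has a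
neighbourhood which is affine and is the non-vanishing set of a section of a positive power
of `L`. -/
def LBd.IsAmple {S : Scheme.{0}} (L : LBd S) : Prop :=
  ∀ x : S, ∃ n : ℕ, 1 ≤ n ∧ ∃ t : (L.pow n).Sec, x ∈ t.nonvan ∧ IsAffineOpen t.nonvan

/-- The line bundles `L` and `M` differ by a torsion element of the Picard group: the line bundles
`L ^ n` and `M ^ n` are isomorphic for some `n ≥ 1`. -/
def LBd.TorsionEq {S : Scheme.{0}} (L M : LBd S) : Prop :=
  ∃ n : ℕ, 1 ≤ n ∧ (L.pow n).Iso (M.pow n)

end Pool.Agent.Q79.QD
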