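import Pool.Agent.H666R3.NG.GenusDefs
import Pool.Agent.Q79.QD.LBDefs

/-!
# Smooth curves, powers of a curve and quasi-diagonals: definitions

`LBd`, `LBd.pow`, `LBd.pull`, `LBd.Sec`, `LBd.IsAmple`, `LBd.TorsionEq` (line bundles given by
cocycles, powers, pull backs, global sections, ample line bundles, line bundles which differ by a
torsion element of the Picard group) are defined in `Pool.Agent.Q79.QD.LBDefs`, `HasGenus` (the
dimension of `H¹(X, 𝒪_X)`, computed by a covering with two affine open sets) in
`Pool.Agent.H666R3.NG.GenusDefs`.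
-/

set_option autoImplicit false

open AlgebraicGeometry CategoryTheory Limits MvPolynomial

namespace Pool.Agent.Q79.QD

open Pool.Agent.H666R3.NG

attribute [local instance] MvPolynomial.gradedAlgebra

/-- The spectrum of the complex numbers. -/
noncomputable abbrev Cpt : Scheme.{0} := Spec (.of ℂ)

/-- The complex scheme `X` is projective: it is isomorphic to a closed subscheme of some complex
projective space `Proj ℂ[x_0, ..., x_n]`. -/
def IsProjective {X : Scheme.{0}} (sX : X ⟶ Cpt) : Prop :=
  ∃ (n : ℕ) (i : X ⟶ Proj (homogeneousSubmodule (Fin (n + 1)) ℂ)), IsClosedImmersion i ∧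
    i ≫ Proj.toSpecZero (homogeneousSubmodule (Fin (n + 1)) ℂ) ≫ Spec.map (CommRingCat.ofHom
      (algebraMap ℂ (homogeneousSubmodule (Fin (n + 1)) ℂ 0))) = sX

/-- A smooth projective integral complex curve of genus `g`. -/
structure IsSmoothCurve {X : Scheme.{0}} (sX : X ⟶ Cpt) (g : ℕ) : Prop where
  integral : IsIntegral X
  projective : IsProjective sX
  smooth : SmoothOfRelativeDimension 1 sX
  genus : HasGenus sX g

/-- The `n`-fold product `E ^ n = E × (E × (⋯))` of the complex scheme `E`, with its structure
morphism to the spectrum of `ℂ`. -/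
noncomputable def pwr {E : Scheme.{0}} (sE : E ⟶ Cpt) : ℕ → Over Cpt
  | 0 => Over.mk (𝟙 Cpt)
  | n + 1 => Over.mk (pullback.fst sE (pwr sE n).hom ≫ sE)

/-- The projections `E ^ n → E`. -/
noncomputable def pr {E : Scheme.{0}} (sE : E ⟶ Cpt) : ∀ n : ℕ, Fin n → ((pwr sE n).left ⟶ E)
  | 0, i => i.elim0
  | n + 1, i => Fin.cases (pullback.fst sE (pwr sE n).hom)
      (fun k => pullback.snd sE (pwr sE n).hom ≫ pr sE n k) i

/-- The subscheme `j : S ⟶ E ^ n` is a quasi-diagonal over `(E, L)`: `S` is an integral scheme of
dimension one (that is, an irreducible reduced curve), `j` is a closed immersion, and for all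
`a`, `b` the line bundles `p_a ^* L | S` and `p_b ^* L | S` differ by a torsion element of the Picard
group of `S` (they have isomorphic `m`-th powers for some `m ≥ 1`). -/
structure IsQuasiDiagonal {E S : Scheme.{0}} (sE : E ⟶ Cpt) (L : LBd E) (n : ℕ)
    (j : S ⟶ (pwr sE n).left) : Prop where
  integral : IsIntegral S
  dim : topologicalKrullDim S = 1
  closed : IsClosedImmersion j
  torsion : ∀ a b : Fin n,
    (L.pull (j ≫ pr sE n a)).TorsionEq (L.pull (j ≫ pr sE n b))

end Pool.Agent.Q79.QD
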