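import Pool.Agent.Helper198.SchP
import Pool.Agent.Helper304.Ses.Defs
import Pool.Agent.Q79.QD.CurveDefs

/-!
The equations of the curves. `V J = Proj (R[x] / J)`, `V.str J`, `V.chart J c` are the projective
scheme of a homogeneous ideal `J`, its structure morphism, and its affine chart `x_c ≠ 0`.
-/

set_option autoImplicit false

open AlgebraicGeometry CategoryTheory Limits MvPolynomial

namespace Pool.Agent.Q79.QD

open Pool.Agent.Helper304.Ses Pool.Agent.H666R3.NG Pool.Agent.Helper198.Sch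

attribute [local instance] MvPolynomial.gradedAlgebra

/-- The plane cubic form `X³ + α X Z² + β Z³ + γ Y² Z + δ Y³`. -/
noncomputable def cubE (α β γ δ : ℂ) : MvPolynomial (Fin 3) ℂ :=
  X 0 ^ 3 + C α * X 0 * X 2 ^ 2 + C β * X 2 ^ 3 + C γ * X 1 ^ 2 * X 2 + C δ * X 1 ^ 3

lemma cubE_hom (α β γ δ : ℂ) : (cubE α β γ δ).IsHomogeneous 3 := by
  unfold cubE
  refine IsHomogeneous.add (IsHomogeneous.add (IsHomogeneous.add (IsHomogeneous.add ?_ ?_) ?_) ?_) ?_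
  · exact (isHomogeneous_X _ _).pow 3
  · have h := (((isHomogeneous_C (Fin 3) α).mul (isHomogeneous_X ℂ (0 : Fin 3))).mul
      ((isHomogeneous_X ℂ (2 : Fin 3)).pow 2))
    exact h
  · exact (isHomogeneous_C (Fin 3) β).mul ((isHomogeneous_X ℂ (2 : Fin 3)).pow 3)
  · exact ((isHomogeneous_C (Fin 3) γ).mul ((isHomogeneous_X ℂ (1 : Fin 3)).pow 2)).mul
      (isHomogeneous_X ℂ (2 : Fin 3))
  · exact (isHomogeneous_C (Fin 3) δ).mul ((isHomogeneous_X ℂ (1 : Fin 3)).pow 3)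

lemma cubE_set (α β γ δ : ℂ) :
    ∀ f ∈ ({cubE α β γ δ} : Set (MvPolynomial (Fin 3) ℂ)), ∃ n, f.IsHomogeneous n := by
  rintro f rfl
  exact ⟨3, cubE_hom α β γ δ⟩

/-- The homogeneous ideal of the plane cubic. -/
noncomputable def JE (α β γ δ : ℂ) : HI (Fin 3) ℂ :=
  HI.ofSet {cubE α β γ δ} (cubE_set α β γ δ)

/-- The form `X₁³ + α X₁ Z² + β Z³ + γ Y² Z + δ Y³` in the variables `X₁, X₂, Y, Z`. -/
noncomputable def cubS (α β γ δ : ℂ) : MvPolynomial (Fin 4) ℂ :=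
  X 0 ^ 3 + C α * X 0 * X 3 ^ 2 + C β * X 3 ^ 3 + C γ * X 2 ^ 2 * X 3 + C δ * X 2 ^ 3

/-- The form `X₂² + X₁ X₂ + X₁² + α Z²` in the variables `X₁, X₂, Y, Z`. -/
noncomputable def quadS (α : ℂ) : MvPolynomial (Fin 4) ℂ :=
  X 1 ^ 2 + X 0 * X 1 + X 0 ^ 2 + C α * X 3 ^ 2

lemma cubS_hom (α β γ δ : ℂ) : (cubS α β γ δ).IsHomogeneous 3 := by
  unfold cubS
  refine IsHomogeneous.add (IsHomogeneous.add (IsHomogeneous.add (IsHomogeneous.add ?_ ?_) ?_) ?_) ?_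
  · exact (isHomogeneous_X _ _).pow 3
  · exact (((isHomogeneous_C (Fin 4) α).mul (isHomogeneous_X ℂ (0 : Fin 4))).mul
      ((isHomogeneous_X ℂ (3 : Fin 4)).pow 2))
  · exact (isHomogeneous_C (Fin 4) β).mul ((isHomogeneous_X ℂ (3 : Fin 4)).pow 3)
  · exact ((isHomogeneous_C (Fin 4) γ).mul ((isHomogeneous_X ℂ (2 : Fin 4)).pow 2)).mul
      (isHomogeneous_X ℂ (3 : Fin 4))
  · exact (isHomogeneous_C (Fin 4) δ).mul ((isHomogeneous_X ℂ (2 : Fin 4)).pow 3)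

lemma quadS_hom (α : ℂ) : (quadS α).IsHomogeneous 2 := by
  unfold quadS
  refine IsHomogeneous.add (IsHomogeneous.add (IsHomogeneous.add ?_ ?_) ?_) ?_
  · exact (isHomogeneous_X _ _).pow 2
  · exact (isHomogeneous_X ℂ (0 : Fin 4)).mul (isHomogeneous_X ℂ (1 : Fin 4))
  · exact (isHomogeneous_X _ _).pow 2
  · exact (isHomogeneous_C (Fin 4) α).mul ((isHomogeneous_X ℂ (3 : Fin 4)).pow 2)

lemma setS_hom (α β γ δ : ℂ) :
    ∀ f ∈ ({cubS α β γ δ, quadS α} : Set (MvPolynomial (Fin 4) ℂ)), ∃ n, f.IsHomogeneous n := by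
  rintro f (rfl | rfl)
  · exact ⟨3, cubS_hom α β γ δ⟩
  · exact ⟨2, quadS_hom α⟩

/-- The homogeneous ideal of the curve `S ⊂ ℙ³`. -/
noncomputable def JS (α β γ δ : ℂ) : HI (Fin 4) ℂ :=
  HI.ofSet {cubS α β γ δ, quadS α} (setS_hom α β γ δ)

end Pool.Agent.Q79.QD
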