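import Pool.Agent.Q79.QD.Tower

/-!
The chart rings are integral domains.
-/

set_option autoImplicit false

open Polynomial Module

namespace Pool.Agent.Q79.QD

section inj

variable {R S : Type*} [CommRing R] [CommRing S]

/-- the map of monogenic extensions -/
noncomputable def arMap (φ : R →+* S) (f : R[X]) : AdjoinRoot f →+* AdjoinRoot (f.map φ) :=
  AdjoinRoot.lift ((AdjoinRoot.of (f.map φ)).comp φ) (AdjoinRoot.root (f.map φ)) (by
    rw [← eval₂_map]
    exact AdjoinRoot.eval₂_root _)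

lemma arMap_mk (φ : R →+* S) (f p : R[X]) :
    arMap φ f (AdjoinRoot.mk f p) = AdjoinRoot.mk (f.map φ) (p.map φ) := by
  unfold arMap
  rw [AdjoinRoot.lift_mk, ← eval₂_map]
  have h := AdjoinRoot.aeval_eq (f := f.map φ) (p.map φ)
  rw [aeval_def] at h
  exact h

lemma arMap_of (φ : R →+* S) (f : R[X]) (r : R) :
    arMap φ f (AdjoinRoot.of f r) = AdjoinRoot.of (f.map φ) (φ r) := by
  unfold arMap
  rw [AdjoinRoot.lift_of]
  rfl

lemma arMap_root (φ : R →+* S) (f : R[X]) :
    arMap φ f (AdjoinRoot.root f) = AdjoinRoot.root (f.map φ) := by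
  unfold arMap
  rw [AdjoinRoot.lift_root]

lemma arMap_injective (φ : R →+* S) (hφ : Function.Injective φ) (f : R[X]) (hf : f.Monic) :
    Function.Injective (arMap φ f) := by
  rw [injective_iff_map_eq_zero]
  intro x hx
  obtain ⟨p, rfl⟩ := AdjoinRoot.mk_surjective x
  rw [arMap_mk, AdjoinRoot.mk_eq_zero, Polynomial.map_dvd_map φ hφ hf] at hx
  exact AdjoinRoot.mk_eq_zero.2 hx

end inj

section norm

variable {F : Type} [Field F] (a b : F)

/-- If `-3 x² - 4 a` is a square in `F[x] / (x³ + a x + b)`, then `-4 a³ - 27 b²` is a square. -/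
lemma disc_sq (g : F[X]) (hg : g = X ^ 3 + C a * X + C b) (w : AdjoinRoot g)
    (hw : w * w = -3 * AdjoinRoot.root g ^ 2 - 4 * algebraMap F (AdjoinRoot g) a) :
    ∃ z : F, z ^ 2 = -4 * a ^ 3 - 27 * b ^ 2 := by
  have hm : g.Monic := by rw [hg]; monicity!
  have hd : g.natDegree = 3 := by rw [hg]; compute_degree!
  let β : Basis (Fin 3) F (AdjoinRoot g) :=
    (AdjoinRoot.powerBasis' hm).basis.reindex (finCongr hd)
  have hβ : ∀ i, β i = AdjoinRoot.root g ^ (i : ℕ) := by
    intro i
    rw [Basis.reindex_apply, PowerBasis.basis_eq_pow]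
    rfl
  have hrel : AdjoinRoot.root g ^ 3 + algebraMap F (AdjoinRoot g) a * AdjoinRoot.root g +
      algebraMap F (AdjoinRoot g) b = 0 := by
    have h : eval₂ (AdjoinRoot.of g) (AdjoinRoot.root g) (X ^ 3 + C a * X + C b : F[X]) = 0 := by
      rw [← hg]
      exact AdjoinRoot.eval₂_root g
    simp only [eval₂_add, eval₂_mul, eval₂_pow, eval₂_X, eval₂_C] at h
    exact h
  let M : Matrix (Fin 3) (Fin 3) F := !![-4 * a, 3 * b, 0; 0, -a, 3 * b; -3, 0, -a]
  have n3 : AdjoinRoot.of g 3 = 3 := map_ofNat (AdjoinRoot.of g) 3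
  have n4 : AdjoinRoot.of g 4 = 4 := map_ofNat (AdjoinRoot.of g) 4
  have nof : algebraMap F (AdjoinRoot g) = AdjoinRoot.of g := rfl
  have hT : LinearMap.mulLeft F (w * w) = Matrix.toLin β β M := by
    apply β.ext
    intro j
    rw [Matrix.toLin_self, LinearMap.mulLeft_apply, hw, hβ]
    rw [nof] at hrel ⊢
    fin_cases j
    · simp [M, Fin.sum_univ_three, hβ, Algebra.smul_def, n3, n4]
      ring
    · simp [M, Fin.sum_univ_three, hβ, Algebra.smul_def, n3, n4]
      linear_combination (-3) * hrel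
    · simp [M, Fin.sum_univ_three, hβ, Algebra.smul_def, n3, n4]
      linear_combination (-3) * AdjoinRoot.root g * hrel
  have h1 : LinearMap.det (LinearMap.mulLeft F (w * w)) = -4 * a ^ 3 - 27 * b ^ 2 := by
    rw [hT, LinearMap.det_toLin, Matrix.det_fin_three]
    simp [M]
    ring
  refine ⟨LinearMap.det (LinearMap.mulLeft F w), ?_⟩
  rw [← h1, LinearMap.mulLeft_mul, LinearMap.det_comp, pow_two]

end norm

section dom

variable {K : Type} [Field K] (A B : K[X])

/-- **The chart rings are domains.** -/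
theorem isDomain_aux (h2 : (2 : K) ≠ 0) (hroot : ∀ p : K[X], p ^ 3 + A * p + B ≠ 0)
    (hD : ∀ z : FractionRing K[X],
      z ^ 2 ≠ algebraMap K[X] (FractionRing K[X]) (-4 * A ^ 3 - 27 * B ^ 2)) :
    IsDomain (RE A B) ∧ IsDomain (RS A B) := by
  let F := FractionRing K[X]
  let φ : K[X] →+* F := algebraMap K[X] F
  have hφ : Function.Injective φ := IsFractionRing.injective K[X] F
  have hirr : Irreducible (fE A B) := by
    rw [(monic_fE A B).irreducible_iff_roots_eq_zero_of_degree_le_three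
      (by rw [natDegree_fE]; norm_num) (by rw [natDegree_fE])]
    rw [Multiset.eq_zero_iff_forall_notMem]
    intro p hp
    rw [mem_roots (monic_fE A B).ne_zero, IsRoot.def] at hp
    apply hroot p
    rw [← hp]
    unfold fE
    simp
  have hirr2 : Irreducible ((fE A B).map φ) :=
    ((monic_fE A B).irreducible_iff_irreducible_map_fraction_map (K := F)).1 hirr
  have : Fact (Irreducible ((fE A B).map φ)) := ⟨hirr2⟩
  let L := AdjoinRoot ((fE A B).map φ)
  let ψ : RE A B →+* L := arMap φ (fE A B)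
  have hψ : Function.Injective ψ := arMap_injective φ hφ _ (monic_fE A B)
  have hE : IsDomain (RE A B) := hψ.isDomain ψ
  refine ⟨hE, ?_⟩
  have hmon : ((fS A B).map ψ).Monic := (monic_fS A B).map ψ
  have hdeg : ((fS A B).map ψ).natDegree = 2 := by
    rw [(monic_fS A B).natDegree_map, natDegree_fS]
  have hirr3 : Irreducible ((fS A B).map ψ) := by
    rw [hmon.irreducible_iff_roots_eq_zero_of_degree_le_three
      (by rw [hdeg]) (by rw [hdeg]; norm_num)]
    rw [Multiset.eq_zero_iff_forall_notMem]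
    intro z hz
    rw [mem_roots hmon.ne_zero, IsRoot.def] at hz
    have e0 : ψ (xE A B) = AdjoinRoot.root ((fE A B).map φ) := arMap_root φ (fE A B)
    have e1 : ψ (algebraMap K[X] (RE A B) A) = algebraMap F L (φ A) := arMap_of φ (fE A B) A
    have e2 : z ^ 2 + AdjoinRoot.root ((fE A B).map φ) * z +
        (AdjoinRoot.root ((fE A B).map φ) ^ 2 + algebraMap F L (φ A)) = 0 := by
      rw [← hz, ← e0, ← e1]
      unfold fS
      simp
    obtain ⟨y, hy⟩ := disc_sq (φ A) (φ B) ((fE A B).map φ) (by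
      unfold fE
      simp) (2 * z + AdjoinRoot.root ((fE A B).map φ)) (by
      linear_combination 4 * e2)
    apply hD y
    rw [hy]
    have n4 : algebraMap K[X] (FractionRing K[X]) 4 = 4 := map_ofNat _ 4
    have n27 : algebraMap K[X] (FractionRing K[X]) 27 = 27 := map_ofNat _ 27
    rw [map_sub, map_mul, map_mul, map_neg, map_pow, map_pow, n4, n27]
  have : Fact (Irreducible ((fS A B).map ψ)) := ⟨hirr3⟩
  exact (arMap_injective ψ hψ (fS A B) (monic_fS A B)).isDomain _

end dom

section const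

variable {K : Type} [Field K] [IsAlgClosed K]

/-- The discriminant is not a square when `A` is a nonzero constant and `B` is not constant. -/
lemma disc_not_sq (h3 : (3 : K) ≠ 0) (h2 : (2 : K) ≠ 0) (α : K) (hα : α ≠ 0) (B : K[X])
    (hB : 0 < B.natDegree) (z : FractionRing K[X]) :
    z ^ 2 ≠ algebraMap K[X] (FractionRing K[X]) (-4 * (C α) ^ 3 - 27 * B ^ 2) := by
  intro h
  have hint : IsIntegral K[X] z := by
    refine ⟨X ^ 2 - C (-4 * (C α) ^ 3 - 27 * B ^ 2), monic_X_pow_sub_C _ two_ne_zero, ?_⟩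
    rw [eval₂_sub, eval₂_pow, eval₂_X, eval₂_C, h, sub_self]
  obtain ⟨P, rfl⟩ := IsIntegrallyClosed.isIntegral_iff.1 hint
  rw [← map_pow] at h
  have h0 := IsFractionRing.injective K[X] (FractionRing K[X]) h
  obtain ⟨s, hs⟩ := IsAlgClosed.exists_pow_nat_eq (-27 : K) two_pos
  have hs0 : s ≠ 0 := by
    rintro rfl
    have h9 : (3 : K) ^ 3 = 0 := by
      rw [zero_pow two_ne_zero] at hs
      have e : (3 : K) ^ 3 = 27 := by norm_num
      rw [e, ← neg_eq_zero]
      exact hs.symm
    exact h3 (pow_eq_zero_iff (by norm_num) |>.1 h9)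
  have hC : (C s : K[X]) ^ 2 = -27 := by
    rw [← C_pow, hs, C_neg]
    exact congrArg _ (map_ofNat C 27)
  have h1 : (P + C s * B) * (P - C s * B) = C (-4 * α ^ 3) := by
    have n4 : (C (4 : K) : K[X]) = 4 := map_ofNat C 4
    have e4 : (C (-4 * α ^ 3) : K[X]) = -4 * (C α) ^ 3 := by
      rw [C_mul, C_neg, C_pow, n4]
    rw [e4]
    linear_combination h0 - hC * B ^ 2
  have hc : (-4 * α ^ 3 : K) ≠ 0 := by
    refine mul_ne_zero (neg_ne_zero.2 ?_) (pow_ne_zero _ hα)
    have : (4 : K) = 2 * 2 := by norm_num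
    rw [this]
    exact mul_ne_zero h2 h2
  have hu : IsUnit ((P + C s * B) * (P - C s * B)) := by
    rw [h1]
    exact isUnit_C.2 (isUnit_iff_ne_zero.2 hc)
  have hu1 := isUnit_of_mul_isUnit_left hu
  have hu2 := isUnit_of_mul_isUnit_right hu
  obtain ⟨c1, -, e1⟩ := Polynomial.isUnit_iff.1 hu1
  obtain ⟨c2, -, e2⟩ := Polynomial.isUnit_iff.1 hu2
  have h4 : C (2 * s) * B = C (c1 - c2) := by
    have n2 : (C (2 : K) : K[X]) = 2 := map_ofNat C 2
    have e3 : (C (2 * s) : K[X]) = 2 * C s := by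
      rw [C_mul, n2]
    rw [e3, C_sub, e1, e2]
    ring
  have h5 := congrArg Polynomial.natDegree h4
  rw [natDegree_C_mul (mul_ne_zero h2 hs0), natDegree_C] at h5
  omega

end const

end Pool.Agent.Q79.QD
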