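import Pool.Agent.Q79.QD.RDefs

/-!
Three points of a Weierstrass curve on a horizontal line have sum zero.
-/

set_option autoImplicit false

open WeierstrassCurve WeierstrassCurve.Affine

namespace Pool.Agent.Q79.QD

variable {α β : ℂ}

lemma WE_eq (x y : ℂ) : (WE α β).Equation x y ↔ y ^ 2 = x ^ 3 + α * x + β := by
  rw [equation_iff]
  simp [WE]

lemma WE_ns (hΔ : 4 * α ^ 3 + 27 * β ^ 2 ≠ 0) {x y : ℂ} (h : y ^ 2 = x ^ 3 + α * x + β) :
    (WE α β).Nonsingular x y := by
  rw [nonsingular_iff', WE_eq]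
  refine ⟨h, ?_⟩
  by_contra hcon
  push Not at hcon
  simp only [WE, zero_mul, mul_zero, add_zero, zero_sub, neg_eq_zero] at hcon
  obtain ⟨h1, h2⟩ := hcon
  have hy : y = 0 := by
    have : (2 : ℂ) ≠ 0 := two_ne_zero
    simpa [this] using h2
  rw [hy] at h
  apply hΔ
  have e1 : α = -(3 * x ^ 2) := by linear_combination h1
  have e2 : β = 2 * x ^ 3 := by
    have : β = -x ^ 3 - α * x := by linear_combination -h
    rw [this, e1]
    ring
  rw [e1, e2]
  ring

open Classical in
theorem sum_line (hΔ : 4 * α ^ 3 + 27 * β ^ 2 ≠ 0) {x1 x2 x3 y : ℂ}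
    (h : y ^ 2 = x1 ^ 3 + α * x1 + β) (hq : x2 ^ 2 + x1 * x2 + x1 ^ 2 + α = 0)
    (hs : x3 = -x1 - x2) (n1 : (WE α β).Nonsingular x1 y) (n2 : (WE α β).Nonsingular x2 y)
    (n3 : (WE α β).Nonsingular x3 y) :
    (Point.some x1 y n1 : (WE α β).Point) + Point.some x2 y n2 + Point.some x3 y n3 = 0 := by
  have hneg : ∀ x y, (WE α β).negY x y = -y := by
    intro x y
    simp [negY, WE]
  have hxy : ¬(x1 = x2 ∧ y = (WE α β).negY x2 y) := by
    rintro ⟨h1, h2⟩
    rw [hneg] at h2
    have hy : y = 0 := by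
      have h3 : 2 * y = 0 := by linear_combination h2
      simpa using h3
    rw [hy] at h
    rw [← h1] at hq
    apply hΔ
    have e1 : α = -(3 * x1 ^ 2) := by linear_combination hq
    have e2 : β = 2 * x1 ^ 3 := by
      have : β = -x1 ^ 3 - α * x1 := by linear_combination -h
      rw [this, e1]
      ring
    rw [e1, e2]
    ring
  have hslope : (WE α β).slope x1 x2 y y = 0 := by
    by_cases h1 : x1 = x2
    · have h2 : y ≠ (WE α β).negY x2 y := fun h2 => hxy ⟨h1, h2⟩
      rw [slope_of_Y_ne h1 h2]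
      have h3 : 3 * x1 ^ 2 + 2 * (WE α β).a₂ * x1 + (WE α β).a₄ - (WE α β).a₁ * y = 0 := by
        rw [← h1] at hq
        simp only [WE]
        linear_combination hq
      rw [h3, zero_div]
    · rw [slope_of_X_ne h1, sub_self, zero_div]
  have key : (Point.some x1 y n1 : (WE α β).Point) + Point.some x2 y n2 = -Point.some x3 y n3 := by
    rw [Point.add_some hxy, Point.neg_some]
    rw [Point.some.injEq]
    rw [hslope]
    constructor
    · simp only [addX, WE]
      rw [hs]
      ring
    · simp only [addY, negAddY, hneg]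
      ring
  rw [key, neg_add_cancel]

end Pool.Agent.Q79.QD
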