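import Pool.Agent.Q79.QD.Tower
import Pool.Agent.Helper198.SchE

/-!
Universal properties of the chart rings, and the charts of the curves in projective space.
-/

set_option autoImplicit false

open Polynomial Module

namespace Pool.Agent.Q79.QD

section lift

variable {K : Type} [Field K] {A B : K[X]} {T : Type*} [CommRing T] [Algebra K T]

/-- homomorphisms out of `RE` -/
noncomputable def liftE (t x : T) (h : x ^ 3 + aeval t A * x + aeval t B = 0) : RE A B →ₐ[K] T :=
  AdjoinRoot.liftAlgHom (fE A B) (aeval t) x (by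
    unfold fE
    simp only [eval₂_add, eval₂_mul, eval₂_pow, eval₂_X, eval₂_C]
    exact h)

lemma liftE_alg (t x : T) (h : x ^ 3 + aeval t A * x + aeval t B = 0) (p : K[X]) :
    liftE t x h (algebraMap K[X] (RE A B) p) = aeval t p :=
  AdjoinRoot.liftAlgHom_of (fE A B) (aeval t : K[X] →ₐ[K] T) x _ p

lemma liftE_x (t x : T) (h : x ^ 3 + aeval t A * x + aeval t B = 0) :
    liftE t x h (xE A B) = x :=
  AdjoinRoot.liftAlgHom_root (fE A B) (aeval t : K[X] →ₐ[K] T) x _

lemma REhom_ext {f g : RE A B →ₐ[K] T} (h1 : f (algebraMap K[X] _ X) = g (algebraMap K[X] _ X))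
    (h2 : f (xE A B) = g (xE A B)) : f = g := by
  have h3 : f.comp (IsScalarTower.toAlgHom K K[X] (RE A B)) =
      g.comp (IsScalarTower.toAlgHom K K[X] (RE A B)) := by
    apply Polynomial.algHom_ext
    exact h1
  have h4 : f.toRingHom = g.toRingHom := by
    apply AdjoinRoot.ringHom_ext
    · apply RingHom.ext
      intro p
      exact congrArg (fun φ => φ p) h3
    · exact h2
  apply AlgHom.ext
  intro z
  exact congrArg (fun φ => φ z) h4

/-- homomorphisms out of `RS` -/
noncomputable def liftS (t y1 y2 : T) (h : y1 ^ 3 + aeval t A * y1 + aeval t B = 0)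
    (h' : y2 ^ 2 + y1 * y2 + y1 ^ 2 + aeval t A = 0) : RS A B →ₐ[K] T :=
  AdjoinRoot.liftAlgHom (fS A B) (liftE t y1 h) y2 (by
    unfold fS
    simp only [eval₂_add, eval₂_mul, eval₂_pow, eval₂_X, eval₂_C]
    have e1 : (liftE t y1 h : RE A B →ₐ[K] T) (xE A B) = y1 := liftE_x t y1 h
    have e2 : (liftE t y1 h : RE A B →ₐ[K] T) (xE A B ^ 2 + algebraMap K[X] (RE A B) A) =
        y1 ^ 2 + aeval t A := by
      rw [map_add, map_pow, e1, liftE_alg]
    change y2 ^ 2 + (liftE t y1 h : RE A B →ₐ[K] T) (xE A B) * y2 +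
      (liftE t y1 h : RE A B →ₐ[K] T) (xE A B ^ 2 + algebraMap K[X] (RE A B) A) = 0
    rw [e1, e2, ← add_assoc]
    exact h')

lemma liftS_of (t y1 y2 : T) (h : y1 ^ 3 + aeval t A * y1 + aeval t B = 0)
    (h' : y2 ^ 2 + y1 * y2 + y1 ^ 2 + aeval t A = 0) (z : RE A B) :
    liftS t y1 y2 h h' (algebraMap (RE A B) (RS A B) z) = liftE t y1 h z :=
  AdjoinRoot.liftAlgHom_of (fS A B) (liftE t y1 h : RE A B →ₐ[K] T) y2 _ z

lemma liftS_alg (t y1 y2 : T) (h : y1 ^ 3 + aeval t A * y1 + aeval t B = 0)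
    (h' : y2 ^ 2 + y1 * y2 + y1 ^ 2 + aeval t A = 0) (p : K[X]) :
    liftS t y1 y2 h h' (algebraMap K[X] (RS A B) p) = aeval t p := by
  rw [IsScalarTower.algebraMap_apply K[X] (RE A B) (RS A B), liftS_of, liftE_alg]

lemma liftS_x1 (t y1 y2 : T) (h : y1 ^ 3 + aeval t A * y1 + aeval t B = 0)
    (h' : y2 ^ 2 + y1 * y2 + y1 ^ 2 + aeval t A = 0) :
    liftS t y1 y2 h h' (x1 A B) = y1 :=
  (liftS_of t y1 y2 h h' (xE A B)).trans (liftE_x t y1 h)

lemma liftS_x2 (t y1 y2 : T) (h : y1 ^ 3 + aeval t A * y1 + aeval t B = 0)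
    (h' : y2 ^ 2 + y1 * y2 + y1 ^ 2 + aeval t A = 0) :
    liftS t y1 y2 h h' (x2 A B) = y2 :=
  AdjoinRoot.liftAlgHom_root (fS A B) (liftE t y1 h : RE A B →ₐ[K] T) y2 _

lemma RShom_ext {f g : RS A B →ₐ[K] T} (h1 : f (algebraMap K[X] _ X) = g (algebraMap K[X] _ X))
    (h2 : f (x1 A B) = g (x1 A B)) (h3 : f (x2 A B) = g (x2 A B)) : f = g := by
  have h4 : f.comp (IsScalarTower.toAlgHom K (RE A B) (RS A B)) =
      g.comp (IsScalarTower.toAlgHom K (RE A B) (RS A B)) := by
    apply REhom_ext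
    · have e : (IsScalarTower.toAlgHom K (RE A B) (RS A B)) (algebraMap K[X] _ X) =
        algebraMap K[X] (RS A B) X := rfl
      rw [AlgHom.comp_apply, AlgHom.comp_apply, e, h1]
    · exact h2
  have h5 : f.toRingHom = g.toRingHom := by
    apply AdjoinRoot.ringHom_ext
    · apply RingHom.ext
      intro p
      exact congrArg (fun φ => φ p) h4
    · exact h3
  apply AlgHom.ext
  intro z
  exact congrArg (fun φ => φ z) h5

end lift

section charts

open Pool.Agent.Helper198.Sch

attribute [local instance] MvPolynomial.gradedAlgebra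

variable {K : Type} [Field K] {A B : K[X]}

section E

variable (P : MvPolynomial (Fin 3) K) (hP : ∀ f ∈ ({P} : Set (MvPolynomial (Fin 3) K)),
  ∃ n, f.IsHomogeneous n) (c c' : Fin 3)

/-- the equation of the curve in a chart -/
def EqE (A B : K[X]) : Prop :=
  ∀ (T : Type) [CommRing T] [Algebra K T] (u : Fin 3 → T), u c = 1 →
    MvPolynomial.aeval u P = u 0 ^ 3 + aeval (u c') A * u 0 + aeval (u c') B

variable {P c c'} (hE : EqE P c c' A B) (h0 : 0 ≠ c) (h0' : 0 ≠ c') (hc : c ≠ c')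

/-- the coordinates on the chart -/
noncomputable def uE (A B : K[X]) (c c' : Fin 3) : Fin 3 → RE A B := fun a =>
  if a = c then 1 else if a = c' then algebraMap K[X] _ X else xE A B

include hE h0 h0' hc in
lemma uE_rel : ∀ f ∈ (HI.ofSet {P} hP).toIdeal, MvPolynomial.aeval (uE A B c c') f = 0 := by
  apply aeval_ofSet
  rintro f rfl
  have h1 : uE A B c c' 0 = xE A B := by simp [uE, h0, h0']
  have h2 : uE A B c c' c' = algebraMap K[X] _ X := by simp [uE, hc.symm]
  have h3 : uE A B c c' c = 1 := by simp [uE]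
  rw [hE _ _ h3, h1, h2, aeval_algebraMap_apply, aeval_algebraMap_apply, aeval_X_left,
    AlgHom.id_apply, AlgHom.id_apply]
  exact xE_rel A B

/-- the chart of the curve `E` -/
noncomputable def eqvE : Ch (HI.ofSet {P} hP) c ≃ₐ[K] RE A B :=
  AlgEquiv.ofAlgHom
    (chLift _ c (uE A B c c') (by simp [uE]) (uE_rel hP hE h0 h0' hc))
    (liftE (frac _ c c') (frac _ c 0) (by
      rw [← hE _ (frac (HI.ofSet {P} hP) c) (frac_self _ _)]
      exact aeval_frac_eq_zero _ c P (mem_ofSet rfl)))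
    (by
      apply REhom_ext
      · rw [AlgHom.comp_apply, liftE_alg, aeval_X, chLift_frac]
        simp [uE, hc.symm]
      · rw [AlgHom.comp_apply, liftE_x, chLift_frac]
        simp [uE, h0, h0'])
    (by
      apply ch_algHom_ext
      intro a
      rw [AlgHom.comp_apply, chLift_frac, AlgHom.id_apply]
      unfold uE
      split_ifs with h1 h2
      · rw [map_one, h1, frac_self]
      · rw [liftE_alg, aeval_X, h2]
      · rw [liftE_x]
        congr 1
        omega)

lemma eqvE_frac (a : Fin 3) : eqvE hP hE h0 h0' hc (frac _ c a) = uE A B c c' a :=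
  chLift_frac _ c (uE A B c c') (by simp [uE]) (uE_rel hP hE h0 h0' hc) a

end E

section S

variable (P Q : MvPolynomial (Fin 4) K) (hPQ : ∀ f ∈ ({P, Q} : Set (MvPolynomial (Fin 4) K)),
  ∃ n, f.IsHomogeneous n) (c c' : Fin 4)

/-- the equations of the curve in a chart -/
def EqS (A B : K[X]) : Prop :=
  ∀ (T : Type) [CommRing T] [Algebra K T] (u : Fin 4 → T), u c = 1 →
    MvPolynomial.aeval u P = u 0 ^ 3 + aeval (u c') A * u 0 + aeval (u c') B ∧
    MvPolynomial.aeval u Q = u 1 ^ 2 + u 0 * u 1 + u 0 ^ 2 + aeval (u c') A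

variable {P Q c c'} (hE : EqS P Q c c' A B) (h0 : 0 ≠ c) (h0' : 0 ≠ c') (h1 : 1 ≠ c)
  (h1' : 1 ≠ c') (hc : c ≠ c')

/-- the coordinates on the chart -/
noncomputable def uS (A B : K[X]) (c c' : Fin 4) : Fin 4 → RS A B := fun a =>
  if a = c then 1 else if a = c' then algebraMap K[X] _ X else if a = 0 then x1 A B else x2 A B

include hE h0 h0' h1 h1' hc in
lemma uS_rel : ∀ f ∈ (HI.ofSet {P, Q} hPQ).toIdeal, MvPolynomial.aeval (uS A B c c') f = 0 := by
  apply aeval_ofSet
  have e1 : uS A B c c' 0 = x1 A B := by simp [uS, h0, h0']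
  have e4 : uS A B c c' 1 = x2 A B := by simp [uS, h1, h1']
  have e2 : uS A B c c' c' = algebraMap K[X] _ X := by simp [uS, hc.symm]
  have e3 : uS A B c c' c = 1 := by simp [uS]
  have h2 := hE _ _ e3
  rw [e1, e2, e4, aeval_algebraMap_apply, aeval_algebraMap_apply, aeval_X_left,
    AlgHom.id_apply, AlgHom.id_apply] at h2
  rintro f (rfl | rfl)
  · rw [h2.1]
    exact x_rel1 A B
  · rw [h2.2]
    exact x_rel2 A B

/-- the chart of the curve `S` -/
noncomputable def eqvS : Ch (HI.ofSet {P, Q} hPQ) c ≃ₐ[K] RS A B :=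
  AlgEquiv.ofAlgHom
    (chLift _ c (uS A B c c') (by simp [uS]) (uS_rel hPQ hE h0 h0' h1 h1' hc))
    (liftS (frac _ c c') (frac _ c 0) (frac _ c 1) (by
      rw [← (hE _ (frac (HI.ofSet {P, Q} hPQ) c) (frac_self _ _)).1]
      exact aeval_frac_eq_zero _ c P (mem_ofSet (Or.inl rfl))) (by
      rw [← (hE _ (frac (HI.ofSet {P, Q} hPQ) c) (frac_self _ _)).2]
      exact aeval_frac_eq_zero _ c Q (mem_ofSet (Or.inr rfl))))
    (by
      apply RShom_ext
      · rw [AlgHom.comp_apply, liftS_alg, aeval_X, chLift_frac]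
        simp [uS, hc.symm]
      · rw [AlgHom.comp_apply, liftS_x1, chLift_frac]
        simp [uS, h0, h0']
      · rw [AlgHom.comp_apply, liftS_x2, chLift_frac]
        simp [uS, h1, h1'])
    (by
      apply ch_algHom_ext
      intro a
      rw [AlgHom.comp_apply, chLift_frac, AlgHom.id_apply]
      unfold uS
      split_ifs with g1 g2 g3
      · rw [map_one, g1, frac_self]
      · rw [liftS_alg, aeval_X, g2]
      · rw [liftS_x1, g3]
      · rw [liftS_x2]
        congr 1
        omega)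

lemma eqvS_frac (a : Fin 4) : eqvS hPQ hE h0 h0' h1 h1' hc (frac _ c a) = uS A B c c' a :=
  chLift_frac _ c (uS A B c c') (by simp [uS]) (uS_rel hPQ hE h0 h0' h1 h1' hc) a

end S

end charts

end Pool.Agent.Q79.QD
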