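import Pool.Agent.Q79.QD.Restr

/-!
Restricted quasi-diagonals in odd powers of an elliptic curve.
-/

set_option autoImplicit false

open AlgebraicGeometry CategoryTheory Limits MvPolynomial

namespace Pool.Agent.Q79.QD

open Pool.Agent.Helper304.Ses Pool.Agent.H666R3.NG Pool.Agent.Helper198.Sch

attribute [local instance] MvPolynomial.gradedAlgebra

/-- the sequence of the components -/
def seqF : ℕ → Fin 4
  | 0 => 0
  | 1 => 1
  | 2 => 2
  | m + 3 => if Even m then 0 else 3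

lemma sum_seqF {M : Type*} [AddCommGroup M] (q : Fin 4 → M) (h : q 0 + q 1 + q 2 = 0)
    (h' : q 0 + q 3 = 0) (k : ℕ) : ∑ i : Fin (3 + 2 * k), q (seqF i) = 0 := by
  rw [Fin.sum_univ_eq_sum_range (fun m => q (seqF m)) (3 + 2 * k)]
  induction k with
  | zero =>
    simp only [mul_zero, add_zero]
    rw [Finset.sum_range_succ, Finset.sum_range_succ, Finset.sum_range_succ, Finset.sum_range_zero,
      zero_add]
    exact h
  | succ k ih =>
    have e : 3 + 2 * (k + 1) = 3 + 2 * k + 1 + 1 := by ring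
    rw [e, Finset.sum_range_succ, Finset.sum_range_succ, ih, zero_add]
    have e1 : seqF (3 + 2 * k) = 0 := by
      rw [add_comm]
      change (if Even (2 * k) then (0 : Fin 4) else 3) = 0
      rw [if_pos (even_two_mul k)]
    have e2 : seqF (3 + 2 * k + 1) = 3 := by
      have e3 : 3 + 2 * k + 1 = (2 * k + 1) + 3 := by ring
      rw [e3]
      change (if Even (2 * k + 1) then (0 : Fin 4) else 3) = 3
      rw [if_neg]
      rw [Nat.not_even_iff_odd]
      exact odd_two_mul_add_one k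
    rw [e1, e2, h']

section

variable {α β : ℂ}

lemma neg_one_sq' : (-1 : ℂ) * (-1) = 1 := by norm_num

theorem restricted_aux (hΔ : 4 * α ^ 3 + 27 * β ^ 2 ≠ 0)
    {p1 p2 p3 p4 : V (JS α β (-1) 0) ⟶ V (JE α β (-1) 0)}
    (h1 : (linSE (one_mul 1) (rel1 (α := α) (β := β) (γ := -1) (δ := 0))).IsMap p1)
    (h2 : (linSE (one_mul 1) (rel2 (α := α) (β := β) (γ := -1) (δ := 0))).IsMap p2)
    (h3 : (linSE (one_mul 1) (rel3 (α := α) (β := β) (γ := -1) (δ := 0))).IsMap p3)
    (h4 : (linSE neg_one_sq' (rel4 (α := α) (β := β) (γ := -1))).IsMap p4)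
    (s : SpecC ⟶ V (JS α β (-1) 0)) (hs : s ≫ V.str _ = 𝟙 SpecC) :
    ∃ q1 q2 q3 q4 : (WE α β).Point,
      HasCoords (JE α β (-1) 0) (s ≫ p1) (coords q1) ∧
      HasCoords (JE α β (-1) 0) (s ≫ p2) (coords q2) ∧
      HasCoords (JE α β (-1) 0) (s ≫ p3) (coords q3) ∧
      HasCoords (JE α β (-1) 0) (s ≫ p4) (coords q4) ∧
      (open Classical in q1 + q2 + q3 = 0 ∧ q1 + q4 = 0) := by
  obtain ⟨i, φ, hφ⟩ := exists_chart he_S s hs
  have rc : φ (frac _ (eS i) 0) ^ 3 + α * φ (frac _ (eS i) 0) * φ (frac _ (eS i) 3) ^ 2 +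
      β * φ (frac _ (eS i) 3) ^ 3 - φ (frac _ (eS i) 2) ^ 2 * φ (frac _ (eS i) 3) = 0 := by
    have h := congrArg φ (aeval_frac_eq_zero (JS α β (-1) 0) (eS i) (cubS α β (-1) 0)
      (mem_ofSet (Or.inl rfl)))
    unfold cubS at h
    simp only [map_add, map_mul, map_pow, aeval_X, aeval_C, AlgHom.commutes, map_zero,
      zero_mul, add_zero] at h
    simp only [Algebra.algebraMap_self, RingHom.id_apply] at h
    linear_combination h
  have rq : φ (frac _ (eS i) 1) ^ 2 + φ (frac _ (eS i) 0) * φ (frac _ (eS i) 1) +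
      φ (frac _ (eS i) 0) ^ 2 + α * φ (frac _ (eS i) 3) ^ 2 = 0 := by
    have h := congrArg φ (aeval_frac_eq_zero (JS α β (-1) 0) (eS i) (quadS α)
      (mem_ofSet (Or.inr rfl)))
    unfold quadS at h
    simp only [map_add, map_mul, map_pow, aeval_X, aeval_C, AlgHom.commutes, map_zero] at h
    simp only [Algebra.algebraMap_self, RingHom.id_apply] at h
    linear_combination h
  by_cases hz : φ (frac _ (eS i) 3) = 0
  · have hx0 : φ (frac _ (eS i) 0) = 0 := by
      rw [hz] at rc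
      have : φ (frac _ (eS i) 0) ^ 3 = 0 := by linear_combination rc
      exact pow_eq_zero_iff (three_ne_zero) |>.1 this
    have hx1 : φ (frac _ (eS i) 1) = 0 := by
      rw [hz, hx0] at rq
      have : φ (frac _ (eS i) 1) ^ 2 = 0 := by linear_combination rq
      exact pow_eq_zero_iff (two_ne_zero) |>.1 this
    have hi : φ (frac _ (eS i) 2) = 1 := by
      have h := congrArg φ (frac_self (JS α β (-1) 0) (eS i))
      rw [map_one] at h
      fin_cases i
      · exact absurd (hz.symm.trans h) zero_ne_one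
      · exact h
    refine ⟨0, 0, 0, 0, ?_, ?_, ?_, ?_, ?_⟩
    · refine hasCoords_of _ _ h1 i φ s hφ 1 one_ne_zero _ ?_
      intro c
      change (![0, 1, 0] : Fin 3 → ℂ) c = _
      fin_cases c <;> simp [mat, Fin.sum_univ_four, hz, hx0, hx1, hi]
    · refine hasCoords_of _ _ h2 i φ s hφ 1 one_ne_zero _ ?_
      intro c
      change (![0, 1, 0] : Fin 3 → ℂ) c = _
      fin_cases c <;> simp [mat, Fin.sum_univ_four, hz, hx0, hx1, hi]
    · refine hasCoords_of _ _ h3 i φ s hφ 1 one_ne_zero _ ?_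
      intro c
      change (![0, 1, 0] : Fin 3 → ℂ) c = _
      fin_cases c <;> simp [mat, Fin.sum_univ_four, hz, hx0, hx1, hi]
    · refine hasCoords_of _ _ h4 i φ s hφ (-1) (by norm_num) _ ?_
      intro c
      change (![0, 1, 0] : Fin 3 → ℂ) c = _
      fin_cases c <;> simp [mat, Fin.sum_univ_four, hz, hx0, hx1, hi]
    · simp
  · generalize hX1 : φ (frac _ (eS i) 0) = X1 at rc rq
    generalize hX2 : φ (frac _ (eS i) 1) = X2 at rc rq
    generalize hY : φ (frac _ (eS i) 2) = Y at rc rq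
    generalize hZ : φ (frac _ (eS i) 3) = Z at rc rq hz
    have e1 : (Y / Z) ^ 2 = (X1 / Z) ^ 3 + α * (X1 / Z) + β := by
      field_simp
      linear_combination -rc
    have eq : (X2 / Z) ^ 2 + (X1 / Z) * (X2 / Z) + (X1 / Z) ^ 2 + α = 0 := by
      field_simp
      linear_combination rq
    have e2 : (Y / Z) ^ 2 = (X2 / Z) ^ 3 + α * (X2 / Z) + β := by
      linear_combination e1 + (X1 / Z - X2 / Z) * eq
    have e3 : (Y / Z) ^ 2 = (-(X1 / Z) - X2 / Z) ^ 3 + α * (-(X1 / Z) - X2 / Z) + β := by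
      linear_combination e1 + (2 * (X1 / Z) + X2 / Z) * eq
    have e4 : (-(Y / Z)) ^ 2 = (X1 / Z) ^ 3 + α * (X1 / Z) + β := by
      linear_combination e1
    refine ⟨.some _ _ (WE_ns hΔ e1), .some _ _ (WE_ns hΔ e2), .some _ _ (WE_ns hΔ e3),
      .some _ _ (WE_ns hΔ e4), ?_, ?_, ?_, ?_, ?_, ?_⟩
    · refine hasCoords_of _ _ h1 i φ s hφ Z⁻¹ (inv_ne_zero hz) _ ?_
      intro c
      change (![X1 / Z, Y / Z, 1] : Fin 3 → ℂ) c = _
      fin_cases c <;> simp [mat, Fin.sum_univ_four, hX1, hX2, hY, hZ, hz] <;> field_simp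
    · refine hasCoords_of _ _ h2 i φ s hφ Z⁻¹ (inv_ne_zero hz) _ ?_
      intro c
      change (![X2 / Z, Y / Z, 1] : Fin 3 → ℂ) c = _
      fin_cases c <;> simp [mat, Fin.sum_univ_four, hX1, hX2, hY, hZ, hz] <;> field_simp
    · refine hasCoords_of _ _ h3 i φ s hφ Z⁻¹ (inv_ne_zero hz) _ ?_
      intro c
      change (![-(X1 / Z) - X2 / Z, Y / Z, 1] : Fin 3 → ℂ) c = _
      fin_cases c
      · simp [mat, Fin.sum_univ_four, hX1, hX2, hY, hZ, hz]
        field_simp
        ring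
      · simp [mat, Fin.sum_univ_four, hX1, hX2, hY, hZ, hz]
        field_simp
      · simp [mat, Fin.sum_univ_four, hX1, hX2, hY, hZ, hz]
    · refine hasCoords_of _ _ h4 i φ s hφ Z⁻¹ (inv_ne_zero hz) _ ?_
      intro c
      change (![X1 / Z, -(Y / Z), 1] : Fin 3 → ℂ) c = _
      fin_cases c <;> simp [mat, Fin.sum_univ_four, hX1, hX2, hY, hZ, hz] <;> field_simp
    · exact sum_line hΔ e1 eq rfl _ _ _
    · have hn : (WeierstrassCurve.Affine.Point.some _ _ (WE_ns hΔ e4) : (WE α β).Point) =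
          -WeierstrassCurve.Affine.Point.some _ _ (WE_ns hΔ e1) := by
        rw [WeierstrassCurve.Affine.Point.neg_some, WeierstrassCurve.Affine.Point.some.injEq]
        refine ⟨rfl, ?_⟩
        simp [WeierstrassCurve.Affine.negY, WE]
      rw [hn, add_neg_cancel]

/-- **Restricted quasi-diagonals in odd powers.** -/
theorem exists_restricted (hα : α ≠ 0) (hΔ : 4 * α ^ 3 + 27 * β ^ 2 ≠ 0) (k : ℕ) :
    ∃ j : V (JS α β (-1) 0) ⟶ (pwr (V.str (JE α β (-1) 0)) (3 + 2 * k)).left,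
      j ≫ (pwr (V.str (JE α β (-1) 0)) (3 + 2 * k)).hom = V.str (JS α β (-1) 0) ∧
      IsQuasiDiagonal (V.str (JE α β (-1) 0)) (O1' _ eE he_E) (3 + 2 * k) j ∧
      IsRestricted (WE α β) (V.str (JE α β (-1) 0)) (oW α β) (aW α β) (3 + 2 * k) j := by
  have hg : Pool.Agent.Q79.QD.Good α β (-1) 0 := good_one hα
  obtain ⟨p1, a1, b1⟩ := (linSE (one_mul 1) (rel1 (α := α) (β := β) (γ := -1) (δ := 0))).exists_map
    he_S
  obtain ⟨p2, a2, b2⟩ := (linSE (one_mul 1) (rel2 (α := α) (β := β) (γ := -1) (δ := 0))).exists_map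
    he_S
  obtain ⟨p3, a3, b3⟩ := (linSE (one_mul 1) (rel3 (α := α) (β := β) (γ := -1) (δ := 0))).exists_map
    he_S
  obtain ⟨p4, a4, b4⟩ := (linSE neg_one_sq' (rel4 (α := α) (β := β) (γ := -1))).exists_map he_S
  have h1 : (linSE (one_mul 1) (rel1 (α := α) (β := β) (γ := -1) (δ := 0))).IsMap p1 := ⟨a1, b1⟩
  have h2 : (linSE (one_mul 1) (rel2 (α := α) (β := β) (γ := -1) (δ := 0))).IsMap p2 := ⟨a2, b2⟩
  have h3 : (linSE (one_mul 1) (rel3 (α := α) (β := β) (γ := -1) (δ := 0))).IsMap p3 := ⟨a3, b3⟩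
  have h4 : (linSE neg_one_sq' (rel4 (α := α) (β := β) (γ := -1))).IsMap p4 := ⟨a4, b4⟩
  have hmap : ∀ k : Fin 4, ∃ L : LinData (JS α β (-1) 0) (JE α β (-1) 0) eS eE,
      L.IsMap ((![p1, p2, p3, p4] : Fin 4 → _) k) := by
    intro k
    fin_cases k
    · exact ⟨_, h1⟩
    · exact ⟨_, h2⟩
    · exact ⟨_, h3⟩
    · exact ⟨_, h4⟩
  have hf : ∀ i : Fin (3 + 2 * k), (![p1, p2, p3, p4] : Fin 4 → _) (seqF i) ≫ V.str (JE α β (-1) 0) =
      V.str (JS α β (-1) 0) := by
    intro i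
    obtain ⟨L, hL⟩ := hmap (seqF i)
    exact hL.str
  have hPE := V_proper (JE α β (-1) 0)
  have hPS := V_proper (JS α β (-1) 0)
  have hpr := tup_pr (V.str (JE α β (-1) 0)) (V.str (JS α β (-1) 0)) (3 + 2 * k)
    (fun i => (![p1, p2, p3, p4] : Fin 4 → _) (seqF i)) hf
  have hhom := (tup (V.str (JE α β (-1) 0)) (V.str (JS α β (-1) 0)) (3 + 2 * k)
    (fun i => (![p1, p2, p3, p4] : Fin 4 → _) (seqF i)) hf).2
  refine ⟨(tup (V.str (JE α β (-1) 0)) (V.str (JS α β (-1) 0)) (3 + 2 * k)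
    (fun i => (![p1, p2, p3, p4] : Fin 4 → _) (seqF i)) hf).1, hhom,
    ⟨hg.integralS, hg.dimS, ?_, ?_⟩, ?_⟩
  · apply tup_closed
    intro T g h hgh
    refine joint_mono (K := Fin 2) he_S ![linSE (one_mul 1) rel1, linSE (one_mul 1) rel2]
      ![p1, p2] ?_ 0 ?_ T g h ?_
    · intro k
      fin_cases k
      · exact h1
      · exact h2
    · intro i R _ φ ψ hk
      exact hgen12 i R φ ψ (hk 0) (hk 1)
    · intro m
      fin_cases m
      · exact hgh ⟨0, by omega⟩
      · exact hgh ⟨1, by omega⟩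
  · intro a b
    rw [hpr a, hpr b]
    obtain ⟨La, ha⟩ := hmap (seqF a)
    obtain ⟨Lb, hb⟩ := hmap (seqF b)
    exact torsion_pull ha hb he_S he_E
  · refine ⟨0, fun s hs => ?_⟩
    rw [hhom] at hs
    obtain ⟨q1, q2, q3, q4, g1, g2, g3, g4, gs, gs'⟩ := restricted_aux hΔ h1 h2 h3 h4 s hs
    refine ⟨fun i => (![q1, q2, q3, q4] : Fin 4 → _) (seqF i), ?_, ?_⟩
    · intro i
      rw [hpr i]
      change IsPt (WE α β) (oW α β) (aW α β) (s ≫ (![p1, p2, p3, p4] : Fin 4 → _) (seqF i))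
        ((![q1, q2, q3, q4] : Fin 4 → (WE α β).Point) (seqF i))
      apply isPt_of_hasCoords
      · rw [Category.assoc, hf i]
        exact hs
      · generalize seqF i = m
        fin_cases m
        · exact g1
        · exact g2
        · exact g3
        · exact g4
    · exact sum_seqF (![q1, q2, q3, q4] : Fin 4 → (WE α β).Point) gs gs' k

end

end Pool.Agent.Q79.QD
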