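import Pool.Agent.Helper304.Ses.Mg1
import Pool.Agent.Helper304.Ses.Md7b
import Pool.Agent.Q79.QD.Defs

/-!
Morphisms of projective schemes given by linear forms.
-/

set_option autoImplicit false

open AlgebraicGeometry CategoryTheory Limits MvPolynomial

namespace Pool.Agent.Q79.QD

open Pool.Agent.Helper304.Ses Pool.Agent.H666R3.NG Pool.Agent.Helper198.Sch

attribute [local instance] MvPolynomial.gradedAlgebra

section general

variable {σ τ I : Type} [Fintype σ] [DecidableEq σ]

/-- data of a morphism given by linear forms -/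
structure LinData (J : HI σ ℂ) (J' : HI τ ℂ) (e : I → σ) (e' : I → τ) where
  /-- the chart maps -/
  χ : ∀ i, Ch J' (e' i) →ₐ[ℂ] Ch J (e i)
  /-- the matrix -/
  l : τ → σ → ℂ
  /-- the scaling factors -/
  u : I → ℂ
  hu : ∀ i, u i * u i = 1
  hl : ∀ j b, l (e' j) b = if b = e j then u j else 0
  hχ : ∀ i a, χ i (frac J' (e' i) a) =
    algebraMap ℂ _ (u i) * ∑ b, algebraMap ℂ _ (l a b) * frac J (e i) b

variable {J : HI σ ℂ} {J' : HI τ ℂ} {e : I → σ} {e' : I → τ}

lemma LinData.hχe (L : LinData J J' e e') (i j : I) : L.χ i (frac J' (e' i) (e' j)) =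
    algebraMap ℂ _ (L.u i * L.u j) * frac J (e i) (e j) := by
  rw [L.hχ, Finset.sum_eq_single (e j)]
  · rw [L.hl, if_pos rfl, map_mul]
    ring
  · intro b _ hb
    rw [L.hl, if_neg hb, map_zero, zero_mul]
  · intro h
    exact absurd (Finset.mem_univ _) h

lemma res_cst {T : Scheme.{0}} (sT : T ⟶ SpecC) {U U' : T.Opens} (h : U' ≤ U) (z : ℂ) :
    res h (cst sT U z) = cst sT U' z :=
  res_res (U := ⊤) le_top h _

instance isIso_toSpecΓ_D (c : σ) : IsIso (V.D J c).toSpecΓ := by
  have h : (isAffineOpen_D J c).isoSpec.hom = (V.D J c).toSpecΓ := rfl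
  rw [← h]
  infer_instance

instance isIso_secD (c : σ) : IsIso (CommRingCat.ofHom (R := Ch J c) (S := Γ(V J, V.D J c))
    (secD J c)) :=
  (ConcreteCategory.isIso_iff_bijective _).2 (secD_bijective J c)

theorem LinData.exists_map (L : LinData J J' e e') (he : ∀ x : V J, ∃ i, x ∈ V.D J (e i)) :
    ∃ f : V J ⟶ V J', f ≫ V.str J' = V.str J ∧ ∀ i, V.chart J (e i) ≫ f =
      Spec.map (CommRingCat.ofHom (L.χ i).toRingHom) ≫ V.chart J' (e' i) := by
  obtain ⟨f, hf, h⟩ := exists_glue J' (V.str J) (fun i => V.D J (e i)) he e'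
    (fun i => (secD J (e i)).comp (L.χ i).toRingHom) (by
      intro i z
      have h1 : (L.χ i).toRingHom (algebraMap ℂ _ z) = algebraMap ℂ _ z := (L.χ i).commutes z
      rw [RingHom.comp_apply, h1, secD_const]) (by
      intro i j a
      have h1 : ∀ k b, ((secD J (e k)).comp (L.χ k).toRingHom) (frac J' (e' k) b) =
        cst (V.str J) (V.D J (e k)) (L.u k) * ∑ c, cst (V.str J) (V.D J (e k)) (L.l b c) *
          secD J (e k) (frac J (e k) c) := by
        intro k b
        have h2 : (L.χ k).toRingHom (frac J' (e' k) b) = _ := L.hχ k b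
        rw [RingHom.comp_apply, h2, map_mul, map_sum, secD_const]
        congr 1
        refine Finset.sum_congr rfl fun c _ => ?_
        rw [map_mul, secD_const]
      have h3 : ((secD J (e i)).comp (L.χ i).toRingHom) (frac J' (e' i) (e' j)) =
          cst (V.str J) (V.D J (e i)) (L.u i * L.u j) * secD J (e i) (frac J (e i) (e j)) := by
        have h2 : (L.χ i).toRingHom (frac J' (e' i) (e' j)) = _ := L.hχe i j
        rw [RingHom.comp_apply, h2, map_mul, secD_const]
      rw [h3, h1, h1]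
      simp only [map_mul, map_sum, res_cst]
      rw [Finset.mul_sum, Finset.mul_sum, Finset.mul_sum]
      refine Finset.sum_congr rfl fun c _ => ?_
      rw [secD_trans J (e i) (e j) c (V.D J (e i) ⊓ V.D J (e j)) inf_le_left inf_le_right]
      have h4 : cst (V.str J) (V.D J (e i) ⊓ V.D J (e j)) (L.u j) *
          cst (V.str J) (V.D J (e i) ⊓ V.D J (e j)) (L.u j) = 1 := by
        rw [← map_mul, L.hu, map_one]
      linear_combination (-(cst (V.str J) (V.D J (e i) ⊓ V.D J (e j)) (L.u i)) *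
        cst (V.str J) (V.D J (e i) ⊓ V.D J (e j)) (L.l a c) *
        res inf_le_left (secD J (e i) (frac J (e i) (e j))) *
        res inf_le_right (secD J (e j) (frac J (e j) c))) * h4)
  refine ⟨f, hf, fun i => ?_⟩
  have h1 := h i
  rw [← cancel_epi (Spec.map (CommRingCat.ofHom (R := Ch J (e i)) (S := Γ(V J, V.D J (e i)))
    (secD J (e i)))), ← cancel_epi (V.D J (e i)).toSpecΓ]
  have h2 := ι_D J (e i)
  have h3 : (V.D J (e i)).toSpecΓ ≫ Spec.map (CommRingCat.ofHom (R := Ch J (e i))
      (S := Γ(V J, V.D J (e i))) (secD J (e i))) ≫ V.chart J (e i) ≫ f = (V.D J (e i)).ι ≫ f := by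
    rw [← h2]
    simp only [Category.assoc]
  rw [h3, h1]
  rw [CommRingCat.ofHom_comp, Spec.map_comp]
  simp only [Category.assoc]

/-- a morphism with the given data -/
structure LinData.IsMap (L : LinData J J' e e') (f : V J ⟶ V J') : Prop where
  str : f ≫ V.str J' = V.str J
  chart : ∀ i, V.chart J (e i) ≫ f =
      Spec.map (CommRingCat.ofHom (L.χ i).toRingHom) ≫ V.chart J' (e' i)

variable {L : LinData J J' e e'} {f : V J ⟶ V J'}

lemma LinData.IsMap.preimage (h : L.IsMap f) (he : ∀ x : V J, ∃ i, x ∈ V.D J (e i)) (i : I) :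
    f ⁻¹ᵁ V.D J' (e' i) = V.D J (e i) := by
  apply TopologicalSpace.Opens.ext
  ext x
  obtain ⟨j, hj⟩ := he x
  obtain ⟨y, rfl⟩ := (V.mem_range_chart J (e j) x).2 hj
  have h1 : f (V.chart J (e j) y) = V.chart J' (e' j)
      (Spec.map (CommRingCat.ofHom (L.χ j).toRingHom) y) := by
    have := congrArg (fun g => g y) (h.chart j)
    simpa only [Scheme.Hom.comp_apply] using this
  change f (V.chart J (e j) y) ∈ V.D J' (e' i) ↔ V.chart J (e j) y ∈ V.D J (e i)
  rw [h1, V.chart_mem_D, V.chart_mem_D]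
  have h2 : (L.χ j).toRingHom (frac J' (e' j) (e' i)) = _ := L.hχe j i
  have hunit : IsUnit (algebraMap ℂ (Ch J (e j)) (L.u j * L.u i)) := by
    apply IsUnit.of_mul_eq_one (algebraMap ℂ (Ch J (e j)) (L.u j * L.u i))
    rw [← map_mul]
    have e1 : L.u j * L.u i * (L.u j * L.u i) = 1 := by
      linear_combination (L.u i * L.u i) * L.hu j + L.hu i
    rw [e1, map_one]
  have h3 : (frac J' (e' j) (e' i) ∈ (Spec.map (CommRingCat.ofHom (L.χ j).toRingHom) y).asIdeal) ↔
      algebraMap ℂ (Ch J (e j)) (L.u j * L.u i) * frac J (e j) (e i) ∈ y.asIdeal := by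
    rw [← h2]
    exact Iff.rfl
  rw [h3]
  constructor
  · intro h4 h5
    exact h4 (Ideal.mul_mem_left _ _ h5)
  · intro h4 h5
    apply h4
    rcases y.isPrime.mem_or_mem h5 with h6 | h6
    · exact absurd (Ideal.eq_top_of_isUnit_mem _ h6 hunit) y.isPrime.ne_top
    · exact h6

lemma LinData.IsMap.key (h : L.IsMap f) (i : I) (W : (V J).Opens) (h1 : W ≤ f ⁻¹ᵁ V.D J' (e' i))
    (h2 : W ≤ V.D J (e i)) (x : Ch J' (e' i)) :
    res h1 (pb f (V.D J' (e' i)) (secD J' (e' i) x)) = res h2 (secD J (e i) (L.χ i x)) := by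
  have h3 := fx_key' (V.chart J' (e' i)) (V.D J' (e' i)) (CommRingCat.ofHom (R := Ch J' (e' i))
    (S := Γ(V J', V.D J' (e' i))) (secD J' (e' i))) (ι_D J' (e' i)) W f h1
    (W.toSpecΓ ≫ Spec.map (CommRingCat.ofHom (R := Ch J' (e' i)) (S := Γ(V J, W))
      ((res h2).comp ((secD J (e i)).comp (L.χ i).toRingHom)))) (by
      rw [CommRingCat.ofHom_comp, CommRingCat.ofHom_comp, Spec.map_comp, Spec.map_comp,
        Category.assoc, Category.assoc, Category.assoc, ← h.chart i]
      have h5 := ι_D J (e i)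
      have h6 : W.toSpecΓ ≫ Spec.map (CommRingCat.ofHom (R := Γ(V J, V.D J (e i)))
          (S := Γ(V J, W)) (res (S := V J) h2)) =
          (V J).homOfLE h2 ≫ (V.D J (e i)).toSpecΓ :=
        Scheme.Opens.toSpecΓ_SpecMap_presheaf_map _ _ _
      rw [reassoc_of% h6]
      have h7 : (V.D J (e i)).toSpecΓ ≫ Spec.map (CommRingCat.ofHom (R := Ch J (e i))
          (S := Γ(V J, V.D J (e i))) (secD J (e i))) ≫ V.chart J (e i) ≫ f =
          (V.D J (e i)).ι ≫ f := by
        rw [← h5]
        simp only [Category.assoc]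
      rw [h7]
      simp)
  have h4 := fx_faithful _ _ _ h3
  have h5 := congrArg (fun g => g.hom x) h4
  exact h5.symm

end general

end Pool.Agent.Q79.QD
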