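import Pool.Agent.Q79.QD.Ring
import Pool.Agent.Helper304.Ses.Mg1
import Pool.Agent.Helper304.Ses.Oone
import Pool.Agent.H666R3.NG.GenusDefs

/-!
# The genus of a curve covered by two charts
-/

set_option autoImplicit false

open MvPolynomial AlgebraicGeometry CategoryTheory Limits TopologicalSpace HomogeneousLocalization

namespace Pool.Agent.Q79.QD

open Pool.Agent.Helper198.Sch Pool.Agent.H666R3.NG Pool.Agent.Helper304.Ses

attribute [local instance] MvPolynomial.gradedAlgebra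

section general

variable {A : Type} [CommRing A] {R : Type} [CommRing R] [Algebra R A]
  (𝒜 : ℕ → Submodule R A) [GradedAlgebra 𝒜]

/-- structure map -/
noncomputable def pstr : Proj 𝒜 ⟶ Spec (.of R) :=
  Proj.toSpecZero 𝒜 ≫ Spec.map (CommRingCat.ofHom (algebraMap R (𝒜 0)))

/-- the structure map of a localization -/
noncomputable def awAlg (s : A) : R →+* Away 𝒜 s :=
  (fromZeroRingHom 𝒜 (Submonoid.powers s)).comp (algebraMap R (𝒜 0))

lemma ι_str {m : ℕ} (hm : 0 < m) (s : A) (hs : s ∈ 𝒜 m) :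
    (Proj.basicOpen 𝒜 s).ι ≫ pstr 𝒜 =
      Proj.basicOpenToSpec 𝒜 s ≫ Spec.map (CommRingCat.ofHom (awAlg 𝒜 s)) := by
  have h1 := Proj.basicOpenIsoSpec_inv_ι 𝒜 s hs hm
  rw [Iso.inv_comp_eq] at h1
  unfold pstr
  rw [h1, Category.assoc, Proj.awayι_toSpecZero_assoc, Proj.basicOpenIsoSpec_hom, ← Spec.map_comp]
  rfl

lemma fnHom_basicOpen {m : ℕ} (hm : 0 < m) (s : A) (hs : s ∈ 𝒜 m) :
    fnHom (pstr 𝒜) (Proj.basicOpen 𝒜 s) = (Proj.awayToSection 𝒜 s).hom.comp (awAlg 𝒜 s) := by
  have h1 := congrArg Scheme.Hom.appTop (ι_str 𝒜 hm s hs)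
  rw [Scheme.Hom.comp_appTop, Scheme.Hom.comp_appTop] at h1
  have h2 : (Proj.basicOpenToSpec 𝒜 s).appTop = (Scheme.ΓSpecIso _).hom ≫
      Proj.awayToSection 𝒜 s ≫ (Proj.basicOpen 𝒜 s).topIso.inv := Proj.basicOpenToSpec_app_top 𝒜 s
  have h3 := Scheme.ΓSpecIso_inv_naturality (CommRingCat.ofHom (awAlg 𝒜 s))
  have h4 : (Scheme.ΓSpecIso (.of R)).inv ≫ (pstr 𝒜).appTop ≫
      (Proj.basicOpen 𝒜 s).ι.appTop ≫
      (Proj.basicOpen 𝒜 s).topIso.hom =
      CommRingCat.ofHom (awAlg 𝒜 s) ≫ Proj.awayToSection 𝒜 s := by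
    rw [reassoc_of% h1, h2, ← reassoc_of% h3]
    simp only [Category.assoc, Iso.inv_hom_id, Iso.inv_hom_id_assoc, Category.comp_id]
  have h5 : (Proj 𝒜).presheaf.map (homOfLE (le_top : Proj.basicOpen 𝒜 s ≤ ⊤)).op =
      (Proj.basicOpen 𝒜 s).ι.appTop ≫
      (Proj.basicOpen 𝒜 s).topIso.hom := by
    rw [Scheme.Opens.ι_appTop, Scheme.Opens.topIso_hom]
    exact (Functor.map_comp (Proj 𝒜).presheaf _ _)
  unfold fnHom
  rw [h5, h4]
  rfl

lemma awayToSection_bijective {m : ℕ} (hm : 0 < m) (s : A) (hs : s ∈ 𝒜 m) :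
    Function.Bijective (Proj.awayToSection 𝒜 s).hom := by
  have h : IsIso (Proj.awayToSection 𝒜 s) := by
    rw [← Proj.basicOpenIsoAway_hom 𝒜 s hs hm]
    infer_instance
  exact ConcreteCategory.bijective_of_isIso (Proj.awayToSection 𝒜 s)

lemma range_res {m m' : ℕ} (hm : 0 < m) (f g x : A) (hf : f ∈ 𝒜 m)
    (hg : g ∈ 𝒜 m') (hx : x = f * g) (hle : Proj.basicOpen 𝒜 x ≤ Proj.basicOpen 𝒜 f) :
    Set.range ((Proj 𝒜).presheaf.map (homOfLE hle).op) =
      Set.range ((Proj.awayToSection 𝒜 x).hom.comp (awayMap 𝒜 hg hx)) := by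
  have h1 := Proj.awayMap_awayToSection 𝒜 hg hx
  have h2 := (awayToSection_bijective 𝒜 hm f hf).surjective
  ext z
  constructor
  · rintro ⟨w, rfl⟩
    obtain ⟨a, rfl⟩ := h2 w
    exact ⟨a, congrArg (fun φ => φ.hom a) h1⟩
  · rintro ⟨a, rfl⟩
    exact ⟨(Proj.awayToSection 𝒜 f).hom a, (congrArg (fun φ => φ.hom a) h1).symm⟩

end general

lemma isLoc_transfer {R S P Q : Type} [CommRing R] [CommRing S] [CommRing P] [CommRing Q]
    (φ : R →+* S) (ψ : P →+* Q) (e : R ≃+* P) (h : S ≃+* Q) (a : R)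
    (hc : ∀ r, ψ (e r) = h (φ r))
    (H : letI := φ.toAlgebra; IsLocalization.Away a S) :
    letI := ψ.toAlgebra; IsLocalization.Away (e a) Q := by
  let := φ.toAlgebra
  let := ψ.toAlgebra
  have H' : IsLocalization.Away a S := H
  refine { map_units := ?_, surj := ?_, exists_of_eq := ?_ }
  · rintro ⟨_, n, rfl⟩
    change IsUnit (ψ (e a ^ n))
    rw [map_pow, hc]
    exact ((IsLocalization.Away.algebraMap_isUnit (S := S) a).map h).pow n
  · intro q
    obtain ⟨⟨r, ⟨_, n, rfl⟩⟩, hr⟩ := IsLocalization.surj (Submonoid.powers a) (h.symm q)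
    refine ⟨(e r, ⟨e a ^ n, n, rfl⟩), ?_⟩
    change q * ψ (e a ^ n) = ψ (e r)
    have hr' : h.symm q * φ (a ^ n) = φ r := hr
    rw [hc, ← hr', map_mul, h.apply_symm_apply, ← map_pow, hc]
  · intro p p' hpp
    have hpp' : ψ p = ψ p' := hpp
    obtain ⟨r, rfl⟩ := e.surjective p
    obtain ⟨r', rfl⟩ := e.surjective p'
    rw [hc, hc] at hpp'
    obtain ⟨⟨_, n, rfl⟩, hn⟩ := IsLocalization.exists_of_eq (M := Submonoid.powers a) (S := S)
      (show algebraMap R S r = algebraMap R S r' from h.injective hpp')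
    refine ⟨⟨e a ^ n, n, rfl⟩, ?_⟩
    have := congrArg e hn
    simpa using this

section two

variable {σ : Type} (J : HI σ ℂ) (c c' : σ)

/-- the grading -/
noncomputable abbrev gr : ℕ → Submodule ℂ (MvPolynomial σ ℂ ⧸ J.toIdeal) := qgrad J.toIdeal

/-- the product of the two coordinates -/
noncomputable def ss : MvPolynomial σ ℂ ⧸ J.toIdeal := gen J c * gen J c'

lemma ss_mem : ss J c c' ∈ gr J (1 + 1) := SetLike.mul_mem_graded (gen_mem _ _) (gen_mem _ _)

lemma ss_comm : ss J c c' = gen J c' * gen J c := mul_comm _ _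

/-- the intersection of the charts -/
noncomputable abbrev WW : (Proj (gr J)).Opens := Proj.basicOpen (gr J) (ss J c c')

/-- functions on the first chart, restricted -/
noncomputable def ψ1 : Ch J c →+* Γ(Proj (gr J), WW J c c') :=
  (Proj.awayToSection (gr J) (ss J c c')).hom.comp (toL J c c')

/-- functions on the second chart, restricted -/
noncomputable def ψ2 : Ch J c' →+* Γ(Proj (gr J), WW J c c') :=
  (Proj.awayToSection (gr J) (ss J c c')).hom.comp (toR J c c')

lemma ψ1_alg (r : ℂ) : ψ1 J c c' (algebraMap ℂ _ r) = fnHom (pstr (gr J)) (WW J c c') r := by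
  rw [fnHom_basicOpen (gr J) (by norm_num) (ss J c c') (ss_mem J c c')]
  change (Proj.awayToSection (gr J) (ss J c c')).hom (awayMap (gr J) (gen_mem J c') rfl
    (fromZeroRingHom _ _ _)) = _
  rw [awayMap_fromZeroRingHom]
  rfl

lemma ψ2_alg (r : ℂ) : ψ2 J c c' (algebraMap ℂ _ r) = fnHom (pstr (gr J)) (WW J c c') r := by
  rw [fnHom_basicOpen (gr J) (by norm_num) (ss J c c') (ss_mem J c c')]
  change (Proj.awayToSection (gr J) (ss J c c')).hom (awayMap (gr J) (gen_mem J c) (ss_comm J c c')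
    (fromZeroRingHom _ _ _)) = _
  rw [awayMap_fromZeroRingHom]
  rfl

lemma ψ_frac (a : σ) : ψ1 J c c' (frac J c c') * ψ2 J c c' (frac J c' a) =
    ψ1 J c c' (frac J c a) := by
  exact (map_mul (Proj.awayToSection (gr J) (ss J c c')).hom _ _).symm.trans
    (congrArg (Proj.awayToSection (gr J) (ss J c c')).hom (toL_toR J c c' a))

/-- The bases of the rings of the two charts, and their comparison. -/
structure TwoBases (ι : Type) [Fintype ι] where
  /-- the ring of the first chart -/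
  R : Type
  /-- the ring of the second chart -/
  R' : Type
  [cR : CommRing R]
  [cR' : CommRing R']
  [aR : Algebra (Polynomial ℂ) R]
  [aR' : Algebra (Polynomial ℂ) R']
  [kR : Algebra ℂ R]
  [kR' : Algebra ℂ R']
  [tR : IsScalarTower ℂ (Polynomial ℂ) R]
  [tR' : IsScalarTower ℂ (Polynomial ℂ) R']
  /-- the identification of the first chart -/
  e : Ch J c ≃ₐ[ℂ] R
  /-- the identification of the second chart -/
  e' : Ch J c' ≃ₐ[ℂ] R'
  he : e (frac J c c') = algebraMap (Polynomial ℂ) R Polynomial.X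
  he' : e' (frac J c' c) = algebraMap (Polynomial ℂ) R' Polynomial.X
  /-- the first basis -/
  b : Module.Basis ι (Polynomial ℂ) R
  /-- the second basis -/
  b' : Module.Basis ι (Polynomial ℂ) R'
  /-- the degrees -/
  d : ι → ℕ
  glue : ∀ j, ψ2 J c c' (e'.symm (b' j)) =
    ψ1 J c c' (e.symm (b j)) * ψ2 J c c' (frac J c' c) ^ d j

attribute [instance] TwoBases.cR TwoBases.cR' TwoBases.aR TwoBases.aR' TwoBases.kR TwoBases.kR'
  TwoBases.tR TwoBases.tR'

variable {J c c'} {ι : Type} [Fintype ι]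

set_option synthInstance.maxHeartbeats 400000 in
lemma cechDim_W (T : TwoBases J c c' ι) :
    Function.Injective (ψ2 J c c') ∧
    ∀ g : ℕ, {p : ℤ × ι | p.1 < 0 ∧ 0 < p.1 + T.d p.2}.ncard = g →
    {p : ℤ × ι | p.1 < 0 ∧ 0 < p.1 + T.d p.2}.Finite →
    CechDim (pstr (gr J)) (Proj.basicOpen (gr J) (gen J c')) (Proj.basicOpen (gr J) (gen J c))
      (WW J c c') (Proj.basicOpen_mono _ _ _ ⟨_, ss_comm J c c'⟩)
      (Proj.basicOpen_mono _ _ _ ⟨_, rfl⟩) g := by
  letI i0 : Algebra ℂ Γ(Proj (gr J), WW J c c') := (fnHom (pstr (gr J)) (WW J c c')).toAlgebra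
  let r1 : Ch J c →ₐ[ℂ] Γ(Proj (gr J), WW J c c') := { ψ1 J c c' with commutes' := ψ1_alg J c c' }
  let r2 : Ch J c' →ₐ[ℂ] Γ(Proj (gr J), WW J c c') := { ψ2 J c c' with commutes' := ψ2_alg J c c' }
  let q1 : T.R →ₐ[ℂ] Γ(Proj (gr J), WW J c c') := r1.comp T.e.symm.toAlgHom
  let q2 : T.R' →ₐ[ℂ] Γ(Proj (gr J), WW J c c') := r2.comp T.e'.symm.toAlgHom
  letI i2 : Algebra T.R Γ(Proj (gr J), WW J c c') := q1.toRingHom.toAlgebra
  have hst : IsScalarTower ℂ T.R Γ(Proj (gr J), WW J c c') :=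
    IsScalarTower.of_algebraMap_eq (fun r => (q1.commutes r).symm)
  have e1x : T.e.symm (algebraMap (Polynomial ℂ) T.R Polynomial.X) = frac J c c' := by
    rw [AlgEquiv.symm_apply_eq]
    exact T.he.symm
  have e2x : T.e'.symm (algebraMap (Polynomial ℂ) T.R' Polynomial.X) = frac J c' c := by
    rw [AlgEquiv.symm_apply_eq]
    exact T.he'.symm
  have q1x : q1 (algebraMap (Polynomial ℂ) T.R Polynomial.X) = ψ1 J c c' (frac J c c') :=
    congrArg (ψ1 J c c') e1x
  have q2x : q2 (algebraMap (Polynomial ℂ) T.R' Polynomial.X) = ψ2 J c c' (frac J c' c) :=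
    congrArg (ψ2 J c c') e2x
  have hrel : ψ1 J c c' (frac J c c') * ψ2 J c c' (frac J c' c) = 1 := by
    rw [ψ_frac, frac_self, map_one]
  let u : Γ(Proj (gr J), WW J c c')ˣ :=
    ⟨ψ1 J c c' (frac J c c'), ψ2 J c c' (frac J c' c), hrel, (mul_comm _ _).trans hrel⟩
  have hloc : IsLocalization.Away (algebraMap (Polynomial ℂ) T.R Polynomial.X)
      Γ(Proj (gr J), WW J c c') := by
    have h1 := Away.isLocalization_mul (gen_mem J c) (gen_mem J c') (rfl : ss J c c' = _)
      one_ne_zero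
    rw [V.isLocalizationElem_eq] at h1
    have h2 := isLoc_transfer (awayMap (gr J) (gen_mem J c') (rfl : ss J c c' = _)) q1.toRingHom
      T.e.toRingEquiv
      (RingEquiv.ofBijective _ (awayToSection_bijective (gr J) (by norm_num) (ss J c c')
        (ss_mem J c c')))
      (frac J c c') (fun (r : Ch J c) => congrArg (ψ1 J c c') (T.e.symm_apply_apply r)) h1
    have h3 : T.e.toRingEquiv (frac J c c') = algebraMap (Polynomial ℂ) T.R Polynomial.X := T.he
    exact Eq.mp (congrArg (fun z => IsLocalization.Away z Γ(Proj (gr J), WW J c c')) h3) h2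
  have key := cech (K := ℂ) (B := Γ(Proj (gr J), WW J c c')) T.b T.b' u q1x.symm T.d q2 q2x
    (fun j => T.glue j)
  refine ⟨?_, fun g hg hf => ?_⟩
  · intro x y hxy
    apply T.e'.injective
    apply key.1
    change ψ2 J c c' (T.e'.symm (T.e' x)) = ψ2 J c c' (T.e'.symm (T.e' y))
    rw [AlgEquiv.symm_apply_apply, AlgEquiv.symm_apply_apply, hxy]
  have key2 := key.2 g hg hf
  have hS : Submodule.span ℂ
      (Set.range ((Proj (gr J)).presheaf.map (homOfLE (Proj.basicOpen_mono (gr J) _ _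
        (⟨_, ss_comm J c c'⟩ : gen J c' ∣ ss J c c'))).op) ∪
        Set.range ((Proj (gr J)).presheaf.map (homOfLE (Proj.basicOpen_mono (gr J) _ _
        (⟨_, rfl⟩ : gen J c ∣ ss J c c'))).op)) =
      LinearMap.range q2.toLinearMap ⊔
        LinearMap.range (IsScalarTower.toAlgHom ℂ T.R Γ(Proj (gr J), WW J c c')).toLinearMap := by
    rw [range_res (gr J) one_pos (gen J c') (gen J c) (ss J c c') (gen_mem _ _) (gen_mem _ _)
        (ss_comm J c c'),
      range_res (gr J) one_pos (gen J c) (gen J c') (ss J c c') (gen_mem _ _) (gen_mem _ _)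
        rfl, Submodule.span_union]
    congr 1
    · have : (Set.range ((Proj.awayToSection (gr J) (ss J c c')).hom.comp
          (awayMap (gr J) (gen_mem J c) (ss_comm J c c')))) =
          ((LinearMap.range q2.toLinearMap : Submodule ℂ _) : Set _) := by
        ext z
        constructor
        · rintro ⟨a, rfl⟩
          exact ⟨T.e' a, congrArg (ψ2 J c c') (T.e'.symm_apply_apply a)⟩
        · rintro ⟨a, rfl⟩
          exact ⟨T.e'.symm a, rfl⟩
      rw [this, Submodule.span_eq]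
    · have : (Set.range ((Proj.awayToSection (gr J) (ss J c c')).hom.comp
          (awayMap (gr J) (gen_mem J c') (rfl : ss J c c' = _)))) =
          ((LinearMap.range (IsScalarTower.toAlgHom ℂ T.R
            Γ(Proj (gr J), WW J c c')).toLinearMap : Submodule ℂ _) : Set _) := by
        ext z
        constructor
        · rintro ⟨a, rfl⟩
          exact ⟨T.e a, congrArg (ψ1 J c c') (T.e.symm_apply_apply a)⟩
        · rintro ⟨a, rfl⟩
          exact ⟨T.e.symm a, rfl⟩
      rw [this, Submodule.span_eq]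
  unfold CechDim CokerDim
  rw [hS]
  exact key2

lemma WW_eq : WW J c c' = Proj.basicOpen (gr J) (gen J c') ⊓ Proj.basicOpen (gr J) (gen J c) := by
  rw [WW, ss_comm]
  exact Proj.basicOpen_mul _ _ _

/-- **The genus.** -/
theorem hasGenus (T : TwoBases J c c' ι) (hcov : ∀ x : V J, x ∈ V.D J c ∨ x ∈ V.D J c')
    (g : ℕ) (hg : {p : ℤ × ι | p.1 < 0 ∧ 0 < p.1 + T.d p.2}.ncard = g)
    (hf : {p : ℤ × ι | p.1 < 0 ∧ 0 < p.1 + T.d p.2}.Finite) : HasGenus (V.str J) g := by
  have h : ∀ (W : (Proj (gr J)).Opens) (hU : W ≤ Proj.basicOpen (gr J) (gen J c'))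
      (hV : W ≤ Proj.basicOpen (gr J) (gen J c)), W = WW J c c' →
      CechDim (pstr (gr J)) (Proj.basicOpen (gr J) (gen J c'))
        (Proj.basicOpen (gr J) (gen J c)) W hU hV g := by
    rintro W hU hV rfl
    exact (cechDim_W T).2 g hg hf
  have hcov' : Proj.basicOpen (gr J) (gen J c') ⊔ Proj.basicOpen (gr J) (gen J c) = ⊤ := by
    rw [eq_top_iff]
    intro x _
    exact (hcov x).symm
  have h1 : HasGenus (pstr (gr J)) g := by
    refine ⟨Proj.basicOpen (gr J) (gen J c'), Proj.basicOpen (gr J) (gen J c),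
      Proj.isAffineOpen_basicOpen _ _ (gen_mem _ _) one_pos,
      Proj.isAffineOpen_basicOpen _ _ (gen_mem _ _) one_pos, ?_, hcov',
      h _ _ _ WW_eq.symm⟩
    rw [← WW_eq]
    exact Proj.isAffineOpen_basicOpen _ _ (ss_mem J c c') (by norm_num)
  exact h1

/-- If the ring of the first chart is a domain, so is the ring of the second. -/
theorem isDomain_second (T : TwoBases J c c' ι) [IsDomain (Ch J c)]
    (h0 : (frac J c c') ≠ 0) : IsDomain (Ch J c') := by
  letI i2 : Algebra (Ch J c) Γ(Proj (gr J), WW J c c') := (ψ1 J c c').toAlgebra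
  have hloc : IsLocalization.Away (frac J c c') Γ(Proj (gr J), WW J c c') := by
    have h1 := Away.isLocalization_mul (gen_mem J c) (gen_mem J c') (rfl : ss J c c' = _)
      one_ne_zero
    rw [V.isLocalizationElem_eq] at h1
    exact isLoc_transfer (awayMap (gr J) (gen_mem J c') (rfl : ss J c c' = _)) (ψ1 J c c')
      (RingEquiv.refl _)
      (RingEquiv.ofBijective _ (awayToSection_bijective (gr J) (by norm_num) (ss J c c')
        (ss_mem J c c')))
      (frac J c c') (fun r => rfl) h1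
  have hd : IsDomain Γ(Proj (gr J), WW J c c') :=
    IsLocalization.isDomain_of_le_nonZeroDivisors (M := Submonoid.powers (frac J c c')) _
      (powers_le_nonZeroDivisors_of_noZeroDivisors h0)
  exact (cechDim_W T).1.isDomain (ψ2 J c c')

end two

end Pool.Agent.Q79.QD
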