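import Pool.Agent.Q79.QD.Lift
import Pool.Agent.Q79.QD.Defs
import Pool.Agent.Q79.QD.TwoCh
import Pool.Agent.Q79.QD.Dom

/-!
The charts, the genus and the integrality of the two curves.
-/

set_option autoImplicit false

open AlgebraicGeometry CategoryTheory Limits MvPolynomial

namespace Pool.Agent.Q79.QD

open Pool.Agent.Helper304.Ses Pool.Agent.H666R3.NG Pool.Agent.Helper198.Sch

attribute [local instance] MvPolynomial.gradedAlgebra

section glue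

variable {σ : Type} (J : HI σ ℂ) (c c' : σ)

lemma ψ_frac' (a : σ) : ψ1 J c c' (frac J c a) * ψ2 J c c' (frac J c' c) =
    ψ2 J c c' (frac J c' a) := by
  have h1 := ψ_frac J c c' a
  have h2 := ψ_frac J c c' c
  rw [frac_self, map_one] at h2
  rw [← h1]
  linear_combination (ψ2 J c c' (frac J c' a)) * h2

end glue

section polys

variable (α β γ δ : ℂ)

/-- the coefficient `A` in the chart `Z = 1` -/
noncomputable def AZ : Polynomial ℂ := Polynomial.C α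
/-- the coefficient `B` in the chart `Z = 1` -/
noncomputable def BZ : Polynomial ℂ :=
  Polynomial.C β + Polynomial.C γ * Polynomial.X ^ 2 + Polynomial.C δ * Polynomial.X ^ 3
/-- the coefficient `A` in the chart `Y = 1` -/
noncomputable def AY : Polynomial ℂ := Polynomial.C α * Polynomial.X ^ 2
/-- the coefficient `B` in the chart `Y = 1` -/
noncomputable def BY : Polynomial ℂ :=
  Polynomial.C β * Polynomial.X ^ 3 + Polynomial.C γ * Polynomial.X + Polynomial.C δ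

lemma eqE_Z : EqE (cubE α β γ δ) 2 1 (AZ α) (BZ β γ δ) := by
  intro T _ _ u hu
  simp only [cubE, AZ, BZ, map_add, map_mul, map_pow, aeval_X, aeval_C, Polynomial.aeval_X,
    Polynomial.aeval_C, hu]
  ring

lemma eqE_Y : EqE (cubE α β γ δ) 1 2 (AY α) (BY β γ δ) := by
  intro T _ _ u hu
  simp only [cubE, AY, BY, map_add, map_mul, map_pow, aeval_X, aeval_C, Polynomial.aeval_X,
    Polynomial.aeval_C, hu]
  ring

lemma eqS_Z : EqS (cubS α β γ δ) (quadS α) 3 2 (AZ α) (BZ β γ δ) := by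
  intro T _ _ u hu
  constructor
  · simp only [cubS, AZ, BZ, map_add, map_mul, map_pow, aeval_X, aeval_C, Polynomial.aeval_X,
      Polynomial.aeval_C, hu]
    ring
  · simp only [quadS, AZ, map_add, map_mul, map_pow, aeval_X, aeval_C,
      Polynomial.aeval_C, hu]
    ring

lemma eqS_Y : EqS (cubS α β γ δ) (quadS α) 2 3 (AY α) (BY β γ δ) := by
  intro T _ _ u hu
  constructor
  · simp only [cubS, AY, BY, map_add, map_mul, map_pow, aeval_X, aeval_C, Polynomial.aeval_X,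
      Polynomial.aeval_C, hu]
    ring
  · simp only [quadS, AY, map_add, map_mul, map_pow, aeval_X, aeval_C, Polynomial.aeval_X,
      Polynomial.aeval_C]

/-- the chart `Z = 1` of the cubic -/
noncomputable def cEZ : Ch (JE α β γ δ) 2 ≃ₐ[ℂ] RE (AZ α) (BZ β γ δ) :=
  eqvE (cubE_set α β γ δ) (eqE_Z α β γ δ) (by decide) (by decide) (by decide)

/-- the chart `Y = 1` of the cubic -/
noncomputable def cEY : Ch (JE α β γ δ) 1 ≃ₐ[ℂ] RE (AY α) (BY β γ δ) :=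
  eqvE (cubE_set α β γ δ) (eqE_Y α β γ δ) (by decide) (by decide) (by decide)

/-- the chart `Z = 1` of the curve `S` -/
noncomputable def cSZ : Ch (JS α β γ δ) 3 ≃ₐ[ℂ] RS (AZ α) (BZ β γ δ) :=
  eqvS (setS_hom α β γ δ) (eqS_Z α β γ δ) (by decide) (by decide) (by decide) (by decide)
    (by decide)

/-- the chart `Y = 1` of the curve `S` -/
noncomputable def cSY : Ch (JS α β γ δ) 2 ≃ₐ[ℂ] RS (AY α) (BY β γ δ) :=
  eqvS (setS_hom α β γ δ) (eqS_Y α β γ δ) (by decide) (by decide) (by decide) (by decide)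
    (by decide)

lemma cEZ_frac (a : Fin 3) : cEZ α β γ δ (frac _ 2 a) = uE (AZ α) (BZ β γ δ) 2 1 a :=
  eqvE_frac _ _ _ _ _ _

lemma cEY_frac (a : Fin 3) : cEY α β γ δ (frac _ 1 a) = uE (AY α) (BY β γ δ) 1 2 a :=
  eqvE_frac _ _ _ _ _ _

lemma cSZ_frac (a : Fin 4) : cSZ α β γ δ (frac _ 3 a) = uS (AZ α) (BZ β γ δ) 3 2 a :=
  eqvS_frac _ _ _ _ _ _ _ _

lemma cSY_frac (a : Fin 4) : cSY α β γ δ (frac _ 2 a) = uS (AY α) (BY β γ δ) 2 3 a :=
  eqvS_frac _ _ _ _ _ _ _ _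

/-- the two bases for the cubic -/
noncomputable def TE : TwoBases (JE α β γ δ) 2 1 (Fin 3) where
  R := RE (AZ α) (BZ β γ δ)
  R' := RE (AY α) (BY β γ δ)
  e := cEZ α β γ δ
  e' := cEY α β γ δ
  he := (cEZ_frac α β γ δ 1).trans (by simp [uE])
  he' := (cEY_frac α β γ δ 2).trans (by simp [uE])
  b := bE _ _
  b' := bE _ _
  d j := (j : ℕ)
  glue j := by
    have h1 : (cEZ α β γ δ).symm (xE _ _) = frac _ 2 0 := by
      rw [AlgEquiv.symm_apply_eq, cEZ_frac]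
      simp [uE]
    have h2 : (cEY α β γ δ).symm (xE _ _) = frac _ 1 0 := by
      rw [AlgEquiv.symm_apply_eq, cEY_frac]
      simp [uE]
    rw [bE_apply, bE_apply, map_pow, map_pow, map_pow, map_pow, h1, h2, ← mul_pow, ψ_frac']

/-- the two bases for the curve `S` -/
noncomputable def TS : TwoBases (JS α β γ δ) 3 2 (Fin 3 × Fin 2) where
  R := RS (AZ α) (BZ β γ δ)
  R' := RS (AY α) (BY β γ δ)
  e := cSZ α β γ δ
  e' := cSY α β γ δ
  he := (cSZ_frac α β γ δ 2).trans (by simp [uS])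
  he' := (cSY_frac α β γ δ 3).trans (by simp [uS])
  b := bS _ _
  b' := bS _ _
  d j := (j.1 : ℕ) + (j.2 : ℕ)
  glue j := by
    have h1 : (cSZ α β γ δ).symm (x1 _ _) = frac _ 3 0 := by
      rw [AlgEquiv.symm_apply_eq, cSZ_frac]
      simp [uS]
    have h2 : (cSY α β γ δ).symm (x1 _ _) = frac _ 2 0 := by
      rw [AlgEquiv.symm_apply_eq, cSY_frac]
      simp [uS]
    have h3 : (cSZ α β γ δ).symm (x2 _ _) = frac _ 3 1 := by
      rw [AlgEquiv.symm_apply_eq, cSZ_frac]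
      simp [uS]
    have h4 : (cSY α β γ δ).symm (x2 _ _) = frac _ 2 1 := by
      rw [AlgEquiv.symm_apply_eq, cSY_frac]
      simp [uS]
    rw [bS_apply, bS_apply, map_mul, map_mul, map_mul, map_mul, map_pow, map_pow, map_pow, map_pow,
      map_pow, map_pow, map_pow, map_pow, h1, h2, h3, h4, pow_add, ← ψ_frac' (JS α β γ δ) 3 2 0,
      ← ψ_frac' (JS α β γ δ) 3 2 1]
    ring

lemma gen_cubE : gen (JE α β γ δ) 0 ^ 3 + algebraMap ℂ _ α * gen (JE α β γ δ) 0 *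
    gen (JE α β γ δ) 2 ^ 2 + algebraMap ℂ _ β * gen (JE α β γ δ) 2 ^ 3 +
    algebraMap ℂ _ γ * gen (JE α β γ δ) 1 ^ 2 * gen (JE α β γ δ) 2 +
    algebraMap ℂ _ δ * gen (JE α β γ δ) 1 ^ 3 = 0 := by
  have h : Ideal.Quotient.mk (JE α β γ δ).toIdeal (cubE α β γ δ) = 0 :=
    Ideal.Quotient.eq_zero_iff_mem.2 (mem_ofSet rfl)
  unfold cubE at h
  simp only [map_add, map_mul, map_pow] at h
  exact h

lemma gen_cubS : gen (JS α β γ δ) 0 ^ 3 + algebraMap ℂ _ α * gen (JS α β γ δ) 0 *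
    gen (JS α β γ δ) 3 ^ 2 + algebraMap ℂ _ β * gen (JS α β γ δ) 3 ^ 3 +
    algebraMap ℂ _ γ * gen (JS α β γ δ) 2 ^ 2 * gen (JS α β γ δ) 3 +
    algebraMap ℂ _ δ * gen (JS α β γ δ) 2 ^ 3 = 0 := by
  have h : Ideal.Quotient.mk (JS α β γ δ).toIdeal (cubS α β γ δ) = 0 :=
    Ideal.Quotient.eq_zero_iff_mem.2 (mem_ofSet (Or.inl rfl))
  unfold cubS at h
  simp only [map_add, map_mul, map_pow] at h
  exact h

lemma gen_quadS : gen (JS α β γ δ) 1 ^ 2 + gen (JS α β γ δ) 0 * gen (JS α β γ δ) 1 +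
    gen (JS α β γ δ) 0 ^ 2 + algebraMap ℂ _ α * gen (JS α β γ δ) 3 ^ 2 = 0 := by
  have h : Ideal.Quotient.mk (JS α β γ δ).toIdeal (quadS α) = 0 :=
    Ideal.Quotient.eq_zero_iff_mem.2 (mem_ofSet (Or.inr rfl))
  unfold quadS at h
  simp only [map_add, map_mul, map_pow] at h
  exact h

/-- the charts `Y ≠ 0` and `Z ≠ 0` cover the cubic -/
lemma covE (x : V (JE α β γ δ)) : x ∈ V.D (JE α β γ δ) 2 ∨ x ∈ V.D (JE α β γ δ) 1 := by
  by_contra hcon
  push Not at hcon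
  obtain ⟨h2, h1⟩ := hcon
  rw [V.mem_D_iff, not_not] at h1 h2
  obtain ⟨c, hc⟩ := V.exists_mem_D (JE α β γ δ) x
  rw [V.mem_D_iff] at hc
  have hr := gen_cubE α β γ δ
  have h3 : gen (JE α β γ δ) 0 ^ 3 ∈
      (ProjectiveSpectrum.asHomogeneousIdeal (𝒜 := qgrad (JE α β γ δ).toIdeal) x).toIdeal := by
    have e : gen (JE α β γ δ) 0 ^ 3 = (-(algebraMap ℂ _ α * gen (JE α β γ δ) 0 *
      gen (JE α β γ δ) 2 + algebraMap ℂ _ β * gen (JE α β γ δ) 2 ^ 2 +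
      algebraMap ℂ _ γ * gen (JE α β γ δ) 1 ^ 2)) * gen (JE α β γ δ) 2 +
      (-(algebraMap ℂ _ δ * gen (JE α β γ δ) 1 ^ 2)) * gen (JE α β γ δ) 1 := by
      linear_combination hr
    rw [e]
    exact Ideal.add_mem _ (Ideal.mul_mem_left _ _ h2) (Ideal.mul_mem_left _ _ h1)
  have h0 := x.isPrime.mem_of_pow_mem 3 h3
  fin_cases c
  · exact hc h0
  · exact hc h1
  · exact hc h2

/-- the charts `Y ≠ 0` and `Z ≠ 0` cover the curve `S` -/
lemma covS (x : V (JS α β γ δ)) : x ∈ V.D (JS α β γ δ) 3 ∨ x ∈ V.D (JS α β γ δ) 2 := by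
  by_contra hcon
  push Not at hcon
  obtain ⟨h2, h1⟩ := hcon
  rw [V.mem_D_iff, not_not] at h1 h2
  obtain ⟨c, hc⟩ := V.exists_mem_D (JS α β γ δ) x
  rw [V.mem_D_iff] at hc
  have hr := gen_cubS α β γ δ
  have hq := gen_quadS α β γ δ
  have h3 : gen (JS α β γ δ) 0 ^ 3 ∈
      (ProjectiveSpectrum.asHomogeneousIdeal (𝒜 := qgrad (JS α β γ δ).toIdeal) x).toIdeal := by
    have e : gen (JS α β γ δ) 0 ^ 3 = (-(algebraMap ℂ _ α * gen (JS α β γ δ) 0 *
      gen (JS α β γ δ) 3 + algebraMap ℂ _ β * gen (JS α β γ δ) 3 ^ 2 +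
      algebraMap ℂ _ γ * gen (JS α β γ δ) 2 ^ 2)) * gen (JS α β γ δ) 3 +
      (-(algebraMap ℂ _ δ * gen (JS α β γ δ) 2 ^ 2)) * gen (JS α β γ δ) 2 := by
      linear_combination hr
    rw [e]
    exact Ideal.add_mem _ (Ideal.mul_mem_left _ _ h2) (Ideal.mul_mem_left _ _ h1)
  have h0 := x.isPrime.mem_of_pow_mem 3 h3
  have h4 : gen (JS α β γ δ) 1 ^ 2 ∈
      (ProjectiveSpectrum.asHomogeneousIdeal (𝒜 := qgrad (JS α β γ δ).toIdeal) x).toIdeal := by
    have e : gen (JS α β γ δ) 1 ^ 2 = (-(gen (JS α β γ δ) 1 + gen (JS α β γ δ) 0)) *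
      gen (JS α β γ δ) 0 + (-(algebraMap ℂ _ α * gen (JS α β γ δ) 3)) * gen (JS α β γ δ) 3 := by
      linear_combination hq
    rw [e]
    exact Ideal.add_mem _ (Ideal.mul_mem_left _ _ h0) (Ideal.mul_mem_left _ _ h2)
  have h5 := x.isPrime.mem_of_pow_mem 2 h4
  fin_cases c
  · exact hc h0
  · exact hc h5
  · exact hc h1
  · exact hc h2

/-- **The cubic has genus one.** -/
theorem genusE : HasGenus (V.str (JE α β γ δ)) 1 := by
  have hs : {p : ℤ × Fin 3 | p.1 < 0 ∧ 0 < p.1 + ((TE α β γ δ).d p.2 : ℤ)} =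
      (({(-1, 2)} : Finset (ℤ × Fin 3)) : Set (ℤ × Fin 3)) := by
    ext ⟨m, i⟩
    have h := i.isLt
    change (m < 0 ∧ 0 < m + ((i : ℕ) : ℤ)) ↔ _
    simp only [Finset.coe_singleton, Set.mem_singleton_iff, Prod.mk.injEq, Fin.ext_iff]
    change _ ↔ (m = -1 ∧ (i : ℕ) = 2)
    omega
  refine hasGenus (TE α β γ δ) (covE α β γ δ) 1 ?_ ?_
  · rw [hs, Set.ncard_coe_finset]
    rfl
  · rw [hs]
    exact Finset.finite_toSet _

/-- **The curve `S` has arithmetic genus four.** -/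
theorem genusS : HasGenus (V.str (JS α β γ δ)) 4 := by
  have hs : {p : ℤ × (Fin 3 × Fin 2) | p.1 < 0 ∧ 0 < p.1 + ((TS α β γ δ).d p.2 : ℤ)} =
      (({(-1, (1, 1)), (-1, (2, 0)), (-1, (2, 1)), (-2, (2, 1))} :
        Finset (ℤ × (Fin 3 × Fin 2))) : Set (ℤ × (Fin 3 × Fin 2))) := by
    ext ⟨m, i, j⟩
    have h := i.isLt
    have h' := j.isLt
    change (m < 0 ∧ 0 < m + (((i : ℕ) + (j : ℕ) : ℕ) : ℤ)) ↔ _
    simp only [Finset.coe_insert, Finset.coe_singleton, Set.mem_insert_iff,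
      Set.mem_singleton_iff, Prod.mk.injEq, Fin.ext_iff]
    change _ ↔ ((m = -1 ∧ (i : ℕ) = 1 ∧ (j : ℕ) = 1) ∨ (m = -1 ∧ (i : ℕ) = 2 ∧ (j : ℕ) = 0) ∨
      (m = -1 ∧ (i : ℕ) = 2 ∧ (j : ℕ) = 1) ∨ (m = -2 ∧ (i : ℕ) = 2 ∧ (j : ℕ) = 1))
    omega
  refine hasGenus (TS α β γ δ) (covS α β γ δ) 4 ?_ ?_
  · rw [hs, Set.ncard_coe_finset]
    rfl
  · rw [hs]
    exact Finset.finite_toSet _

end polys

end Pool.Agent.Q79.QD
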