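import Pool.Agent.Q79.QD.SmoothE

/-!
Smoothness of the plane cubics and of one curve `S`: the computations.
-/

set_option autoImplicit false

open AlgebraicGeometry CategoryTheory Limits

namespace Pool.Agent.Q79.QD

section abs

variable {R : Type} [CommRing R] [Algebra ℂ R] {M : Type} [AddCommGroup M] [Module R M]
  (D : R →+ M) (hL : ∀ x y, D (x * y) = x • D y + y • D x)
  (hC : ∀ c : ℂ, D (algebraMap ℂ _ c) = 0)

include hL hC

lemma derZ (x t : R) (α β γ δ : ℂ)
    (h : x ^ 3 + algebraMap ℂ _ α * x + (algebraMap ℂ _ β + algebraMap ℂ _ γ * t ^ 2 +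
      algebraMap ℂ _ δ * t ^ 3) = 0) :
    (3 * x ^ 2 + algebraMap ℂ _ α) • D x +
      (2 * algebraMap ℂ _ γ * t + 3 * algebraMap ℂ _ δ * t ^ 2) • D t = 0 := by
  have h1 := congrArg D h
  rw [map_zero] at h1
  simp only [pow_succ, pow_zero, one_mul, map_add, hL, hC] at h1
  rw [← h1]
  module

lemma derY (x t : R) (α β γ δ : ℂ)
    (h : x ^ 3 + algebraMap ℂ _ α * t ^ 2 * x + (algebraMap ℂ _ β * t ^ 3 +
      algebraMap ℂ _ γ * t + algebraMap ℂ _ δ) = 0) :
    (3 * x ^ 2 + algebraMap ℂ _ α * t ^ 2) • D x +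
      (2 * algebraMap ℂ _ α * t * x + 3 * algebraMap ℂ _ β * t ^ 2 + algebraMap ℂ _ γ) • D t = 0 := by
  have h1 := congrArg D h
  rw [map_zero] at h1
  simp only [pow_succ, pow_zero, one_mul, map_add, hL, hC] at h1
  rw [← h1]
  module

lemma derQZ (x y : R) (α : ℂ) (h : y ^ 2 + x * y + x ^ 2 + algebraMap ℂ _ α = 0) :
    (2 * x + y) • D x + (2 * y + x) • D y = 0 := by
  have h1 := congrArg D h
  rw [map_zero] at h1
  simp only [pow_succ, pow_zero, one_mul, map_add, hL, hC] at h1
  rw [← h1]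
  module

lemma derQY (x y t : R) (α : ℂ) (h : y ^ 2 + x * y + x ^ 2 + algebraMap ℂ _ α * t ^ 2 = 0) :
    (2 * x + y) • D x + (2 * y + x) • D y + (2 * algebraMap ℂ _ α * t) • D t = 0 := by
  have h1 := congrArg D h
  rw [map_zero] at h1
  simp only [pow_succ, pow_zero, one_mul, map_add, hL, hC] at h1
  rw [← h1]
  module

end abs

section smul

variable {R : Type} [CommRing R] {M : Type} [AddCommGroup M] [Module R M]

lemma smul_zero_of_dvd {g : R} (hg : ∀ m : M, g • m = 0 → m = 0) (a b : R) (hab : g = b * a)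
    {m : M} (h : a • m = 0) : m = 0 := by
  apply hg
  rw [hab, mul_smul, h, smul_zero]

lemma const_smul [Algebra ℂ R] (c : ℂ) (hc : c ≠ 0) {m : M} (h : algebraMap ℂ R c • m = 0) :
    m = 0 := by
  have h2 := congrArg (fun m => (algebraMap ℂ R c⁻¹) • m) h
  simp only [smul_zero] at h2
  rw [← mul_smul, ← map_mul, inv_mul_cancel₀ hc, map_one, one_smul] at h2
  exact h2

end smul

section E

variable {R : Type} [CommRing R] [IsDomain R] [Algebra ℂ R] {α β : ℂ}

/-- derivations of `R` are determined by their values at `x` and `t` -/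
def Gen2 (x t : R) : Prop :=
  ∀ (M : Type) [AddCommGroup M] [Module R M] (D : R →+ M),
    (∀ x y, D (x * y) = x • D y + y • D x) → (∀ c : ℂ, D (algebraMap ℂ _ c) = 0) →
    D x = 0 → D t = 0 → ∀ z, D z = 0

/-- derivations of `R` are determined by their values at `x`, `y` and `t` -/
def Gen3 (x y t : R) : Prop :=
  ∀ (M : Type) [AddCommGroup M] [Module R M] (D : R →+ M),
    (∀ x y, D (x * y) = x • D y + y • D x) → (∀ c : ℂ, D (algebraMap ℂ _ c) = 0) →
    D x = 0 → D y = 0 → D t = 0 → ∀ z, D z = 0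

theorem smooth_pair (hft : Algebra.FiniteType ℂ R) (x t p q : R) (hx : Transcendental ℂ x)
    (ht : Transcendental ℂ t) (hgen : Gen2 x t)
    (hder : ∀ (M : Type) [AddCommGroup M] [Module R M] (D : R →+ M),
      (∀ x y, D (x * y) = x • D y + y • D x) → (∀ c : ℂ, D (algebraMap ℂ _ c) = 0) →
      p • D x + q • D t = 0)
    (htop : ∀ (F : Type) [Field F] [Algebra ℂ F] (φ : R →ₐ[ℂ] F), φ p = 0 → φ q = 0 → False) :
    SmoothOfRelativeDimension 1 (Spec.map (CommRingCat.ofHom (algebraMap ℂ R))) := by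
  apply smooth_loc hft (fun b : Bool => if b then p else q) (fun b : Bool => if b then t else x)
  · intro F _ _ φ h
    exact htop F φ (h true) (h false)
  · intro b
    cases b
    · exact hx
    · exact ht
  · intro b M _ _ D hL hC hg hs
    have hd := hder M D hL hC
    cases b
    · have hs' : D x = 0 := hs
      rw [hs', smul_zero, zero_add] at hd
      exact hgen M D hL hC hs' (hg _ hd)
    · have hs' : D t = 0 := hs
      rw [hs', smul_zero, add_zero] at hd
      exact hgen M D hL hC (hg _ hd) hs'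

lemma F_ne (F : Type) [Field F] [Algebra ℂ F] (c : ℂ) (hc : c ≠ 0) : algebraMap ℂ F c ≠ 0 := by
  rw [Ne, map_eq_zero]
  exact hc

lemma F_two (F : Type) [Field F] [Algebra ℂ F] : (2 : F) ≠ 0 := by
  have h := F_ne F 2 two_ne_zero
  rwa [map_ofNat] at h

lemma F_three (F : Type) [Field F] [Algebra ℂ F] : (3 : F) ≠ 0 := by
  have h := F_ne F 3 three_ne_zero
  rwa [map_ofNat] at h

theorem smooth_Z1 (hft : Algebra.FiniteType ℂ R) (x t : R) (hx : Transcendental ℂ x)
    (ht : Transcendental ℂ t) (hgen : Gen2 x t) (hΔ : 4 * α ^ 3 + 27 * β ^ 2 ≠ 0)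
    (hrel : x ^ 3 + algebraMap ℂ _ α * x + (algebraMap ℂ _ β + algebraMap ℂ _ (-1) * t ^ 2 +
      algebraMap ℂ _ 0 * t ^ 3) = 0) :
    SmoothOfRelativeDimension 1 (Spec.map (CommRingCat.ofHom (algebraMap ℂ R))) := by
  apply smooth_pair hft x t _ _ hx ht hgen
    (fun M _ _ D hL hC => derZ D hL hC x t α β (-1) 0 hrel)
  intro F _ _ φ h0 h1
  have h2 := congrArg φ hrel
  simp only [map_add, map_mul, map_pow, AlgHom.commutes, map_zero, map_ofNat, map_neg, map_one]
    at h0 h1 h2
  have h1' : φ t = 0 := by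
    have : (2 : F) * φ t = 0 := by linear_combination -h1
    exact (mul_eq_zero.1 this).resolve_left (F_two F)
  rw [h1'] at h2
  apply F_ne F _ hΔ
  simp only [map_add, map_mul, map_pow, map_ofNat]
  have e1 : 2 * algebraMap ℂ F α * φ x + 3 * algebraMap ℂ F β = 0 := by
    linear_combination 3 * h2 - φ x * h0
  linear_combination (9 * algebraMap ℂ F β - 6 * algebraMap ℂ F α * φ x) * e1 +
    4 * algebraMap ℂ F α ^ 2 * h0

theorem smooth_Y1 (hft : Algebra.FiniteType ℂ R) (x t : R) (hx : Transcendental ℂ x)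
    (ht : Transcendental ℂ t) (hgen : Gen2 x t)
    (hrel : x ^ 3 + algebraMap ℂ _ α * t ^ 2 * x + (algebraMap ℂ _ β * t ^ 3 +
      algebraMap ℂ _ (-1) * t + algebraMap ℂ _ 0) = 0) :
    SmoothOfRelativeDimension 1 (Spec.map (CommRingCat.ofHom (algebraMap ℂ R))) := by
  apply smooth_pair hft x t _ _ hx ht hgen
    (fun M _ _ D hL hC => derY D hL hC x t α β (-1) 0 hrel)
  intro F _ _ φ h0 h1
  have h2 := congrArg φ hrel
  simp only [map_add, map_mul, map_pow, AlgHom.commutes, map_zero, map_ofNat, map_neg, map_one]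
    at h0 h1 h2
  have h3 : (2 : F) * φ t = 0 := by
    linear_combination (φ x) * h0 + (φ t) * h1 - 3 * h2
  have h4 : φ t = 0 := (mul_eq_zero.1 h3).resolve_left (F_two F)
  rw [h4] at h1
  simp at h1

theorem smooth_Z2 (hft : Algebra.FiniteType ℂ R) (x t : R) (hx : Transcendental ℂ x)
    (ht : Transcendental ℂ t) (hgen : Gen2 x t) (hα : α ≠ 0)
    (hrel : x ^ 3 + algebraMap ℂ _ α * x + (algebraMap ℂ _ 0 + algebraMap ℂ _ 0 * t ^ 2 +
      algebraMap ℂ _ 1 * t ^ 3) = 0) :
    SmoothOfRelativeDimension 1 (Spec.map (CommRingCat.ofHom (algebraMap ℂ R))) := by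
  apply smooth_pair hft x t _ _ hx ht hgen
    (fun M _ _ D hL hC => derZ D hL hC x t α 0 0 1 hrel)
  intro F _ _ φ h0 h1
  have h2 := congrArg φ hrel
  simp only [map_add, map_mul, map_pow, AlgHom.commutes, map_zero, map_ofNat, map_neg, map_one]
    at h0 h1 h2
  have h1' : φ t = 0 := by
    have : (3 : F) * φ t ^ 2 = 0 := by linear_combination h1
    exact pow_eq_zero_iff two_ne_zero |>.1 ((mul_eq_zero.1 this).resolve_left (F_three F))
  rw [h1'] at h2
  have h3 : (2 * algebraMap ℂ F α) * φ x = 0 := by linear_combination 3 * h2 - φ x * h0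
  have h4 : φ x = 0 := (mul_eq_zero.1 h3).resolve_left
    (mul_ne_zero (F_two F) (F_ne F α hα))
  rw [h4] at h0
  apply F_ne F α hα
  linear_combination h0

theorem smooth_Y2 (hft : Algebra.FiniteType ℂ R) (x t : R) (hx : Transcendental ℂ x)
    (ht : Transcendental ℂ t) (hgen : Gen2 x t) (hα : α ≠ 0)
    (hrel : x ^ 3 + algebraMap ℂ _ α * t ^ 2 * x + (algebraMap ℂ _ 0 * t ^ 3 +
      algebraMap ℂ _ 0 * t + algebraMap ℂ _ 1) = 0) :
    SmoothOfRelativeDimension 1 (Spec.map (CommRingCat.ofHom (algebraMap ℂ R))) := by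
  apply smooth_pair hft x t _ _ hx ht hgen
    (fun M _ _ D hL hC => derY D hL hC x t α 0 0 1 hrel)
  intro F _ _ φ h0 h1
  have h2 := congrArg φ hrel
  simp only [map_add, map_mul, map_pow, AlgHom.commutes, map_zero, map_ofNat, map_neg, map_one]
    at h0 h1 h2
  have hx0 : φ x ≠ 0 := by
    intro h
    rw [h] at h2
    simp at h2
  have ht0 : φ t = 0 := by
    have : (2 * algebraMap ℂ F α * φ x) * φ t = 0 := by linear_combination h1
    exact (mul_eq_zero.1 this).resolve_left
      (mul_ne_zero (mul_ne_zero (F_two F) (F_ne F α hα)) hx0)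
  rw [ht0] at h0
  have : (3 : F) * φ x ^ 2 = 0 := by linear_combination h0
  exact hx0 (pow_eq_zero_iff two_ne_zero |>.1 ((mul_eq_zero.1 this).resolve_left (F_three F)))

end E

section S

variable {R : Type} [CommRing R] [IsDomain R] [Algebra ℂ R] {α : ℂ}

theorem smooth_SZ2 (hft : Algebra.FiniteType ℂ R) (x y t : R) (hx : Transcendental ℂ x)
    (hy : Transcendental ℂ y) (ht : Transcendental ℂ t) (hgen : Gen3 x y t) (hα : α ≠ 0)
    (hrel : x ^ 3 + algebraMap ℂ _ α * x + (algebraMap ℂ _ 0 + algebraMap ℂ _ 0 * t ^ 2 +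
      algebraMap ℂ _ 1 * t ^ 3) = 0) (hq : y ^ 2 + x * y + x ^ 2 + algebraMap ℂ _ α = 0) :
    SmoothOfRelativeDimension 1 (Spec.map (CommRingCat.ofHom (algebraMap ℂ R))) := by
  apply smooth_loc hft ![(2 * y + x) * t ^ 2, (2 * x + y) * t ^ 2,
    (2 * y + x) * (3 * x ^ 2 + algebraMap ℂ _ α)] ![x, y, t]
  · intro F _ _ φ h
    have h0 : φ ((2 * y + x) * t ^ 2) = 0 := h 0
    have h1 : φ ((2 * x + y) * t ^ 2) = 0 := h 1
    have h2 : φ ((2 * y + x) * (3 * x ^ 2 + algebraMap ℂ _ α)) = 0 := h 2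
    have h3 := congrArg φ hrel
    have h4 := congrArg φ hq
    simp only [map_add, map_mul, map_pow, AlgHom.commutes, map_zero, map_ofNat, map_neg, map_one]
      at h0 h1 h2 h3 h4
    have ha := F_ne F α hα
    generalize φ x = X at *
    generalize φ y = Y at *
    generalize φ t = T at *
    generalize algebraMap ℂ F α = a at *
    have e2 := F_two F
    have e3 := F_three F
    by_cases hT : T = 0
    · rw [hT] at h3
      have h5 : X * (X ^ 2 + a) = 0 := by linear_combination h3
      have hXY : X = 0 → 2 * Y + X = 0 → False := by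
        intro h6 h7
        rw [h6] at h7 h4
        have h8 : Y = 0 := (mul_eq_zero.1 (by linear_combination h7 : 2 * Y = 0)).resolve_left e2
        rw [h8] at h4
        exact ha (by linear_combination h4)
      rcases mul_eq_zero.1 h2 with h6 | h6
      · rcases mul_eq_zero.1 h5 with h7 | h7
        · exact hXY h7 h6
        · apply ha
          linear_combination 4 * h4 - 3 * h7 - (2 * Y + X) * h6
      · rcases mul_eq_zero.1 h5 with h7 | h7
        · rw [h7] at h6
          exact ha (by linear_combination h6)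
        · have : 2 * a = 0 := by linear_combination 3 * h7 - h6
          exact ha ((mul_eq_zero.1 this).resolve_left e2)
    · have hT2 : T ^ 2 ≠ 0 := pow_ne_zero 2 hT
      have h5 : 2 * Y + X = 0 := (mul_eq_zero.1 h0).resolve_right hT2
      have h6 : 2 * X + Y = 0 := (mul_eq_zero.1 h1).resolve_right hT2
      have h7 : Y = 0 := (mul_eq_zero.1 (by linear_combination 2 * h5 - h6 : 3 * Y = 0)).resolve_left e3
      have h8 : X = 0 := by rw [h7] at h5; linear_combination h5
      rw [h7, h8] at h4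
      exact ha (by linear_combination h4)
  · intro i
    fin_cases i
    · exact hx
    · exact hy
    · exact ht
  · intro i M _ _ D hL hC hg hs
    have hd1 := derZ D hL hC x t α 0 0 1 hrel
    have hd2 := derQZ D hL hC x y α hq
    have e : (2 * algebraMap ℂ R 0 * t + 3 * algebraMap ℂ R 1 * t ^ 2) =
      algebraMap ℂ R 3 * t ^ 2 := by
      rw [map_zero, map_one, map_ofNat]
      ring
    rw [e, mul_smul] at hd1
    fin_cases i
    · have hs' : D x = 0 := hs
      have hg' : ∀ m : M, ((2 * y + x) * t ^ 2) • m = 0 → m = 0 := hg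
      rw [hs', smul_zero, zero_add] at hd1 hd2
      exact hgen M D hL hC hs' (smul_zero_of_dvd hg' (2 * y + x) (t ^ 2) (mul_comm _ _) hd2)
        (smul_zero_of_dvd hg' (t ^ 2) (2 * y + x) rfl (const_smul 3 three_ne_zero hd1))
    · have hs' : D y = 0 := hs
      have hg' : ∀ m : M, ((2 * x + y) * t ^ 2) • m = 0 → m = 0 := hg
      rw [hs', smul_zero, add_zero] at hd2
      have h5 := smul_zero_of_dvd hg' (2 * x + y) (t ^ 2) (mul_comm _ _) hd2
      rw [h5, smul_zero, zero_add] at hd1
      exact hgen M D hL hC h5 hs'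
        (smul_zero_of_dvd hg' (t ^ 2) (2 * x + y) rfl (const_smul 3 three_ne_zero hd1))
    · have hs' : D t = 0 := hs
      have hg' : ∀ m : M, ((2 * y + x) * (3 * x ^ 2 + algebraMap ℂ _ α)) • m = 0 → m = 0 := hg
      rw [hs', smul_zero, smul_zero, add_zero] at hd1
      have h5 := smul_zero_of_dvd hg' (3 * x ^ 2 + algebraMap ℂ _ α) (2 * y + x) rfl hd1
      rw [h5, smul_zero, zero_add] at hd2
      exact hgen M D hL hC h5 (smul_zero_of_dvd hg' (2 * y + x) _ (mul_comm _ _) hd2) hs'

theorem smooth_SY2 (hft : Algebra.FiniteType ℂ R) (x y t : R) (hx : Transcendental ℂ x)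
    (hy : Transcendental ℂ y) (ht : Transcendental ℂ t) (hgen : Gen3 x y t) (hα : α ≠ 0)
    (hrel : x ^ 3 + algebraMap ℂ _ α * t ^ 2 * x + (algebraMap ℂ _ 0 * t ^ 3 +
      algebraMap ℂ _ 0 * t + algebraMap ℂ _ 1) = 0)
    (hq : y ^ 2 + x * y + x ^ 2 + algebraMap ℂ _ α * t ^ 2 = 0) :
    SmoothOfRelativeDimension 1 (Spec.map (CommRingCat.ofHom (algebraMap ℂ R))) := by
  apply smooth_loc hft ![(2 * y + x) * (x * t), (2 * x + y) * (2 * algebraMap ℂ _ α * t * x) -
      (2 * algebraMap ℂ _ α * t) * (3 * x ^ 2 + algebraMap ℂ _ α * t ^ 2),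
    (2 * y + x) * (3 * x ^ 2 + algebraMap ℂ _ α * t ^ 2)] ![x, y, t]
  · intro F _ _ φ h
    have h0 : φ ((2 * y + x) * (x * t)) = 0 := h 0
    have h1 : φ ((2 * x + y) * (2 * algebraMap ℂ _ α * t * x) -
      (2 * algebraMap ℂ _ α * t) * (3 * x ^ 2 + algebraMap ℂ _ α * t ^ 2)) = 0 := h 1
    have h2 : φ ((2 * y + x) * (3 * x ^ 2 + algebraMap ℂ _ α * t ^ 2)) = 0 := h 2
    have h3 := congrArg φ hrel
    have h4 := congrArg φ hq
    simp only [map_add, map_sub, map_mul, map_pow, AlgHom.commutes, map_zero, map_ofNat, map_neg,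
      map_one] at h0 h1 h2 h3 h4
    have ha := F_ne F α hα
    generalize φ x = X at *
    generalize φ y = Y at *
    generalize φ t = T at *
    generalize algebraMap ℂ F α = a at *
    have e2 := F_two F
    have e3 := F_three F
    have hX : X ≠ 0 := by
      rintro rfl
      simp at h3
    by_cases h5 : 2 * Y + X = 0
    · -- X = -2 Y
      have hX' : X = -2 * Y := by linear_combination h5
      have hY : Y ≠ 0 := by
        rintro rfl
        apply hX
        rw [hX', mul_zero]
      have h6 : a * T ^ 2 = -3 * Y ^ 2 := by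
        rw [hX'] at h4
        linear_combination h4
      have h7 : (-6 * a * T) * Y ^ 2 = 0 := by
        rw [hX'] at h1
        linear_combination h1 + (2 * a * T) * h6
      have h8 : T = 0 := by
        have h9 : -6 * a * T = 0 := (mul_eq_zero.1 h7).resolve_right (pow_ne_zero 2 hY)
        have h10 : (2 * 3 * a) * T = 0 := by linear_combination -h9
        exact (mul_eq_zero.1 h10).resolve_left (mul_ne_zero (mul_ne_zero e2 e3) ha)
      rw [h8] at h6
      have h9 : (3 : F) * Y ^ 2 = 0 := by linear_combination h6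
      exact hY (pow_eq_zero_iff two_ne_zero |>.1 ((mul_eq_zero.1 h9).resolve_left e3))
    · have h6 : X * T = 0 := (mul_eq_zero.1 h0).resolve_left h5
      have hT : T = 0 := (mul_eq_zero.1 h6).resolve_left hX
      have h7 := (mul_eq_zero.1 h2).resolve_left h5
      rw [hT] at h7
      have h9 : (3 : F) * X ^ 2 = 0 := by linear_combination h7
      exact hX (pow_eq_zero_iff two_ne_zero |>.1 ((mul_eq_zero.1 h9).resolve_left e3))
  · intro i
    fin_cases i
    · exact hx
    · exact hy
    · exact ht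
  · intro i M _ _ D hL hC hg hs
    have hd1 := derY D hL hC x t α 0 0 1 hrel
    have hd2 := derQY D hL hC x y t α hq
    have e : (2 * algebraMap ℂ R α * t * x + 3 * algebraMap ℂ R 0 * t ^ 2 + algebraMap ℂ R 0) =
      2 * algebraMap ℂ R α * t * x := by
      rw [map_zero]
      ring
    rw [e] at hd1
    fin_cases i
    · have hs' : D x = 0 := hs
      have hg' : ∀ m : M, ((2 * y + x) * (x * t)) • m = 0 → m = 0 := hg
      rw [hs', smul_zero, zero_add] at hd1 hd2
      have e5 : (2 * algebraMap ℂ R α * t * x) = algebraMap ℂ R (2 * α) * (x * t) := by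
        rw [map_mul, map_ofNat]
        ring
      rw [e5, mul_smul] at hd1
      have h5 := smul_zero_of_dvd hg' (x * t) (2 * y + x) rfl
        (const_smul (2 * α) (mul_ne_zero two_ne_zero hα) hd1)
      rw [h5, smul_zero, add_zero] at hd2
      exact hgen M D hL hC hs' (smul_zero_of_dvd hg' (2 * y + x) _ (mul_comm _ _) hd2) h5
    · have hs' : D y = 0 := hs
      have hg' : ∀ m : M, ((2 * x + y) * (2 * algebraMap ℂ _ α * t * x) -
        (2 * algebraMap ℂ _ α * t) * (3 * x ^ 2 + algebraMap ℂ _ α * t ^ 2)) • m = 0 → m = 0 := hg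
      rw [hs', smul_zero, add_zero] at hd2
      refine hgen M D hL hC ?_ hs' ?_
      · apply hg'
        have h5 := congrArg (fun m => (2 * algebraMap ℂ _ α * t * x) • m) hd2
        have h6 := congrArg (fun m => (2 * algebraMap ℂ _ α * t) • m) hd1
        simp only [smul_zero] at h5 h6
        rw [← sub_zero (0 : M)]
        nth_rewrite 1 [← h5]
        rw [← h6]
        module
      · apply hg'
        have h5 := congrArg (fun m => (3 * x ^ 2 + algebraMap ℂ _ α * t ^ 2) • m) hd2
        have h6 := congrArg (fun m => (2 * x + y) • m) hd1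
        simp only [smul_zero] at h5 h6
        rw [← sub_zero (0 : M)]
        nth_rewrite 1 [← h6]
        rw [← h5]
        module
    · have hs' : D t = 0 := hs
      have hg' : ∀ m : M, ((2 * y + x) * (3 * x ^ 2 + algebraMap ℂ _ α * t ^ 2)) • m = 0 → m = 0 :=
        hg
      rw [hs', smul_zero, add_zero] at hd1 hd2
      have h5 := smul_zero_of_dvd hg' (3 * x ^ 2 + algebraMap ℂ _ α * t ^ 2) (2 * y + x) rfl hd1
      rw [h5, smul_zero, zero_add] at hd2
      exact hgen M D hL hC h5 (smul_zero_of_dvd hg' (2 * y + x) _ (mul_comm _ _) hd2) hs'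

end S

section final

open Pool.Agent.Helper304.Ses Pool.Agent.H666R3.NG Pool.Agent.Helper198.Sch

attribute [local instance] MvPolynomial.gradedAlgebra

lemma gen_E (J : HI (Fin 3) ℂ) (c c' : Fin 3) (h : ∀ a, a = 0 ∨ a = c ∨ a = c') :
    Gen2 (frac J c 0) (frac J c c') := by
  intro M _ _ D hL hC h1 h2 z
  apply der_zero D hL hC
  intro a
  rcases h a with rfl | rfl | rfl
  · exact h1
  · rw [frac_self, ← map_one (algebraMap ℂ (Ch J a)), hC]
  · exact h2

lemma gen_S (J : HI (Fin 4) ℂ) (c c' : Fin 4) (h : ∀ a, a = 0 ∨ a = 1 ∨ a = c ∨ a = c') :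
    Gen3 (frac J c 0) (frac J c 1) (frac J c c') := by
  intro M _ _ D hL hC h1 h2 h3 z
  apply der_zero D hL hC
  intro a
  rcases h a with rfl | rfl | rfl | rfl
  · exact h1
  · exact h2
  · rw [frac_self, ← map_one (algebraMap ℂ (Ch J a)), hC]
  · exact h3

/-- The Weierstrass cubic is smooth. -/
theorem smoothE_one {α β : ℂ} (hα : α ≠ 0) (hΔ : 4 * α ^ 3 + 27 * β ^ 2 ≠ 0) :
    SmoothOfRelativeDimension 1 (V.str (JE α β (-1) 0)) := by
  have hG : Good α β (-1) 0 := good_one hα
  have := hG.domE2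
  have := hG.domE1
  exact smooth_two (covE α β (-1) 0)
    (smooth_Z1 finiteType_Ch _ _ (xtE2 hG) (tE2 hG) (gen_E _ 2 1 (by decide)) hΔ
      (relE2 α β (-1) 0))
    (smooth_Y1 finiteType_Ch _ _ (xtE1 hG) (tE1 hG) (gen_E _ 1 2 (by decide))
      (relE1 α β (-1) 0))

/-- The cubic `X³ + α X Z² + Y³ = 0` is smooth. -/
theorem smoothE_two {α : ℂ} (hα : α ≠ 0) :
    SmoothOfRelativeDimension 1 (V.str (JE α 0 0 1)) := by
  have hG : Good α 0 0 1 := good_two hα
  have := hG.domE2
  have := hG.domE1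
  exact smooth_two (covE α 0 0 1)
    (smooth_Z2 finiteType_Ch _ _ (xtE2 hG) (tE2 hG) (gen_E _ 2 1 (by decide)) hα
      (relE2 α 0 0 1))
    (smooth_Y2 finiteType_Ch _ _ (xtE1 hG) (tE1 hG) (gen_E _ 1 2 (by decide)) hα
      (relE1 α 0 0 1))

/-- The curve `S` over the cubic `X³ + α X Z² + Y³ = 0` is smooth. -/
theorem smoothS_two {α : ℂ} (hα : α ≠ 0) :
    SmoothOfRelativeDimension 1 (V.str (JS α 0 0 1)) := by
  have hG : Good α 0 0 1 := good_two hα
  have := hG.domS3
  have := hG.domS2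
  exact smooth_two (covS α 0 0 1)
    (smooth_SZ2 finiteType_Ch _ _ _ (x1tS3 hG) (x2tS3 hG) (tS3 hG) (gen_S _ 3 2 (by decide)) hα
      (relS3 α 0 0 1) (relQ3 α 0 0 1))
    (smooth_SY2 finiteType_Ch _ _ _ (x1tS2 hG) (x2tS2 hG) (tS2 hG) (gen_S _ 2 3 (by decide)) hα
      (relS2 α 0 0 1) (relQ2 α 0 0 1))

end final

end Pool.Agent.Q79.QD
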