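import Pool.Agent.Q79.QD.Closed
import Pool.Agent.Q79.QD.SmoothF

/-!
Complex points of projective schemes.
-/

set_option autoImplicit false

open AlgebraicGeometry CategoryTheory Limits MvPolynomial

namespace Pool.Agent.Q79.QD

open Pool.Agent.Helper304.Ses Pool.Agent.H666R3.NG Pool.Agent.Helper198.Sch

attribute [local instance] MvPolynomial.gradedAlgebra

section point

variable {σ : Type} (J : HI σ ℂ) (c : σ)

/-- the complex point of the chart `x_c ≠ 0` given by a homomorphism of algebras -/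
noncomputable def ptC (φ : Ch J c →ₐ[ℂ] ℂ) : SpecC ⟶ V J :=
  Spec.map (CommRingCat.ofHom φ.toRingHom) ≫ V.chart J c

lemma ptC_str (φ : Ch J c →ₐ[ℂ] ℂ) : ptC J c φ ≫ V.str J = 𝟙 SpecC := by
  unfold ptC
  rw [Category.assoc, V.chart_str, ← Spec.map_comp, ← CommRingCat.ofHom_comp]
  have h : φ.toRingHom.comp (algebraMap ℂ (Ch J c)) = RingHom.id ℂ := by
    ext z
    exact φ.commutes z
  rw [h]
  exact Spec.map_id _

/-- The complex point with homogeneous coordinates `u`, where `u c = 1`. -/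
noncomputable def pt (u : σ → ℂ) (hc : u c = 1) (hu : ∀ f ∈ J.toIdeal, aeval u f = 0) :
    SpecC ⟶ V J :=
  ptC J c (chLift J c u hc hu)

lemma pt_str (u : σ → ℂ) (hc : u c = 1) (hu : ∀ f ∈ J.toIdeal, aeval u f = 0) :
    pt J c u hc hu ≫ V.str J = 𝟙 SpecC := ptC_str J c _

end point

end Pool.Agent.Q79.QD
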