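import Pool.Agent.Q79.QD.CurveDefs

/-!
# Restricted quasi-diagonals: definitions

The group of complex points of the elliptic curve `y² = x³ + α x + β` is Mathlib's
`WeierstrassCurve.Affine.Point`.
-/

set_option autoImplicit false

open AlgebraicGeometry CategoryTheory WeierstrassCurve.Affine

namespace Pool.Agent.Q79.QD

/-- The Weierstrass curve `y² = x³ + α x + β` over the complex numbers. -/
def WE (α β : ℂ) : WeierstrassCurve.Affine ℂ where
  a₁ := 0
  a₂ := 0
  a₃ := 0
  a₄ := α
  a₆ := β

/-- `E` is the elliptic curve with the affine equation `W` and the point `o` at infinity: a smooth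
projective integral complex curve of genus one, with an open immersion `a : W ⟶ E` over `ℂ` of the
affine curve (the spectrum of Mathlib's coordinate ring `ℂ[x, y] / (W)`) whose image is the
complement of the complex point `o`. -/
structure IsModel (W : WeierstrassCurve.Affine ℂ) {E : Scheme.{0}} (sE : E ⟶ Cpt) (o : Cpt ⟶ E)
    (a : Spec (.of W.CoordinateRing) ⟶ E) : Prop where
  curve : IsSmoothCurve sE 1
  over_o : o ≫ sE = 𝟙 Cpt
  over_a : a ≫ sE = Spec.map (CommRingCat.ofHom (algebraMap ℂ W.CoordinateRing))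
  openImm : IsOpenImmersion a
  compl : ∀ x : E, x ∈ Set.range a ↔ x ∉ Set.range o

/-- The complex point `s` of `E` corresponds to the point `P` of the Weierstrass curve `W`: `s` is
the point `o` if `P` is the point at infinity, and it is the point of the affine curve with the
coordinates `x`, `y` if `P = (x, y)`. -/
def IsPt (W : WeierstrassCurve.Affine ℂ) {E : Scheme.{0}} (o : Cpt ⟶ E)
    (a : Spec (.of W.CoordinateRing) ⟶ E) (s : Cpt ⟶ E) : W.Point → Prop
  | .zero => s = o
  | .some x y _ => ∃ φ : W.CoordinateRing →ₐ[ℂ] ℂ,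
      φ (CoordinateRing.mk W (Polynomial.C Polynomial.X)) = x ∧
      φ (CoordinateRing.mk W Polynomial.X) = y ∧
      s = Spec.map (CommRingCat.ofHom φ.toRingHom) ≫ a

open Classical in
/-- The subscheme `j : S ⟶ E ^ n` is restricted: the sum `p_1 (s) + ... + p_n (s)` in the group of
points of the Weierstrass curve `W` is the same point `Q` for all complex points `s` of `S`. -/
def IsRestricted (W : WeierstrassCurve.Affine ℂ) {E S : Scheme.{0}} (sE : E ⟶ Cpt) (o : Cpt ⟶ E)
    (a : Spec (.of W.CoordinateRing) ⟶ E) (n : ℕ) (j : S ⟶ (pwr sE n).left) : Prop :=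
  ∃ Q : W.Point, ∀ s : Cpt ⟶ S, s ≫ j ≫ (pwr sE n).hom = 𝟙 Cpt →
    ∃ P : Fin n → W.Point, (∀ i, IsPt W o a (s ≫ j ≫ pr sE n i) (P i)) ∧ ∑ i, P i = Q

end Pool.Agent.Q79.QD
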