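import Pool.Agent.Q79.QD.Weier

/-!
Restricted quasi-diagonals.
-/

set_option autoImplicit false

open AlgebraicGeometry CategoryTheory Limits MvPolynomial

namespace Pool.Agent.Q79.QD

open Pool.Agent.Helper304.Ses Pool.Agent.H666R3.NG Pool.Agent.Helper198.Sch

attribute [local instance] MvPolynomial.gradedAlgebra

/-- The complex point `s` of the projective scheme `V J ⊂ ℙ` has the homogeneous coordinates `u`:
it lies in a chart `x_c ≠ 0`, and `x_a / x_c` has the value `u a / u c` at `s` for all `a`. -/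
def HasCoords {σ : Type} (J : HI σ ℂ) (s : SpecC ⟶ V J) (u : σ → ℂ) : Prop :=
  ∃ (c : σ) (φ : Ch J c →+* ℂ), u c ≠ 0 ∧ s = Spec.map (CommRingCat.ofHom φ) ≫ V.chart J c ∧
    ∀ a, u a = u c * φ (frac J c a)

/-- The homogeneous coordinates `(x : y : 1)`, or `(0 : 1 : 0)` for the point at infinity, of a point
of the Weierstrass curve `y² = x³ + α x + β`. -/
def coords {α β : ℂ} : (WE α β).Point → Fin 3 → ℂ
  | .zero => ![0, 1, 0]
  | .some x y _ => ![x, y, 1]

section pts

variable {α β : ℂ}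

lemma ringHom_const {σ : Type} {J : HI σ ℂ} {c : σ} {φ : Ch J c →+* ℂ} {s : SpecC ⟶ V J}
    (hs : s ≫ V.str J = 𝟙 SpecC) (h : s = Spec.map (CommRingCat.ofHom φ) ≫ V.chart J c) (z : ℂ) :
    φ (algebraMap ℂ _ z) = z := by
  rw [h, Category.assoc, V.chart_str, ← Spec.map_comp] at hs
  have h2 : CommRingCat.ofHom (algebraMap ℂ (Ch J c)) ≫ CommRingCat.ofHom φ =
      𝟙 (CommRingCat.of ℂ) := by
    apply Spec.map_injective
    rw [hs, Spec.map_id]
  exact congrArg (fun t => t.hom z) h2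

lemma pt_rel {x y : ℂ} (h : (WE α β).Equation x y) :
    ∀ f ∈ (JE α β (-1) 0).toIdeal, aeval (![x, y, 1] : Fin 3 → ℂ) f = 0 := by
  apply aeval_ofSet
  rintro f rfl
  rw [WE_eq] at h
  unfold cubE
  simp only [map_add, map_mul, map_pow, aeval_X, aeval_C, Matrix.cons_val_zero,
    Matrix.cons_val_one, Matrix.cons_val]
  simp only [Algebra.algebraMap_self, RingHom.id_apply]
  linear_combination -h

theorem isPt_of_hasCoords (s : SpecC ⟶ V (JE α β (-1) 0)) (hs : s ≫ V.str _ = 𝟙 SpecC)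
    (P : (WE α β).Point) (h : HasCoords (JE α β (-1) 0) s (coords P)) :
    IsPt (WE α β) (oW α β) (aW α β) s P := by
  obtain ⟨c, φ, hc, hs', hu⟩ := h
  have hφ := ringHom_const hs hs'
  cases P with
  | zero =>
    change s = oW α β
    have hc1 : c = 1 := by
      fin_cases c
      · exact absurd rfl hc
      · rfl
      · exact absurd rfl hc
    subst hc1
    rw [hs']
    unfold oW pt ptC
    congr 3
    apply ch_ringHom_ext
    · intro r
      rw [hφ]
      exact ((ψo α β).commutes r).symm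
    · intro a
      have h1 := hu a
      change (![0, 1, 0] : Fin 3 → ℂ) a = 1 * φ (frac _ 1 a) at h1
      rw [one_mul] at h1
      exact h1.symm.trans (ψo_frac α β a).symm
  | some x y hn =>
    let ψ' : Ch (JE α β (-1) 0) 2 →ₐ[ℂ] ℂ := chLift _ 2 ![x, y, 1] rfl (pt_rel hn.1)
    have hψ : ∀ a, ψ' (frac _ 2 a) = (![x, y, 1] : Fin 3 → ℂ) a := fun a => chLift_frac _ _ _ _ _ a
    refine ⟨ψ'.comp (bwdW α β), ?_, ?_, ?_⟩
    · change ψ' (bwdW α β (xW α β)) = x
      rw [bwdW_x, hψ]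
      rfl
    · change ψ' (bwdW α β (yW α β)) = y
      rw [bwdW_y, hψ]
      rfl
    · rw [hs']
      have h1 : Spec.map (CommRingCat.ofHom (ψ'.comp (bwdW α β)).toRingHom) ≫ aW α β =
          Spec.map (CommRingCat.ofHom ψ'.toRingHom) ≫ V.chart _ 2 := by
        unfold aW
        rw [← Category.assoc, ← Spec.map_comp, ← CommRingCat.ofHom_comp]
        congr 3
        apply RingHom.ext
        intro z
        change ψ' (bwdW α β (fwdW α β z)) = ψ' z
        rw [show bwdW α β (fwdW α β z) = z from (eqvW α β).left_inv z]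
      rw [h1]
      have hc' : φ (frac _ c 2) = (coords (WeierstrassCurve.Affine.Point.some x y hn) c)⁻¹ := by
        have h2 := hu 2
        change (1 : ℂ) = _ at h2
        exact eq_inv_of_mul_eq_one_right h2.symm
      apply chart_eq
      · intro z
        rw [hφ]
        exact (ψ'.commutes z).symm
      · intro a
        have h2 := hu a
        rw [hc']
        change _ = _ * ψ' (frac _ 2 a)
        rw [hψ]
        have h3 : (![x, y, 1] : Fin 3 → ℂ) a =
          coords (WeierstrassCurve.Affine.Point.some x y hn) a := rfl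
        rw [h3, h2, inv_mul_cancel_left₀ hc]

end pts

section point

variable {σ I : Type} {J : HI σ ℂ} {e : I → σ}

/-- a complex point lies in a chart -/
lemma exists_chart (he : ∀ x : V J, ∃ i, x ∈ V.D J (e i)) (s : SpecC ⟶ V J)
    (hs : s ≫ V.str J = 𝟙 SpecC) :
    ∃ (i : I) (φ : Ch J (e i) →ₐ[ℂ] ℂ), s = Spec.map (CommRingCat.ofHom φ.toRingHom) ≫
      V.chart J (e i) := by
  let x0 : SpecC := (⟨⊥, Ideal.isPrime_bot⟩ : PrimeSpectrum ℂ)
  obtain ⟨i, hi⟩ := he (s x0)
  have hr : Set.range s ⊆ Set.range (V.chart J (e i)) := by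
    rintro _ ⟨y, rfl⟩
    have hy : y = x0 := Subsingleton.elim (α := PrimeSpectrum ℂ) y x0
    rw [hy, V.mem_range_chart]
    exact hi
  have h1 : IsOpenImmersion.lift (V.chart J (e i)) s hr ≫ V.chart J (e i) = s :=
    IsOpenImmersion.lift_fac _ _ _
  generalize IsOpenImmersion.lift (V.chart J (e i)) s hr = g at h1
  obtain ⟨φ, rfl⟩ := Spec.map_surjective g
  have h2 : CommRingCat.ofHom (algebraMap ℂ (Ch J (e i))) ≫ φ = 𝟙 (CommRingCat.of ℂ) := by
    apply Spec.map_injective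
    rw [Spec.map_comp, Spec.map_id, ← V.chart_str, ← Category.assoc, h1, hs]
  refine ⟨i, { φ.hom with commutes' := fun z => ?_ }, ?_⟩
  · exact congrArg (fun t => t.hom z) h2
  · exact h1.symm

end point

section SE

variable {α β γ δ : ℂ}

lemma hasCoords_of {a b ε : ℂ} (hε : ε * ε = 1) (hr : IsRel α β γ δ a b ε)
    {p : V (JS α β γ δ) ⟶ V (JE α β γ δ)} (hp : (linSE hε hr).IsMap p) (i : Fin 2)
    (φ : Ch (JS α β γ δ) (eS i) →ₐ[ℂ] ℂ) (s : SpecC ⟶ V (JS α β γ δ))
    (hs : s = Spec.map (CommRingCat.ofHom φ.toRingHom) ≫ V.chart _ (eS i)) (t : ℂ) (ht : t ≠ 0)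
    (U : Fin 3 → ℂ) (hU : ∀ c, U c = t * ∑ d, mat a b ε c d * φ (frac _ (eS i) d)) :
    HasCoords (JE α β γ δ) (s ≫ p) U := by
  have hu : (![1, ε] : Fin 2 → ℂ) i * (![1, ε] : Fin 2 → ℂ) i = 1 := (linSE hε hr).hu i
  have hu0 : (![1, ε] : Fin 2 → ℂ) i ≠ 0 := left_ne_zero_of_mul_eq_one hu
  have hf : ∀ c, φ ((linSE hε hr).χ i (frac _ (eE i) c)) = (![1, ε] : Fin 2 → ℂ) i *
      ∑ d, mat a b ε c d * φ (frac _ (eS i) d) := by
    intro c
    rw [linSE_frac, map_mul, map_sum, AlgHom.commutes]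
    simp only [map_mul, AlgHom.commutes]
    rfl
  have hw : ∑ d, mat a b ε (eE i) d * φ (frac _ (eS i) d) = (![1, ε] : Fin 2 → ℂ) i := by
    have h1 := hf (eE i)
    rw [frac_self, map_one, map_one] at h1
    linear_combination (![1, ε] : Fin 2 → ℂ) i * (-h1) -
      (∑ d, mat a b ε (eE i) d * φ (frac _ (eS i) d)) * hu
  refine ⟨eE i, (φ.comp ((linSE hε hr).χ i)).toRingHom, ?_, ?_, ?_⟩
  · rw [hU, hw]
    exact mul_ne_zero ht hu0
  · rw [hs, Category.assoc, hp.chart i, ← Category.assoc, ← Spec.map_comp, ← CommRingCat.ofHom_comp]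
    rfl
  · intro c
    change U c = U (eE i) * φ ((linSE hε hr).χ i (frac _ (eE i) c))
    rw [hf, hU c, hU (eE i), hw]
    linear_combination (-(t * ∑ d, mat a b ε c d * φ (frac _ (eS i) d))) * hu

end SE

end Pool.Agent.Q79.QD
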