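import Mathlib

/-!
The chart rings `K[t][x₁] / (x₁³ + A x₁ + B)` and `K[t][x₁, x₂] / (x₁² + x₁ x₂ + x₂² + A, ...)`:
bases over `K[t]`, and the cokernel of the difference of two charts.
-/

set_option autoImplicit false

open Polynomial Module

namespace Pool.Agent.Q79.QD

section lin

variable {K M ι : Type*} [Field K] [AddCommGroup M] [Module K M]

lemma finrank_quot (b : Basis ι K M) (I : Set ι) (hI : Iᶜ.Finite) :
    Module.Finite K (M ⧸ Submodule.span K (b '' I)) ∧
      finrank K (M ⧸ Submodule.span K (b '' I)) = Iᶜ.ncard := by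
  classical
  have := hI.fintype
  let φ : M →ₗ[K] (↥Iᶜ → K) := LinearMap.pi (fun i => b.coord i)
  have hker : LinearMap.ker φ = Submodule.span K (b '' I) := by
    ext m
    rw [b.mem_span_image, LinearMap.mem_ker]
    constructor
    · intro h i hi
      by_contra hcon
      have h1 := congrFun h ⟨i, hcon⟩
      exact (Finsupp.mem_support_iff.1 hi) h1
    · intro h
      funext i
      by_contra hcon
      exact i.2 (h (Finsupp.mem_support_iff.2 hcon))
  have hsurj : Function.Surjective φ := by
    intro v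
    refine ⟨∑ j, v j • b j, ?_⟩
    funext i
    change b.repr (∑ j, v j • b j) i = v i
    rw [map_sum, Finsupp.finsetSum_apply, Finset.sum_eq_single i]
    · simp
    · intro j _ hj
      rw [map_smul, Basis.repr_self, Finsupp.smul_apply, Finsupp.single_eq_of_ne, smul_zero]
      intro h
      exact hj (Subtype.ext h.symm)
    · intro h
      exact absurd (Finset.mem_univ _) h
  have e := φ.quotKerEquivOfSurjective hsurj
  rw [← hker]
  refine ⟨Module.Finite.equiv e.symm, ?_⟩
  rw [e.finrank_eq, Module.finrank_fintype_fun_eq_card, Set.ncard_eq_toFinset_card', Set.toFinset_card]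

end lin

section cech

variable {K : Type} [Field K] {ι : Type} [Fintype ι]
variable {R : Type} [CommRing R] [Algebra K[X] R] [Algebra K R] [IsScalarTower K K[X] R]
variable {R' : Type} [CommRing R'] [Algebra K[X] R'] [Algebra K R'] [IsScalarTower K K[X] R']
variable {B : Type} [CommRing B] [Algebra K B] [Algebra R B] [IsScalarTower K R B]

/-- the basis over `K` given by a basis over `K[X]` -/
noncomputable def kb (b : Basis ι K[X] R) : Basis (ℕ × ι) K R :=
  (Polynomial.basisMonomials K).smulTower b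

omit [Fintype ι] in
lemma kb_apply (b : Basis ι K[X] R) (p : ℕ × ι) :
    kb b p = algebraMap K[X] R X ^ p.1 * b p.2 := by
  unfold kb
  rw [Basis.smulTower_apply, Polynomial.coe_basisMonomials, Algebra.smul_def]
  congr 1
  have : (monomial p.1 1 : K[X]) = X ^ p.1 := by
    rw [← X_pow_eq_monomial]
  change algebraMap K[X] R (monomial p.1 1) = _
  rw [this, map_pow]

omit [Fintype ι] in
lemma exists_basis (b : Basis ι K[X] R) [IsLocalization.Away (algebraMap K[X] R X) B]
    (u : Bˣ) (hu : (u : B) = algebraMap R B (algebraMap K[X] R X)) :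
    ∃ bB : Basis (ℤ × ι) K B, ∀ p, bB p = ((u ^ p.1 : Bˣ) : B) * algebraMap R B (b p.2) := by
  let i1 : Algebra K[X] B := ((algebraMap R B).comp (algebraMap K[X] R)).toAlgebra
  have t1 : IsScalarTower K[X] R B := IsScalarTower.of_algebraMap_eq (fun r => rfl)
  let i2 : Algebra (LaurentPolynomial K) B := (LaurentPolynomial.eval₂ (algebraMap K B) u).toAlgebra
  have t2 : IsScalarTower K[X] (LaurentPolynomial K) B := by
    apply IsScalarTower.of_algebraMap_eq'
    apply Polynomial.ringHom_ext
    · intro a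
      change algebraMap R B (algebraMap K[X] R (C a)) =
        LaurentPolynomial.eval₂ (algebraMap K B) u (Polynomial.toLaurent (C a))
      rw [LaurentPolynomial.eval₂_toLaurent, eval₂_C, IsScalarTower.algebraMap_apply K R B,
        IsScalarTower.algebraMap_apply K K[X] R]
      rfl
    · change algebraMap R B (algebraMap K[X] R X) =
        LaurentPolynomial.eval₂ (algebraMap K B) u (Polynomial.toLaurent X)
      rw [LaurentPolynomial.eval₂_toLaurent, eval₂_X, hu]
  have t3 : IsScalarTower K (LaurentPolynomial K) B := by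
    apply IsScalarTower.of_algebraMap_eq
    intro a
    change _ = LaurentPolynomial.eval₂ (algebraMap K B) u (LaurentPolynomial.C a)
    rw [LaurentPolynomial.eval₂_C]
  have l1 : IsLocalization (Algebra.algebraMapSubmonoid R (Submonoid.powers (X : K[X]))) B := by
    rw [Algebra.algebraMapSubmonoid_powers]
    assumption
  let bL : Basis ι (LaurentPolynomial K) B :=
    b.localizationLocalization (LaurentPolynomial K) (Submonoid.powers (X : K[X])) B
  refine ⟨(AddMonoidAlgebra.basis ℤ K).smulTower bL, fun p => ?_⟩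
  rw [Basis.smulTower_apply, Basis.localizationLocalization_apply,
    AddMonoidAlgebra.basis_apply, Algebra.smul_def]
  congr 1
  change LaurentPolynomial.eval₂ (algebraMap K B) u (LaurentPolynomial.T p.1) = _
  rw [LaurentPolynomial.eval₂_T]

/-- The computation of the Čech cohomology. -/
theorem cech (b : Basis ι K[X] R) [IsLocalization.Away (algebraMap K[X] R X) B]
    (b' : Basis ι K[X] R')
    (u : Bˣ) (hu : (u : B) = algebraMap R B (algebraMap K[X] R X)) (d : ι → ℕ) (r : R' →ₐ[K] B)
    (h1 : r (algebraMap K[X] R' X) = ((u⁻¹ : Bˣ) : B))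
    (h2 : ∀ j, r (b' j) = algebraMap R B (b j) * ((u⁻¹ : Bˣ) : B) ^ d j) :
    Function.Injective r ∧
    ∀ g : ℕ, {p : ℤ × ι | p.1 < 0 ∧ 0 < p.1 + d p.2}.ncard = g →
    {p : ℤ × ι | p.1 < 0 ∧ 0 < p.1 + d p.2}.Finite →
    Module.Finite K (B ⧸ (LinearMap.range r.toLinearMap ⊔
      LinearMap.range (IsScalarTower.toAlgHom K R B).toLinearMap)) ∧
    finrank K (B ⧸ (LinearMap.range r.toLinearMap ⊔
      LinearMap.range (IsScalarTower.toAlgHom K R B).toLinearMap)) = g := by
  classical
  obtain ⟨bB, hb⟩ := exists_basis b u hu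
  have k1 : ∀ p : ℕ × ι, r (kb b' p) = bB (-(p.1 : ℤ) - d p.2, p.2) := by
    intro p
    rw [kb_apply, map_mul, map_pow, h1, h2, hb]
    simp only
    rw [sub_eq_add_neg, zpow_add, zpow_neg, zpow_neg, zpow_natCast, zpow_natCast, Units.val_mul,
      ← inv_pow, ← inv_pow, Units.val_pow_eq_pow_val, Units.val_pow_eq_pow_val]
    ring
  have k2 : ∀ p : ℕ × ι, algebraMap R B (kb b p) = bB ((p.1 : ℤ), p.2) := by
    intro p
    rw [kb_apply, map_mul, map_pow, ← hu, hb]
    simp only
    rw [zpow_natCast, Units.val_pow_eq_pow_val]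
  have hinj : Function.Injective r := by
    have hg : Function.Injective (fun p : ℕ × ι => ((-(p.1 : ℤ) - d p.2, p.2) : ℤ × ι)) := by
      rintro ⟨n, i⟩ ⟨m, j⟩ h
      simp only [Prod.mk.injEq] at h
      obtain ⟨h3, rfl⟩ := h
      simp only [Prod.mk.injEq, and_true]
      omega
    have hli : LinearIndependent K (fun p : ℕ × ι => r.toLinearMap (kb b' p)) := by
      have h3 := bB.linearIndependent.comp _ hg
      convert h3 using 1
      funext p
      exact k1 p
    have h4 : LinearMap.ker r.toLinearMap = ⊥ := by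
      rw [LinearMap.ker_eq_bot']
      intro m hm
      have h5 : (Finsupp.linearCombination K fun p : ℕ × ι => r.toLinearMap (kb b' p))
          ((kb b').repr m) = 0 := by
        rw [← hm]
        conv_rhs => rw [← (kb b').linearCombination_repr m]
        rw [Finsupp.linearCombination_apply, Finsupp.linearCombination_apply, map_finsuppSum]
        simp only [map_smul]
      have h6 := (linearIndependent_iff.1 hli) _ h5
      exact (kb b').repr.map_eq_zero_iff.1 h6
    exact LinearMap.ker_eq_bot.1 h4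
  refine ⟨hinj, fun g hg hgf => ?_⟩
  have e1 : LinearMap.range r.toLinearMap =
      Submodule.span K (bB '' {p | p.1 + (d p.2 : ℤ) ≤ 0}) := by
    rw [← Submodule.map_top, ← (kb b').span_eq, Submodule.map_span, ← Set.range_comp]
    congr 1
    ext z
    constructor
    · rintro ⟨⟨n, i⟩, rfl⟩
      refine ⟨(-(n : ℤ) - d i, i), by simp, ?_⟩
      exact (k1 (n, i)).symm
    · rintro ⟨⟨m, i⟩, hm, rfl⟩
      have hm' : m + (d i : ℤ) ≤ 0 := hm
      obtain ⟨n, hn⟩ := Int.eq_ofNat_of_zero_le (show 0 ≤ -(m + (d i : ℤ)) by omega)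
      refine ⟨(n, i), ?_⟩
      refine (k1 (n, i)).trans ?_
      congr 1
      simp only [Prod.mk.injEq, and_true]
      have : ((n : ℕ) : ℤ) = Int.ofNat n := rfl
      omega
  have e2 : LinearMap.range (IsScalarTower.toAlgHom K R B).toLinearMap =
      Submodule.span K (bB '' {p | 0 ≤ p.1}) := by
    rw [← Submodule.map_top, ← (kb b).span_eq, Submodule.map_span, ← Set.range_comp]
    congr 1
    ext z
    constructor
    · rintro ⟨⟨n, i⟩, rfl⟩
      exact ⟨((n : ℤ), i), by simp, (k2 (n, i)).symm⟩
    · rintro ⟨⟨m, i⟩, hm, rfl⟩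
      obtain ⟨n, rfl⟩ := Int.eq_ofNat_of_zero_le (show 0 ≤ m from hm)
      exact ⟨(n, i), k2 (n, i)⟩
  have e3 : LinearMap.range r.toLinearMap ⊔
      LinearMap.range (IsScalarTower.toAlgHom K R B).toLinearMap =
      Submodule.span K (bB '' ({p | p.1 + (d p.2 : ℤ) ≤ 0} ∪ {p | 0 ≤ p.1})) := by
    rw [e1, e2, ← Submodule.span_union, Set.image_union]
  have e4 : ({p : ℤ × ι | p.1 + (d p.2 : ℤ) ≤ 0} ∪ {p | 0 ≤ p.1})ᶜ =
      {p : ℤ × ι | p.1 < 0 ∧ 0 < p.1 + d p.2} := by
    ext ⟨m, i⟩
    simp only [Set.mem_compl_iff, Set.mem_union, Set.mem_ofPred_eq]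
    omega
  rw [e3]
  have hfin := finrank_quot bB ({p | p.1 + (d p.2 : ℤ) ≤ 0} ∪ {p | 0 ≤ p.1}) (by
    rw [e4]; exact hgf)
  refine ⟨hfin.1, ?_⟩
  rw [hfin.2, e4, hg]

end cech

end Pool.Agent.Q79.QD
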