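import Pool.Agent.Q79.QD.Integral
import Pool.Agent.W363.MW.SM

/-!
Smoothness of the curves.
-/

set_option autoImplicit false

open AlgebraicGeometry CategoryTheory Limits

namespace Pool.Agent.Q79.QD

open Pool.Agent.Helper304.Ses Pool.Agent.H666R3.NG Pool.Agent.Helper198.Sch

attribute [local instance] MvPolynomial.gradedAlgebra

section crit

variable {R : Type} [CommRing R] [Algebra ℂ R]

/-- a criterion for the unit ideal -/
lemma top_of_field {ι : Type} (s : ι → R)
    (h : ∀ (F : Type) [Field F] [Algebra ℂ F] (φ : R →ₐ[ℂ] F), (∀ i, φ (s i) = 0) → False) :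
    Ideal.span (Set.range s) = ⊤ := by
  by_contra hcon
  obtain ⟨M, hM, hle⟩ := Ideal.exists_le_maximal _ hcon
  let _ : Field (R ⧸ M) := Ideal.Quotient.field M
  refine h (R ⧸ M) (Ideal.Quotient.mkₐ ℂ M) (fun i => ?_)
  exact Ideal.Quotient.eq_zero_iff_mem.2 (hle (Ideal.subset_span ⟨i, rfl⟩))

lemma const_of_algebraic [IsDomain R] (x : R) (h : IsAlgebraic ℂ x) :
    ∃ c : ℂ, x = algebraMap ℂ R c := by
  have hint : IsIntegral ℂ x := h.isIntegral
  have hirr : Irreducible (minpoly ℂ x) := minpoly.irreducible hint
  have hdeg := IsAlgClosed.degree_eq_one_of_irreducible ℂ hirr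
  have hm : (minpoly ℂ x).Monic := minpoly.monic hint
  obtain ⟨c, hc⟩ : ∃ c : ℂ, minpoly ℂ x = Polynomial.X + Polynomial.C c := by
    refine ⟨(minpoly ℂ x).coeff 0, ?_⟩
    exact hm.eq_X_add_C (Polynomial.natDegree_eq_of_degree_eq_some hdeg)
  have h0 := minpoly.aeval ℂ x
  rw [hc, map_add, Polynomial.aeval_X, Polynomial.aeval_C] at h0
  refine ⟨-c, ?_⟩
  rw [map_neg]
  linear_combination h0

set_option backward.isDefEq.respectTransparency.types false in
/-- A local criterion of smoothness for curves. -/
theorem smooth_loc0 [IsDomain R] (hft : Algebra.FiniteType ℂ R) {ι : Type} (g s : ι → R)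
    (hspan : Ideal.span (Set.range g) = ⊤) (hg : ∀ i, g i ≠ 0) (hs : ∀ i, Transcendental ℂ (s i))
    (hder : ∀ i (M : Type) [AddCommGroup M] [Module R M] (D : R →+ M),
      (∀ x y, D (x * y) = x • D y + y • D x) → (∀ c : ℂ, D (algebraMap ℂ _ c) = 0) →
      (∀ m : M, g i • m = 0 → m = 0) → D (s i) = 0 → ∀ z, D z = 0) :
    SmoothOfRelativeDimension 1 (Spec.map (CommRingCat.ofHom (algebraMap ℂ R))) := by
  apply IsZariskiLocalAtSource.of_openCover
    (Scheme.affineOpenCoverOfSpanRangeEqTop (R := .of R) g hspan).openCover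
  intro (i : ι)
  change SmoothOfRelativeDimension 1 (Spec.map (CommRingCat.ofHom (algebraMap R
    (Localization.Away (g i)))) ≫ Spec.map (CommRingCat.ofHom (algebraMap ℂ R)))
  rw [← Spec.map_comp, ← CommRingCat.ofHom_comp]
  have hB : IsDomain (Localization.Away (g i)) :=
    IsLocalization.isDomain_localization (powers_le_nonZeroDivisors_of_noZeroDivisors (hg i))
  have hinj : Function.Injective (algebraMap R (Localization.Away (g i))) :=
    IsLocalization.injective _ (powers_le_nonZeroDivisors_of_noZeroDivisors (hg i))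
  have e : (algebraMap R (Localization.Away (g i))).comp (algebraMap ℂ R) =
    algebraMap ℂ (Localization.Away (g i)) := rfl
  rw [e]
  have hft1 : Algebra.FiniteType R (Localization.Away (g i)) :=
    IsLocalization.finiteType_of_monoid_fg (Submonoid.powers (g i)) _
  apply Pool.Agent.W363.MW.smooth_of (Algebra.FiniteType.trans hft hft1)
    (algebraMap R (Localization.Away (g i)) (s i))
  · intro halg
    apply hs i
    obtain ⟨p, hp, hp0⟩ := halg
    refine ⟨p, hp, ?_⟩
    rw [Polynomial.aeval_algebraMap_apply] at hp0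
    exact hinj (hp0.trans (map_zero _).symm)
  · intro M _ _ D hL hC h0 z
    let _ : Module R M := Module.compHom M (algebraMap R (Localization.Away (g i)))
    have hsm : ∀ (r : R) (m : M), r • m = algebraMap R (Localization.Away (g i)) r • m :=
      fun r m => rfl
    have hu : IsUnit (algebraMap R (Localization.Away (g i)) (g i)) :=
      IsLocalization.Away.algebraMap_isUnit (g i)
    have hinjm : ∀ b : Localization.Away (g i), IsUnit b → ∀ m : M, b • m = 0 → m = 0 := by
      intro b hb m hm
      obtain ⟨c, hc⟩ := hb.exists_left_inv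
      rw [← one_smul (Localization.Away (g i)) m, ← hc, mul_smul, hm, smul_zero]
    let D' : R →+ M := D.comp (algebraMap R (Localization.Away (g i))).toAddMonoidHom
    have hD' : ∀ z : R, D (algebraMap R (Localization.Away (g i)) z) = 0 := by
      refine hder i M D' (fun x y => ?_) (fun c => ?_) (fun m hm => ?_) h0
      · change D (algebraMap R (Localization.Away (g i)) (x * y)) = _
        rw [map_mul, hL]
        rfl
      · exact hC c
      · exact hinjm _ hu m hm
    obtain ⟨⟨r, ⟨_, n, rfl⟩⟩, hr⟩ := IsLocalization.surj (Submonoid.powers (g i)) z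
    have h1 : D (z * algebraMap R (Localization.Away (g i)) (g i ^ n)) = 0 := by
      have hr' : z * algebraMap R (Localization.Away (g i)) (g i ^ n) =
        algebraMap R (Localization.Away (g i)) r := hr
      rw [hr']
      exact hD' r
    rw [hL, hD', smul_zero, zero_add, map_pow] at h1
    exact hinjm _ (hu.pow n) _ h1

/-- A local criterion of smoothness for curves. -/
theorem smooth_loc [IsDomain R] (hft : Algebra.FiniteType ℂ R) {ι : Type} (g s : ι → R)
    (htop : ∀ (F : Type) [Field F] [Algebra ℂ F] (φ : R →ₐ[ℂ] F), (∀ i, φ (g i) = 0) → False)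
    (hs : ∀ i, Transcendental ℂ (s i))
    (hder : ∀ i (M : Type) [AddCommGroup M] [Module R M] (D : R →+ M),
      (∀ x y, D (x * y) = x • D y + y • D x) → (∀ c : ℂ, D (algebraMap ℂ _ c) = 0) →
      (∀ m : M, g i • m = 0 → m = 0) → D (s i) = 0 → ∀ z, D z = 0) :
    SmoothOfRelativeDimension 1 (Spec.map (CommRingCat.ofHom (algebraMap ℂ R))) := by
  apply smooth_loc0 hft (fun i : {i : ι // g i ≠ 0} => g i) (fun i => s i) ?_ (fun i => i.2)
    (fun i => hs i) (fun i => hder i)
  apply top_of_field
  intro F _ _ φ h
  apply htop F φ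
  intro i
  by_cases hi : g i = 0
  · rw [hi, map_zero]
  · exact h ⟨i, hi⟩

end crit

section ch

variable {σ : Type} {J : HI σ ℂ} {c : σ}

/-- a derivation of a chart ring is determined by its values on the coordinates -/
lemma der_zero {M : Type} [AddCommGroup M] [Module (Ch J c) M] (D : Ch J c →+ M)
    (hL : ∀ x y, D (x * y) = x • D y + y • D x) (hC : ∀ z : ℂ, D (algebraMap ℂ _ z) = 0)
    (h : ∀ a, D (frac J c a) = 0) (z : Ch J c) : D z = 0 := by
  obtain ⟨p, rfl⟩ := aeval_frac_surjective J c z
  induction p using MvPolynomial.induction_on with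
  | C a => rw [MvPolynomial.aeval_C]; exact hC a
  | add p q hp hq => rw [map_add, map_add, hp, hq, add_zero]
  | mul_X p n hp => rw [map_mul, MvPolynomial.aeval_X, hL, hp, h, smul_zero, smul_zero, add_zero]

lemma finiteType_Ch [Finite σ] : Algebra.FiniteType ℂ (Ch J c) :=
  Algebra.FiniteType.of_surjective (MvPolynomial.aeval (frac J c)) (aeval_frac_surjective J c)

set_option backward.isDefEq.respectTransparency.types false in
lemma smooth_two {c' : σ} (hcov : ∀ x : V J, x ∈ V.D J c ∨ x ∈ V.D J c')
    (h : SmoothOfRelativeDimension 1 (Spec.map (CommRingCat.ofHom (algebraMap ℂ (Ch J c)))))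
    (h' : SmoothOfRelativeDimension 1 (Spec.map (CommRingCat.ofHom (algebraMap ℂ (Ch J c'))))) :
    SmoothOfRelativeDimension 1 (V.str J) := by
  apply IsZariskiLocalAtSource.of_openCover
    (V.coverOf J (fun b : Bool => if b then c else c') (fun x => by
      rcases hcov x with h | h
      · exact ⟨true, h⟩
      · exact ⟨false, h⟩)).openCover
  intro (b : Bool)
  cases b
  · change SmoothOfRelativeDimension 1 (V.chart J c' ≫ V.str J)
    rw [V.chart_str]
    exact h'
  · change SmoothOfRelativeDimension 1 (V.chart J c ≫ V.str J)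
    rw [V.chart_str]
    exact h

end ch

end Pool.Agent.Q79.QD
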