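import Pool.Agent.Q79.QD.Smooth

/-!
Smoothness of the plane cubics and of one curve `S`.
-/

set_option autoImplicit false

open AlgebraicGeometry CategoryTheory Limits

namespace Pool.Agent.Q79.QD

open Pool.Agent.Helper304.Ses Pool.Agent.H666R3.NG Pool.Agent.Helper198.Sch

attribute [local instance] MvPolynomial.gradedAlgebra

section trans

variable {R : Type} [CommRing R] [IsDomain R] [Algebra (Polynomial ℂ) R] [Algebra ℂ R]
  [IsScalarTower ℂ (Polynomial ℂ) R]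

omit [IsDomain R] in
lemma trans_X (hinj : Function.Injective (algebraMap (Polynomial ℂ) R)) :
    Transcendental ℂ (algebraMap (Polynomial ℂ) R Polynomial.X) := by
  rintro ⟨p, hp, h⟩
  rw [Polynomial.aeval_algebraMap_apply, Polynomial.aeval_X_left, AlgHom.id_apply] at h
  exact hp (hinj (h.trans (map_zero _).symm))

lemma trans_basis {ι : Type} (b : Module.Basis ι (Polynomial ℂ) R) (i j : ι) (hij : i ≠ j)
    (hj : b j = 1) : Transcendental ℂ (b i) := by
  intro h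
  obtain ⟨c, hc⟩ := const_of_algebraic _ h
  have h1 : b i = (Polynomial.C c) • b j := by
    rw [hc, hj, Algebra.smul_def, mul_one, IsScalarTower.algebraMap_apply ℂ (Polynomial ℂ) R]
    rfl
  have h2 := congrArg (fun z => b.repr z i) h1
  simp only [map_smul, Module.Basis.repr_self, Finsupp.smul_apply, Finsupp.single_eq_same] at h2
  rw [Finsupp.single_eq_of_ne hij, smul_zero] at h2
  exact one_ne_zero h2

end trans

section tr

variable {α β γ δ : ℂ} (h : Good α β γ δ)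

include h

lemma tE2 : Transcendental ℂ (frac (JE α β γ δ) 2 1) := by
  have h1 : Transcendental ℂ (cEZ α β γ δ (frac _ 2 1)) := by
    rw [cEZ_frac]
    have : uE (AZ α) (BZ β γ δ) 2 1 1 = algebraMap (Polynomial ℂ) _ Polynomial.X := by simp [uE]
    rw [this]
    exact trans_X alg_injective
  exact fun h2 => h1 (h2.algHom (cEZ α β γ δ).toAlgHom)

lemma xtE2 : Transcendental ℂ (frac (JE α β γ δ) 2 0) := by
  have h1 : Transcendental ℂ (cEZ α β γ δ (frac _ 2 0)) := by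
    rw [cEZ_frac]
    have : uE (AZ α) (BZ β γ δ) 2 1 0 = bE _ _ 1 := by simp [uE, bE_apply]
    rw [this]
    have := h.domZ.1
    exact trans_basis (bE _ _) 1 0 (by decide) (by rw [bE_apply]; exact pow_zero _)
  exact fun h2 => h1 (h2.algHom (cEZ α β γ δ).toAlgHom)

lemma tE1 : Transcendental ℂ (frac (JE α β γ δ) 1 2) := by
  have h1 : Transcendental ℂ (cEY α β γ δ (frac _ 1 2)) := by
    rw [cEY_frac]
    have : uE (AY α) (BY β γ δ) 1 2 2 = algebraMap (Polynomial ℂ) _ Polynomial.X := by simp [uE]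
    rw [this]
    exact trans_X alg_injective
  exact fun h2 => h1 (h2.algHom (cEY α β γ δ).toAlgHom)

lemma xtE1 : Transcendental ℂ (frac (JE α β γ δ) 1 0) := by
  have h1 : Transcendental ℂ (cEY α β γ δ (frac _ 1 0)) := by
    rw [cEY_frac]
    have : uE (AY α) (BY β γ δ) 1 2 0 = bE _ _ 1 := by simp [uE, bE_apply]
    rw [this]
    have := h.domE1
    have : IsDomain (RE (AY α) (BY β γ δ)) := (cEY α β γ δ).symm.toMulEquiv.isDomain _
    exact trans_basis (bE _ _) 1 0 (by decide) (by rw [bE_apply]; exact pow_zero _)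
  exact fun h2 => h1 (h2.algHom (cEY α β γ δ).toAlgHom)

lemma tS3 : Transcendental ℂ (frac (JS α β γ δ) 3 2) := by
  have h1 : Transcendental ℂ (cSZ α β γ δ (frac _ 3 2)) := by
    rw [cSZ_frac]
    have : uS (AZ α) (BZ β γ δ) 3 2 2 = algebraMap (Polynomial ℂ) _ Polynomial.X := by simp [uS]
    rw [this]
    exact trans_X alg_injective
  exact fun h2 => h1 (h2.algHom (cSZ α β γ δ).toAlgHom)

lemma x1tS3 : Transcendental ℂ (frac (JS α β γ δ) 3 0) := by
  have h1 : Transcendental ℂ (cSZ α β γ δ (frac _ 3 0)) := by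
    rw [cSZ_frac]
    have : uS (AZ α) (BZ β γ δ) 3 2 0 = bS _ _ (1, 0) := by simp [uS, bS_apply]
    rw [this]
    have := h.domZ.2
    exact trans_basis (bS _ _) (1, 0) (0, 0) (by decide) (by
      rw [bS_apply]
      simp)
  exact fun h2 => h1 (h2.algHom (cSZ α β γ δ).toAlgHom)

lemma x2tS3 : Transcendental ℂ (frac (JS α β γ δ) 3 1) := by
  have h1 : Transcendental ℂ (cSZ α β γ δ (frac _ 3 1)) := by
    rw [cSZ_frac]
    have : uS (AZ α) (BZ β γ δ) 3 2 1 = bS _ _ (0, 1) := by simp [uS, bS_apply]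
    rw [this]
    have := h.domZ.2
    exact trans_basis (bS _ _) (0, 1) (0, 0) (by decide) (by
      rw [bS_apply]
      simp)
  exact fun h2 => h1 (h2.algHom (cSZ α β γ δ).toAlgHom)

lemma tS2 : Transcendental ℂ (frac (JS α β γ δ) 2 3) := by
  have h1 : Transcendental ℂ (cSY α β γ δ (frac _ 2 3)) := by
    rw [cSY_frac]
    have : uS (AY α) (BY β γ δ) 2 3 3 = algebraMap (Polynomial ℂ) _ Polynomial.X := by simp [uS]
    rw [this]
    exact trans_X alg_injective
  exact fun h2 => h1 (h2.algHom (cSY α β γ δ).toAlgHom)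

lemma x1tS2 : Transcendental ℂ (frac (JS α β γ δ) 2 0) := by
  have h1 : Transcendental ℂ (cSY α β γ δ (frac _ 2 0)) := by
    rw [cSY_frac]
    have : uS (AY α) (BY β γ δ) 2 3 0 = bS _ _ (1, 0) := by simp [uS, bS_apply]
    rw [this]
    have := h.domS2
    have : IsDomain (RS (AY α) (BY β γ δ)) := (cSY α β γ δ).symm.toMulEquiv.isDomain _
    exact trans_basis (bS _ _) (1, 0) (0, 0) (by decide) (by
      rw [bS_apply]
      simp)
  exact fun h2 => h1 (h2.algHom (cSY α β γ δ).toAlgHom)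

lemma x2tS2 : Transcendental ℂ (frac (JS α β γ δ) 2 1) := by
  have h1 : Transcendental ℂ (cSY α β γ δ (frac _ 2 1)) := by
    rw [cSY_frac]
    have : uS (AY α) (BY β γ δ) 2 3 1 = bS _ _ (0, 1) := by simp [uS, bS_apply]
    rw [this]
    have := h.domS2
    have : IsDomain (RS (AY α) (BY β γ δ)) := (cSY α β γ δ).symm.toMulEquiv.isDomain _
    exact trans_basis (bS _ _) (0, 1) (0, 0) (by decide) (by
      rw [bS_apply]
      simp)
  exact fun h2 => h1 (h2.algHom (cSY α β γ δ).toAlgHom)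

end tr

section rel

variable (α β γ δ : ℂ)

lemma relE2 : frac (JE α β γ δ) 2 0 ^ 3 + algebraMap ℂ _ α * frac (JE α β γ δ) 2 0 +
    (algebraMap ℂ _ β + algebraMap ℂ _ γ * frac (JE α β γ δ) 2 1 ^ 2 +
      algebraMap ℂ _ δ * frac (JE α β γ δ) 2 1 ^ 3) = 0 := by
  have h := aeval_frac_eq_zero (JE α β γ δ) 2 (cubE α β γ δ) (mem_ofSet rfl)
  rw [eqE_Z α β γ δ _ _ (frac_self _ _)] at h
  simpa [AZ, BZ] using h

lemma relE1 : frac (JE α β γ δ) 1 0 ^ 3 + algebraMap ℂ _ α * frac (JE α β γ δ) 1 2 ^ 2 *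
    frac (JE α β γ δ) 1 0 + (algebraMap ℂ _ β * frac (JE α β γ δ) 1 2 ^ 3 +
      algebraMap ℂ _ γ * frac (JE α β γ δ) 1 2 + algebraMap ℂ _ δ) = 0 := by
  have h := aeval_frac_eq_zero (JE α β γ δ) 1 (cubE α β γ δ) (mem_ofSet rfl)
  rw [eqE_Y α β γ δ _ _ (frac_self _ _)] at h
  simpa [AY, BY] using h

lemma relS3 : frac (JS α β γ δ) 3 0 ^ 3 + algebraMap ℂ _ α * frac (JS α β γ δ) 3 0 +
    (algebraMap ℂ _ β + algebraMap ℂ _ γ * frac (JS α β γ δ) 3 2 ^ 2 +
      algebraMap ℂ _ δ * frac (JS α β γ δ) 3 2 ^ 3) = 0 := by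
  have h := aeval_frac_eq_zero (JS α β γ δ) 3 (cubS α β γ δ) (mem_ofSet (Or.inl rfl))
  rw [(eqS_Z α β γ δ _ _ (frac_self _ _)).1] at h
  simpa [AZ, BZ] using h

lemma relQ3 : frac (JS α β γ δ) 3 1 ^ 2 + frac (JS α β γ δ) 3 0 * frac (JS α β γ δ) 3 1 +
    frac (JS α β γ δ) 3 0 ^ 2 + algebraMap ℂ _ α = 0 := by
  have h := aeval_frac_eq_zero (JS α β γ δ) 3 (quadS α) (mem_ofSet (Or.inr rfl))
  rw [(eqS_Z α β γ δ _ _ (frac_self _ _)).2] at h
  simpa [AZ] using h

lemma relS2 : frac (JS α β γ δ) 2 0 ^ 3 + algebraMap ℂ _ α * frac (JS α β γ δ) 2 3 ^ 2 *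
    frac (JS α β γ δ) 2 0 + (algebraMap ℂ _ β * frac (JS α β γ δ) 2 3 ^ 3 +
      algebraMap ℂ _ γ * frac (JS α β γ δ) 2 3 + algebraMap ℂ _ δ) = 0 := by
  have h := aeval_frac_eq_zero (JS α β γ δ) 2 (cubS α β γ δ) (mem_ofSet (Or.inl rfl))
  rw [(eqS_Y α β γ δ _ _ (frac_self _ _)).1] at h
  simpa [AY, BY] using h

lemma relQ2 : frac (JS α β γ δ) 2 1 ^ 2 + frac (JS α β γ δ) 2 0 * frac (JS α β γ δ) 2 1 +
    frac (JS α β γ δ) 2 0 ^ 2 + algebraMap ℂ _ α * frac (JS α β γ δ) 2 3 ^ 2 = 0 := by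
  have h := aeval_frac_eq_zero (JS α β γ δ) 2 (quadS α) (mem_ofSet (Or.inr rfl))
  rw [(eqS_Y α β γ δ _ _ (frac_self _ _)).2] at h
  simpa [AY] using h

end rel

end Pool.Agent.Q79.QD
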