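import Pool.Agent.Q79.QD.Maps

/-!
Two morphisms given by linear forms pull back `O(1)` to the same bundle, up to torsion.
-/

set_option autoImplicit false

open AlgebraicGeometry CategoryTheory Limits MvPolynomial

namespace Pool.Agent.Q79.QD

open Pool.Agent.Helper304.Ses Pool.Agent.H666R3.NG Pool.Agent.Helper198.Sch

attribute [local instance] MvPolynomial.gradedAlgebra

section general

variable {σ τ I : Type} [Fintype σ] [DecidableEq σ]
variable {J : HI σ ℂ} {J' : HI τ ℂ} {e : I → σ} {e' : I → τ}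

lemma LinData.IsMap.key2 {L : LinData J J' e e'} {f : V J ⟶ V J'} (h : L.IsMap f) (i j : I)
    (W : (V J).Opens) (h1 : W ≤ f ⁻¹ᵁ V.D J' (e' i)) (h2 : W ≤ V.D J (e i)) :
    res h1 (pb f (V.D J' (e' i)) (secD J' (e' i) (frac J' (e' i) (e' j)))) =
      cst (V.str J) W (L.u i * L.u j) * res h2 (secD J (e i) (frac J (e i) (e j))) := by
  rw [h.key i W h1 h2, L.hχe, map_mul, secD_const, map_mul, res_cst]

/-- `x_a / x_c` as a function on the chart `x_c ≠ 0` -/
noncomputable def sD {σ : Type} (J : HI σ ℂ) (c a : σ) : Fn (V.D J c) := secD J c (frac J c a)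

omit [Fintype σ] [DecidableEq σ] in
lemma sD_trans (c c' a : σ) (W : (V J).Opens) (h : W ≤ V.D J c) (h' : W ≤ V.D J c') :
    rs h (sD J c a) = rs h (sD J c c') * rs h' (sD J c' a) :=
  secD_trans J c c' a W h h'

omit [Fintype σ] [DecidableEq σ] in
lemma sD_self (c : σ) : sD J c c = 1 := by
  unfold sD
  rw [frac_self]
  exact map_one (secD J c)

lemma LinData.IsMap.keyF {L : LinData J J' e e'} {f : V J ⟶ V J'} (h : L.IsMap f) (i j : I)
    (W : (V J).Opens) (h1 : W ≤ pre f (V.D J' (e' i))) (h2 : W ≤ V.D J (e i)) :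
    ∃ c : Fn W, c * c = 1 ∧ rs h1 (pbk f (V.D J' (e' i)) (sD J' (e' i) (e' j))) =
      c * rs h2 (sD J (e i) (e j)) := by
  refine ⟨cst (V.str J) W (L.u i * L.u j), ?_, h.key2 i j W h1 h2⟩
  have h3 := map_mul (cst (V.str J) W) (L.u i * L.u j) (L.u i * L.u j)
  have e1 : L.u i * L.u j * (L.u i * L.u j) = 1 := by
    linear_combination (L.u j * L.u j) * L.hu i + L.hu j
  rw [e1, map_one] at h3
  exact h3.symm

/-- The line bundle `O(1)`, on a covering by charts `x_{e i} ≠ 0`. -/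
noncomputable def O1' {σ I : Type} (J : HI σ ℂ) (e : I → σ) (he : ∀ x : V J, ∃ i, x ∈ V.D J (e i)) :
    LBd (V J) where
  ι := I
  U i := V.D J (e i)
  cov := he
  g i j := rs inf_le_left (sD J (e i) (e j))
  g_self i := by
    rw [sD_self, map_one]
  g_mul i j k := by
    unfold Agree mulF
    rw [map_mul, rs_rs, rs_rs, rs_rs, rs_rs, rs_rs]
    exact (sD_trans (J := J) (e i) (e j) (e k) _ _ _).symm

lemma tors_compat {L1 L2 : LinData J J' e e'} {f g : V J ⟶ V J'} (h1 : L1.IsMap f)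
    (h2 : L2.IsMap g) (d1 : ∀ i, pre f (V.D J' (e' i)) ≤ V.D J (e i))
    (d2 : ∀ i, pre g (V.D J' (e' i)) ≤ V.D J (e i)) (i j i' j' : I)
    (a : Fn (pre g (V.D J' (e' j)) ⊓ pre g (V.D J' (e' j'))))
    (ha : a = rs inf_le_left (pbk g (V.D J' (e' j)) (sD J' (e' j) (e' j'))))
    (b : Fn (pre f (V.D J' (e' i)) ⊓ pre f (V.D J' (e' i'))))
    (hb : b = rs inf_le_left (pbk f (V.D J' (e' i)) (sD J' (e' i) (e' i')))) :
    Agree
      (mulF (rs (inf_le_left.trans (d1 i) : pre f (V.D J' (e' i)) ⊓ pre g (V.D J' (e' j)) ≤ V.D J (e i))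
        (sD J (e i) (e j)) ^ 2) (a ^ 2))
      (mulF (b ^ 2) (rs (inf_le_left.trans (d1 i') :
        pre f (V.D J' (e' i')) ⊓ pre g (V.D J' (e' j')) ≤ V.D J (e i')) (sD J (e i') (e j')) ^ 2)) := by
  subst ha hb
  unfold Agree mulF
  simp only [map_mul, map_pow, rs_rs]
  set W : (V J).Opens := (pre f (V.D J' (e' i)) ⊓ pre g (V.D J' (e' j))) ⊓
        (pre g (V.D J' (e' j)) ⊓ pre g (V.D J' (e' j'))) ⊓
      ((pre f (V.D J' (e' i)) ⊓ pre f (V.D J' (e' i'))) ⊓
        (pre f (V.D J' (e' i')) ⊓ pre g (V.D J' (e' j'))))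
  have w1 : W ≤ pre f (V.D J' (e' i)) := inf_le_left.trans (inf_le_left.trans inf_le_left)
  have w2 : W ≤ pre g (V.D J' (e' j)) := inf_le_left.trans (inf_le_left.trans inf_le_right)
  have w3 : W ≤ pre f (V.D J' (e' i')) := inf_le_right.trans (inf_le_left.trans inf_le_right)
  have w4 : W ≤ pre g (V.D J' (e' j')) := inf_le_right.trans (inf_le_right.trans inf_le_right)
  obtain ⟨c1, hc1, k1⟩ := h1.keyF i i' W w1 (w1.trans (d1 i))
  obtain ⟨c2, hc2, k2⟩ := h2.keyF j j' W w2 (w2.trans (d2 j))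
  have t1 := sD_trans (J := J) (e i) (e i') (e j') W (w1.trans (d1 i)) (w3.trans (d1 i'))
  have t2 := sD_trans (J := J) (e i) (e j) (e j') W (w1.trans (d1 i)) (w2.trans (d2 j))
  have e1 : rs (w1.trans (d1 i)) (sD J (e i) (e j)) ^ 2 *
      rs w2 (pbk g (V.D J' (e' j)) (sD J' (e' j) (e' j'))) ^ 2 =
      rs w1 (pbk f (V.D J' (e' i)) (sD J' (e' i) (e' i'))) ^ 2 *
      rs (w3.trans (d1 i')) (sD J (e i') (e j')) ^ 2 := by
    rw [k1, k2, mul_pow, mul_pow]
    have e2 : (rs (w1.trans (d1 i)) (sD J (e i) (e j)) *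
      rs (w2.trans (d2 j)) (sD J (e j) (e j'))) ^ 2 = (rs (w1.trans (d1 i)) (sD J (e i) (e i')) *
      rs (w3.trans (d1 i')) (sD J (e i') (e j'))) ^ 2 := by
      rw [← t1, ← t2]
    linear_combination e2 + (rs (w1.trans (d1 i)) (sD J (e i) (e j)) ^ 2 *
      rs (w2.trans (d2 j)) (sD J (e j) (e j')) ^ 2) * hc2 -
      (rs (w1.trans (d1 i)) (sD J (e i) (e i')) ^ 2 *
      rs (w3.trans (d1 i')) (sD J (e i') (e j')) ^ 2) * hc1
  exact e1

theorem torsion_pull {L1 L2 : LinData J J' e e'} {f g : V J ⟶ V J'} (h1 : L1.IsMap f)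
    (h2 : L2.IsMap g) (he : ∀ x : V J, ∃ i, x ∈ V.D J (e i))
    (he' : ∀ x : V J', ∃ i, x ∈ V.D J' (e' i)) :
    ((O1' J' e' he').pull f).TorsionEq ((O1' J' e' he').pull g) := by
  have d1 : ∀ i, pre f (V.D J' (e' i)) ≤ V.D J (e i) := fun i => (h1.preimage he i).le
  have d2 : ∀ i, pre g (V.D J' (e' i)) ≤ V.D J (e i) := fun i => (h2.preimage he i).le
  refine ⟨2, one_le_two, fun (i j : I) => (rs (inf_le_left.trans (d1 i)) (sD J (e i) (e j)) ^ 2 :
    Fn (pre f (V.D J' (e' i)) ⊓ pre g (V.D J' (e' j)))), ?_, ?_⟩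
  · intro (i : I) (j : I)
    have hu : IsUnit (rs (inf_le_left.trans (d1 i)) (sD J (e i) (e j)) :
        Fn (pre f (V.D J' (e' i)) ⊓ pre g (V.D J' (e' j)))) := by
      have h3 := sD_trans (J := J) (e i) (e j) (e i) (pre f (V.D J' (e' i)) ⊓ pre g (V.D J' (e' j)))
        (inf_le_left.trans (d1 i)) (inf_le_right.trans (d2 j))
      rw [sD_self, map_one] at h3
      exact IsUnit.of_mul_eq_one _ h3.symm
    exact hu.pow 2
  · intro (i : I) (j : I) (i' : I) (j' : I)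
    exact tors_compat h1 h2 d1 d2 i j i' j'
      (pbk g (V.D J' (e' j) ⊓ V.D J' (e' j')) (rs inf_le_left (sD J' (e' j) (e' j'))))
      (pbk_rs g inf_le_left _)
      (pbk f (V.D J' (e' i) ⊓ V.D J' (e' i')) (rs inf_le_left (sD J' (e' i) (e' i'))))
      (pbk_rs f inf_le_left _)

lemma ampleSec_compat (he' : ∀ x : V J', ∃ i, x ∈ V.D J' (e' i)) (i k l : I) :
    Agree (mulF (U := V.D J' (e' k) ⊓ V.D J' (e' l))
      ((rs inf_le_left (sD J' (e' k) (e' l)) : Fn (V.D J' (e' k) ⊓ V.D J' (e' l))) ^ 1)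
      (sD J' (e' l) (e' i))) (sD J' (e' k) (e' i)) := by
  rw [pow_one]
  unfold Agree mulF
  simp only [map_mul, rs_rs]
  exact (sD_trans (J := J') (e' k) (e' l) (e' i) _ _ (inf_le_left.trans inf_le_right)).symm

/-- the coordinate as a section of the first power -/
noncomputable def ampleSec (he' : ∀ x : V J', ∃ i, x ∈ V.D J' (e' i)) (i : I) :
    ((O1' J' e' he').pow 1).Sec where
  s := fun (k : I) => sD J' (e' k) (e' i)
  compat := fun (k l : I) => ampleSec_compat he' i k l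

lemma ampleSec_nonvan (he' : ∀ x : V J', ∃ i, x ∈ V.D J' (e' i)) (i : I) :
    (ampleSec he' i).nonvan = V.D J' (e' i) := by
  apply le_antisymm
  · refine iSup_le fun (k : I) => ?_
    have h := basicOpen_secD J' (e' k) (e' i)
    exact h.le.trans inf_le_right
  · have h := basicOpen_secD J' (e' i) (e' i)
    rw [inf_idem] at h
    exact h.ge.trans (le_iSup (fun (k : I) => ne0 (sD J' (e' k) (e' i))) i)

/-- `O(1)` is ample. -/
theorem isAmple_O1 (he' : ∀ x : V J', ∃ i, x ∈ V.D J' (e' i)) : (O1' J' e' he').IsAmple := by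
  intro x
  obtain ⟨i, hi⟩ := he' x
  refine ⟨1, le_rfl, ampleSec he' i, ?_, ?_⟩
  · rw [ampleSec_nonvan]
    exact hi
  · rw [ampleSec_nonvan]
    exact isAffineOpen_D J' (e' i)

end general

end Pool.Agent.Q79.QD
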