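import Pool.Agent.Q79.QD.Ring

/-!
The chart rings as towers of monogenic extensions of `K[t]`.
-/

set_option autoImplicit false

open Polynomial Module

namespace Pool.Agent.Q79.QD

section

variable {K : Type} [Field K] (A B : K[X])

/-- the cubic -/
noncomputable def fE : K[X][X] := X ^ 3 + C A * X + C B

/-- the chart ring of the elliptic curve -/
abbrev RE : Type := AdjoinRoot (fE A B)

/-- the coordinate `x` -/
noncomputable def xE : RE A B := AdjoinRoot.root (fE A B)

/-- the quadric -/
noncomputable def fS : (RE A B)[X] :=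
  X ^ 2 + C (xE A B) * X + C (xE A B ^ 2 + algebraMap K[X] (RE A B) A)

/-- the chart ring of the curve `S` -/
abbrev RS : Type := AdjoinRoot (fS A B)

/-- the first coordinate -/
noncomputable def x1 : RS A B := AdjoinRoot.of (fS A B) (xE A B)

/-- the second coordinate -/
noncomputable def x2 : RS A B := AdjoinRoot.root (fS A B)

lemma natDegree_fE : (fE A B).natDegree = 3 := by
  unfold fE
  compute_degree!

lemma monic_fE : (fE A B).Monic := by
  unfold fE
  monicity!

instance nontrivial_RE : Nontrivial (RE A B) :=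
  AdjoinRoot.nontrivial _ (by
    rw [degree_eq_natDegree (monic_fE A B).ne_zero, natDegree_fE]
    norm_num)

lemma natDegree_fS : (fS A B).natDegree = 2 := by
  unfold fS
  compute_degree!

lemma monic_fS : (fS A B).Monic := by
  unfold fS
  monicity!

lemma xE_rel : xE A B ^ 3 + algebraMap K[X] (RE A B) A * xE A B + algebraMap K[X] (RE A B) B = 0 := by
  have h : eval₂ (AdjoinRoot.of (fE A B)) (AdjoinRoot.root (fE A B))
    (X ^ 3 + C A * X + C B : K[X][X]) = 0 := AdjoinRoot.eval₂_root (fE A B)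
  simp only [eval₂_add, eval₂_mul, eval₂_pow, eval₂_X, eval₂_C] at h
  exact h

lemma x_rel1 : x1 A B ^ 3 + algebraMap K[X] (RS A B) A * x1 A B + algebraMap K[X] (RS A B) B = 0 := by
  have h := congrArg (AdjoinRoot.of (fS A B)) (xE_rel A B)
  rw [map_add, map_add, map_mul, map_pow, map_zero] at h
  exact h

lemma x_rel2 : x2 A B ^ 2 + x1 A B * x2 A B + x1 A B ^ 2 + algebraMap K[X] (RS A B) A = 0 := by
  have h : eval₂ (AdjoinRoot.of (fS A B)) (AdjoinRoot.root (fS A B))
    (X ^ 2 + C (xE A B) * X + C (xE A B ^ 2 + algebraMap K[X] (RE A B) A) : (RE A B)[X]) = 0 :=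
    AdjoinRoot.eval₂_root (fS A B)
  simp only [eval₂_add, eval₂_mul, eval₂_pow, eval₂_X, eval₂_C] at h
  rw [map_add, map_pow, ← add_assoc] at h
  exact h

/-- the basis `1, x, x²` -/
noncomputable def bE : Basis (Fin 3) K[X] (RE A B) :=
  (AdjoinRoot.powerBasis' (monic_fE A B)).basis.reindex (finCongr (natDegree_fE A B))

lemma bE_apply (i : Fin 3) : bE A B i = xE A B ^ (i : ℕ) := by
  unfold bE
  rw [Basis.reindex_apply, PowerBasis.basis_eq_pow]
  rfl

/-- the basis `1, x₂` -/
noncomputable def bS' : Basis (Fin 2) (RE A B) (RS A B) :=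
  (AdjoinRoot.powerBasis' (monic_fS A B)).basis.reindex (finCongr (natDegree_fS A B))

lemma bS'_apply (i : Fin 2) : bS' A B i = x2 A B ^ (i : ℕ) := by
  unfold bS'
  rw [Basis.reindex_apply, PowerBasis.basis_eq_pow]
  rfl

/-- the basis `x₁ⁱ x₂ʲ` -/
noncomputable def bS : Basis (Fin 3 × Fin 2) K[X] (RS A B) := (bE A B).smulTower (bS' A B)

lemma bS_apply (p : Fin 3 × Fin 2) : bS A B p = x1 A B ^ (p.1 : ℕ) * x2 A B ^ (p.2 : ℕ) := by
  unfold bS
  rw [Basis.smulTower_apply, bE_apply, bS'_apply, Algebra.smul_def, map_pow]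
  rfl

end

end Pool.Agent.Q79.QD
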