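import Pool.Agent.Q79.QD.Pt
import Pool.Agent.Q79.QD.Group

/-!
The plane cubic `Y² Z = X³ + α X Z² + β Z³` is a model of Mathlib's Weierstrass curve.
-/

set_option autoImplicit false

open AlgebraicGeometry CategoryTheory Limits MvPolynomial

namespace Pool.Agent.Q79.QD

open Pool.Agent.Helper304.Ses Pool.Agent.H666R3.NG Pool.Agent.Helper198.Sch

attribute [local instance] MvPolynomial.gradedAlgebra

variable (α β : ℂ)

/-- the coordinate `x` -/
noncomputable def xW : (WE α β).CoordinateRing :=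
  WeierstrassCurve.Affine.CoordinateRing.mk (WE α β) (Polynomial.C Polynomial.X)
/-- the coordinate `y` -/
noncomputable def yW : (WE α β).CoordinateRing :=
  WeierstrassCurve.Affine.CoordinateRing.mk (WE α β) Polynomial.X

lemma relW : (yW α β) ^ 2 = xW α β ^ 3 + algebraMap ℂ _ α * xW α β + algebraMap ℂ _ β := by
  have h : WeierstrassCurve.Affine.CoordinateRing.mk (WE α β) (WE α β).polynomial = 0 :=
    AdjoinRoot.mk_self
  have hc : ∀ z : ℂ, algebraMap ℂ (WE α β).CoordinateRing z =
      WeierstrassCurve.Affine.CoordinateRing.mk (WE α β) (Polynomial.C (Polynomial.C z)) :=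
    fun z => rfl
  have hp : (WE α β).polynomial = Polynomial.X ^ 2 - (Polynomial.C Polynomial.X ^ 3 +
      Polynomial.C (Polynomial.C α) * Polynomial.C Polynomial.X +
      Polynomial.C (Polynomial.C β)) := by
    unfold WeierstrassCurve.Affine.polynomial
    simp only [WE, map_zero, zero_mul, add_zero, map_add, map_mul, map_pow]
  have h := (congrArg (WeierstrassCurve.Affine.CoordinateRing.mk (WE α β)) hp).symm.trans h
  rw [map_sub, map_add, map_add, map_mul, map_pow, map_pow] at h
  rw [hc, hc]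
  unfold xW yW
  linear_combination h

/-- the coordinates -/
noncomputable def uW : Fin 3 → (WE α β).CoordinateRing := ![xW α β, yW α β, 1]

lemma uW_rel : ∀ f ∈ (JE α β (-1) 0).toIdeal, aeval (uW α β) f = 0 := by
  apply aeval_ofSet
  rintro f rfl
  unfold cubE
  simp only [map_add, map_mul, map_pow, aeval_X, aeval_C, uW, Matrix.cons_val_zero,
    Matrix.cons_val_one, Matrix.cons_val]
  have h := relW α β
  simp only [map_neg, map_one, map_zero]
  linear_combination -h

/-- the map of the chart ring to Mathlib's coordinate ring -/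
noncomputable def fwdW : Ch (JE α β (-1) 0) 2 →ₐ[ℂ] (WE α β).CoordinateRing :=
  chLift _ 2 (uW α β) rfl (uW_rel α β)

lemma fwdW_frac (a : Fin 3) : fwdW α β (frac _ 2 a) = uW α β a := chLift_frac _ _ _ _ _ a

lemma bwd_rel : frac (JE α β (-1) 0) 2 0 ^ 3 + algebraMap ℂ _ α * frac (JE α β (-1) 0) 2 0 +
    algebraMap ℂ _ β = frac (JE α β (-1) 0) 2 1 ^ 2 := by
  have h := aeval_frac_eq_zero (JE α β (-1) 0) 2 (cubE α β (-1) 0) (mem_ofSet rfl)
  unfold cubE at h
  simp only [map_add, map_mul, map_pow, aeval_X, aeval_C, frac_self, map_neg, map_one,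
    map_zero] at h
  linear_combination h

/-- the map of Mathlib's coordinate ring to the chart ring -/
noncomputable def bwdW : (WE α β).CoordinateRing →ₐ[ℂ] Ch (JE α β (-1) 0) 2 :=
  AdjoinRoot.liftAlgHom (WE α β).polynomial
    (Polynomial.aeval (frac (JE α β (-1) 0) 2 0)) (frac (JE α β (-1) 0) 2 1) (by
    have h := bwd_rel α β
    unfold WeierstrassCurve.Affine.polynomial
    simp only [WE, map_zero, zero_mul, add_zero, Polynomial.eval₂_sub,
      Polynomial.eval₂_pow, Polynomial.eval₂_X, Polynomial.eval₂_C]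
    change frac (JE α β (-1) 0) 2 1 ^ 2 - Polynomial.aeval (frac (JE α β (-1) 0) 2 0)
      (Polynomial.X ^ 3 + Polynomial.C α * Polynomial.X + Polynomial.C β) = 0
    simp only [map_add, map_mul, map_pow, Polynomial.aeval_X, Polynomial.aeval_C]
    linear_combination -h)

lemma bwdW_x : bwdW α β (xW α β) = frac (JE α β (-1) 0) 2 0 := by
  have h : bwdW α β (xW α β) = Polynomial.aeval (frac (JE α β (-1) 0) 2 0)
      (Polynomial.X : Polynomial ℂ) :=
    AdjoinRoot.liftAlgHom_of (WE α β).polynomial _ _ _ _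
  rw [h, Polynomial.aeval_X]

lemma bwdW_y : bwdW α β (yW α β) = frac (JE α β (-1) 0) 2 1 :=
  AdjoinRoot.liftAlgHom_root (WE α β).polynomial _ _ _

lemma extW {T : Type*} [CommRing T] [Algebra ℂ T] {f g : (WE α β).CoordinateRing →ₐ[ℂ] T}
    (h1 : f (xW α β) = g (xW α β)) (h2 : f (yW α β) = g (yW α β)) : f = g := by
  have h3 : f.comp (IsScalarTower.toAlgHom ℂ (Polynomial ℂ) (WE α β).CoordinateRing) =
      g.comp (IsScalarTower.toAlgHom ℂ (Polynomial ℂ) (WE α β).CoordinateRing) := by
    apply Polynomial.algHom_ext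
    exact h1
  have h4 : f.toRingHom = g.toRingHom := by
    apply AdjoinRoot.ringHom_ext
    · apply RingHom.ext
      intro p
      exact congrArg (fun φ => φ p) h3
    · exact h2
  apply AlgHom.ext
  intro z
  exact congrArg (fun φ => φ z) h4

/-- the chart ring is Mathlib's coordinate ring -/
noncomputable def eqvW : Ch (JE α β (-1) 0) 2 ≃ₐ[ℂ] (WE α β).CoordinateRing :=
  AlgEquiv.ofAlgHom (fwdW α β) (bwdW α β)
    (by
      apply extW
      · rw [AlgHom.comp_apply, bwdW_x, fwdW_frac]
        rfl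
      · rw [AlgHom.comp_apply, bwdW_y, fwdW_frac]
        rfl)
    (by
      apply ch_algHom_ext
      intro a
      rw [AlgHom.comp_apply, fwdW_frac, AlgHom.id_apply]
      fin_cases a
      · exact bwdW_x α β
      · exact bwdW_y α β
      · change bwdW α β 1 = frac _ 2 2
        rw [map_one, frac_self])

/-- the open immersion of the affine curve -/
noncomputable def aW : Spec (.of (WE α β).CoordinateRing) ⟶ V (JE α β (-1) 0) :=
  Spec.map (CommRingCat.ofHom (fwdW α β).toRingHom) ≫ V.chart _ 2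

instance isIso_fwdW : IsIso (CommRingCat.ofHom (R := Ch (JE α β (-1) 0) 2)
    (S := (WE α β).CoordinateRing) (fwdW α β).toRingHom) :=
  (ConcreteCategory.isIso_iff_bijective _).2 (eqvW α β).bijective

lemma aW_open : IsOpenImmersion (aW α β) := by
  unfold aW
  infer_instance

lemma aW_str : aW α β ≫ V.str _ = Spec.map (CommRingCat.ofHom
    (algebraMap ℂ (WE α β).CoordinateRing)) := by
  unfold aW
  rw [Category.assoc, V.chart_str, ← Spec.map_comp, ← CommRingCat.ofHom_comp]
  congr 2
  ext z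
  exact (fwdW α β).commutes z

lemma aW_range (x : V (JE α β (-1) 0)) : x ∈ Set.range (aW α β) ↔ x ∈ V.D (JE α β (-1) 0) 2 := by
  rw [← V.mem_range_chart]
  unfold aW
  constructor
  · rintro ⟨y, rfl⟩
    exact ⟨_, rfl⟩
  · rintro ⟨y, rfl⟩
    have hs : Function.Surjective (Spec.map (CommRingCat.ofHom (R := Ch (JE α β (-1) 0) 2)
      (S := (WE α β).CoordinateRing) (fwdW α β).toRingHom)) :=
      (Scheme.homeoOfIso (asIso (Spec.map (CommRingCat.ofHom (R := Ch (JE α β (-1) 0) 2)
      (S := (WE α β).CoordinateRing) (fwdW α β).toRingHom)))).surjective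
    obtain ⟨z, rfl⟩ := hs y
    exact ⟨z, rfl⟩

lemma o_rel : ∀ f ∈ (JE α β (-1) 0).toIdeal, aeval (![0, 1, 0] : Fin 3 → ℂ) f = 0 := by
  apply aeval_ofSet
  rintro f rfl
  simp [cubE]

/-- the point at infinity -/
noncomputable def oW : Cpt ⟶ V (JE α β (-1) 0) := pt _ 1 ![0, 1, 0] rfl (o_rel α β)

/-- the homomorphism of the point at infinity -/
noncomputable def ψo : Ch (JE α β (-1) 0) 1 →ₐ[ℂ] ℂ := chLift _ 1 ![0, 1, 0] rfl (o_rel α β)

lemma ψo_frac (a : Fin 3) : ψo α β (frac _ 1 a) = (![0, 1, 0] : Fin 3 → ℂ) a :=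
  chLift_frac _ _ _ _ _ a

lemma o_mem (x : V (JE α β (-1) 0)) : x ∈ V.D (JE α β (-1) 0) 2 ↔ x ∉ Set.range (oW α β) := by
  constructor
  · rintro hx ⟨y, rfl⟩
    have h1 : oW α β y = V.chart (JE α β (-1) 0) 1
        (Spec.map (CommRingCat.ofHom (ψo α β).toRingHom) y) := rfl
    rw [h1, V.chart_mem_D] at hx
    apply hx
    change ψo α β (frac _ 1 2) ∈ y.asIdeal
    rw [ψo_frac]
    exact y.asIdeal.zero_mem
  · intro hx
    by_contra hcon
    apply hx
    have hx1 : x ∈ V.D (JE α β (-1) 0) 1 := (covE α β (-1) 0 x).resolve_left hcon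
    obtain ⟨y, rfl⟩ := (V.mem_range_chart _ 1 x).2 hx1
    rw [V.chart_mem_D, not_not] at hcon
    have h0 : frac (JE α β (-1) 0) 1 0 ∈ y.asIdeal := by
      have h := aeval_frac_eq_zero (JE α β (-1) 0) 1 (cubE α β (-1) 0) (mem_ofSet rfl)
      unfold cubE at h
      simp only [map_add, map_mul, map_pow, aeval_X, aeval_C, frac_self, map_neg, map_one,
        map_zero] at h
      have h3 : frac (JE α β (-1) 0) 1 0 ^ 3 = (1 - algebraMap ℂ _ α * frac (JE α β (-1) 0) 1 0 *
          frac (JE α β (-1) 0) 1 2 - algebraMap ℂ _ β * frac (JE α β (-1) 0) 1 2 ^ 2) *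
          frac (JE α β (-1) 0) 1 2 := by
        linear_combination h
      apply y.isPrime.mem_of_pow_mem 3
      rw [h3]
      exact Ideal.mul_mem_left _ _ hcon
    have hker : (algebraMap ℂ (Ch (JE α β (-1) 0) 1 ⧸ y.asIdeal)).comp (ψo α β).toRingHom =
        (Ideal.Quotient.mk y.asIdeal) := by
      apply ch_ringHom_ext
      · intro r
        have h1 : (ψo α β).toRingHom (algebraMap ℂ _ r) = r := (ψo α β).commutes r
        rw [RingHom.comp_apply, h1]
        rfl
      · intro a
        have h1 : (ψo α β).toRingHom (frac _ 1 a) = _ := ψo_frac α β a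
        rw [RingHom.comp_apply, h1]
        fin_cases a
        · change algebraMap ℂ _ 0 = _
          rw [map_zero]
          exact (Ideal.Quotient.eq_zero_iff_mem.2 h0).symm
        · change algebraMap ℂ _ 1 = Ideal.Quotient.mk y.asIdeal (frac _ 1 1)
          rw [map_one, frac_self, map_one]
        · change algebraMap ℂ _ 0 = _
          rw [map_zero]
          exact (Ideal.Quotient.eq_zero_iff_mem.2 hcon).symm
    let z0 : Cpt := (⟨⊥, Ideal.isPrime_bot⟩ : PrimeSpectrum ℂ)
    refine ⟨z0, ?_⟩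
    have h1 : oW α β z0 = V.chart (JE α β (-1) 0) 1
        (Spec.map (CommRingCat.ofHom (ψo α β).toRingHom) z0) := rfl
    rw [h1]
    congr 1
    apply PrimeSpectrum.ext
    change Ideal.comap (ψo α β).toRingHom ⊥ = y.asIdeal
    apply le_antisymm
    · intro r hr
      rw [Ideal.mem_comap, Ideal.mem_bot] at hr
      rw [← Ideal.Quotient.eq_zero_iff_mem, ← hker, RingHom.comp_apply, hr, map_zero]
    · intro r hr
      rw [Ideal.mem_comap, Ideal.mem_bot]
      rw [← Ideal.Quotient.eq_zero_iff_mem, ← hker, RingHom.comp_apply] at hr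
      have := Ideal.Quotient.nontrivial_iff.2 y.isPrime.ne_top
      exact (map_eq_zero _).1 hr

theorem isModel (hα : α ≠ 0) (hΔ : 4 * α ^ 3 + 27 * β ^ 2 ≠ 0) :
    IsModel (WE α β) (V.str (JE α β (-1) 0)) (oW α β) (aW α β) where
  curve := ⟨(good_one hα).integralE, isProjective_V _, smoothE_one hα hΔ, genusE _ _ _ _⟩
  over_o := pt_str _ _ _ _ _
  over_a := aW_str α β
  openImm := aW_open α β
  compl x := (aW_range α β x).trans (o_mem α β x)

end Pool.Agent.Q79.QD
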